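import Pool.Agent.Lib.MP_70c3c6_co.GP.Spec3

/-! # Module AS3: the case `k > m` of the gap theorem -/

set_option autoImplicit false
open Classical Polynomial Pointwise

namespace Pool.Agent.Lib.MP_70c3c6_co.GP

open Pool.Agent.Lib.MP_70c3c6_co.EQ
open Pool.Agent.Lib.MP_70c3c6_co.FG

namespace AS3M

lemma TT_sub {ι : Type} [Fintype ι] {x y τ : ι → ℂ} {M : ι → Finset ℂ} {E : Finset ℂ}
    (hS : SysB x y τ M E) {t : ℂ} (ht : t ∈ TT τ M) : t ∈ E := by
  unfold TT at ht
  rw [Finset.mem_image] at ht
  obtain ⟨i, _, rfl⟩ := ht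
  exact hS.sub i (hS.tau i)

lemma one_class {ι : Type} [Fintype ι] {x y τ : ι → ℂ} {M : ι → Finset ℂ} {E : Finset ℂ}
    {lam : ℂ → ℂ} (hWA : SpecWA) (hS : SysB x y τ M E) (hK : Key x y τ M E lam)
    {t : ℂ} (hT : TT τ M = {t}) : (cls τ M t).card ≤ (Bd M).card := by
  have htT : t ∈ TT τ M := by rw [hT]; exact Finset.mem_singleton_self t
  obtain ⟨e, heE, het, hrel⟩ := hK.out t (TT_sub hS htT)
  have h1 := hWA ι x y τ M E lam hS hK e heE
  have h2 : t ∈ UU (TT τ M) lam e := by
    unfold UU
    rw [Finset.mem_filter]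
    refine ⟨htT, fun h => het h.symm, ?_⟩
    intro s' hs' _
    rw [hT, Finset.mem_singleton] at hs'
    rw [hs']
    exact hrel
  have h3 : (cls τ M t).card ≤ ∑ s ∈ UU (TT τ M) lam e, (cls τ M s).card :=
    Finset.single_le_sum (f := fun s => (cls τ M s).card) (fun _ _ => Nat.zero_le _) h2
  omega

end AS3M

open AS3M in
theorem specAS3 (hKYB : SpecKYB) (hBJ : SpecBJ) (hWA : SpecWA) (hWB : SpecWB) (hWE : SpecWE)
    (hWG2 : SpecWG2) (hTWO : SpecTWO) (hTW2 : SpecTW2) (hBI2 : SpecBI2) : SpecAS3 := by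
  intro ι _ x y τ M E hS hk
  by_contra hcon
  rw [not_or] at hcon
  obtain ⟨hc1, hc2⟩ := hcon
  have hc1' : 7075 * JJ M < Fintype.card ι := not_le.mp hc1
  obtain ⟨lam, hK⟩ := hKYB ι x y τ M E hS hk
  obtain ⟨hb, _, hsum⟩ := hBJ ι x y τ M E hS
  have hne : (TT τ M).Nonempty := by
    rw [Finset.nonempty_iff_ne_empty]
    intro h
    rw [h, Finset.sum_empty] at hsum
    omega
  obtain ⟨t, htT, hmax⟩ := Finset.exists_max_image (TT τ M) (fun s => (cls τ M s).card) hne
  have ha : 3 ≤ (cls τ M t).card := by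
    by_contra h
    have h1 : ∀ s ∈ TT τ M, (cls τ M s).card ≤ 2 := fun s hs => by
      have := hmax s hs
      omega
    have h2 := hWE ι x y τ M E lam hS hK hk h1
    omega
  have hcard1 : 1 ≤ (TT τ M).card := Finset.card_pos.mpr hne
  rcases Nat.lt_or_ge (TT τ M).card 2 with h1 | h1
  · -- one class
    have h2 : (TT τ M).card = 1 := by omega
    obtain ⟨t', ht'⟩ := Finset.card_eq_one.mp h2
    have h3 := one_class hWA hS hK ht'
    rw [ht', Finset.sum_singleton] at hsum
    omega
  rcases Nat.lt_or_ge (TT τ M).card 3 with h2 | h2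
  · have h3 : (TT τ M).card = 2 := by omega
    have h4 := hTWO ι x y τ M E lam hS hK hk h3 (by omega)
    exact hc2 ⟨by omega, hTW2 ι x y τ M E lam hS hK hk h3 (by omega)⟩
  · obtain ⟨hU, hcov⟩ := hWG2 ι x y τ M E lam hS hK hk t htT hmax
    have hFF : ∀ w ∈ TT τ M, w ≠ t → 3 ≤ (FF E lam t w).card := by
      intro w hw hwt
      have h3 := (hWB ι x y τ M E lam hS hK t htT w hw (fun h => hwt h.symm)).2.1
      exact ha.trans h3
    by_cases hall : ∀ e ∈ E, UU (TT τ M) lam e = ∅
    · refine hBI2 (TT τ M) E lam t 0 htT h2 hFF ?_ (by omega)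
      intro e he
      rw [hall e he]
      simp
    · have hab : (cls τ M t).card ≤ 2 * (Bd M).card := by
        by_contra hab
        apply hall
        intro e he
        rcases hU e he with h3 | h3
        · exact h3
        · exact absurd h3.1 hab
      have hapos : 0 < (cls τ M t).card := by omega
      refine hBI2 (TT τ M) E lam t (4 * (Bd M).card / (cls τ M t).card) htT h2 hFF ?_ ?_
      · intro e he
        rcases hU e he with h3 | h3
        · rw [h3]; simp
        · rw [Nat.le_div_iff_mul_le hapos]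
          exact h3.2
      · by_contra hlt
        have h3 : (TT τ M).card ≤ 1768 * (4 * (Bd M).card / (cls τ M t).card) := by omega
        have h4 : 4 * (Bd M).card / (cls τ M t).card * (cls τ M t).card ≤ 4 * (Bd M).card :=
          Nat.div_mul_le_self _ _
        have h5 : (TT τ M).card * (cls τ M t).card ≤
            1768 * (4 * (Bd M).card / (cls τ M t).card) * (cls τ M t).card :=
          Nat.mul_le_mul_right _ h3
        have h6 : 1768 * (4 * (Bd M).card / (cls τ M t).card) * (cls τ M t).card ≤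
            1768 * (4 * (Bd M).card) := by
          rw [Nat.mul_assoc]
          exact Nat.mul_le_mul_left _ h4
        have h7 : (TT τ M).card * (cls τ M t).card ≤ 1768 * (4 * (Bd M).card) := h5.trans h6
        omega

end Pool.Agent.Lib.MP_70c3c6_co.GP
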