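import Pool.Agent.Lib.MP_70c3c6_co.GP.Spec

/-!
# MP_70c3c6_co, module BIG: a large set of classes is impossible
-/

set_option autoImplicit false
open Classical Polynomial Pointwise

namespace Pool.Agent.Lib.MP_70c3c6_co.GP

open Pool.Agent.Lib.MP_70c3c6_co.EQ
open Pool.Agent.Lib.MP_70c3c6_co.FG

namespace BIGM

theorem inv_inj {t a b : ℂ} (h : (a - t)⁻¹ = (b - t)⁻¹) : a = b := by
  have h1 := inv_injective h
  exact sub_left_injective h1

/-- two of three different elements have different squares of the differences -/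
theorem two_of_three {t om : ℂ} {a b c : ℂ} (hab : a ≠ b) (hac : a ≠ c) (hbc : b ≠ c) :
    ((a - t)⁻¹ - om) ^ 2 ≠ ((b - t)⁻¹ - om) ^ 2 ∨ ((a - t)⁻¹ - om) ^ 2 ≠ ((c - t)⁻¹ - om) ^ 2 := by
  by_contra h
  push Not at h
  obtain ⟨h1, h2⟩ := h
  rcases sq_eq_sq_iff_eq_or_eq_neg.1 h1 with h3 | h3
  · exact hab (inv_inj (sub_left_injective h3))
  · rcases sq_eq_sq_iff_eq_or_eq_neg.1 h2 with h4 | h4
    · exact hac (inv_inj (sub_left_injective h4))
    · rw [h3] at h4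
      exact hbc (inv_inj (sub_left_injective (neg_injective h4)))

end BIGM

open BIGM

theorem specBIG (hMOB : SpecMOB) (hPIG : SpecPIG) : SpecBIG := by
  intro T E lam t u ht h3 hF hU hbig
  set T' : Finset ℂ := (T.erase t).image fun s => (s - t)⁻¹ with hT'
  have hcard : T'.card = T.card - 1 := by
    rw [hT', Finset.card_image_of_injective _ fun a b h => inv_inj h, Finset.card_erase_of_mem ht]
  refine hPIG T' (2 * u) (by omega) (by omega) ?_
  intro w' hw'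
  rw [hT', Finset.mem_image] at hw'
  obtain ⟨w, hw, rfl⟩ := hw'
  rw [Finset.mem_erase] at hw
  obtain ⟨a, b, c, ha, hb, hc, hab, hac, hbc⟩ := Finset.two_lt_card_iff.1 (hF w hw.2 hw.1)
  have hmem : ∀ e, e ∈ FF E lam t w → e ∈ E ∧ e ≠ t ∧ e ≠ w ∧ Rel lam e t w := by
    intro e he
    unfold FF at he
    rw [Finset.mem_filter] at he
    exact he
  have key : ∀ e e', e ∈ FF E lam t w → e' ∈ FF E lam t w →
      ((e - t)⁻¹ - (w - t)⁻¹) ^ 2 ≠ ((e' - t)⁻¹ - (w - t)⁻¹) ^ 2 →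
      ∃ h : Equiv.Perm ℂ, h ≠ 1 ∧ Aff h ∧ h ((w - t)⁻¹) = (w - t)⁻¹ ∧ dfc T' h ≤ 2 * u := by
    intro e e' he he' hne
    obtain ⟨h1, h2, h3', h4⟩ := hmem e he
    obtain ⟨k1, k2, k3, k4⟩ := hmem e' he'
    obtain ⟨h, g1, g2, g3, g4⟩ := hMOB T lam t w e e' ht hw.2 (Ne.symm hw.1) h2 h3' k2 k3 h4 k4 hne
    refine ⟨h, g1, g2, g3, g4.trans ?_⟩
    have := hU e h1
    have := hU e' k1
    omega
  rcases two_of_three (t := t) (om := (w - t)⁻¹) hab hac hbc with h | h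
  · exact key a b ha hb h
  · exact key a c ha hc h

end Pool.Agent.Lib.MP_70c3c6_co.GP
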