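import Pool.Agent.Lib.MP_70c3c6_co.GP.Spec

/-!
# MP_70c3c6_co, gap theorem, module BJ: counting good and bad points
-/

set_option autoImplicit false
open Classical Polynomial Pointwise

namespace Pool.Agent.Lib.MP_70c3c6_co.GP

open Pool.Agent.Lib.MP_70c3c6_co.EQ
open Pool.Agent.Lib.MP_70c3c6_co.FG

namespace BJM

theorem one_le {ι : Type} [Fintype ι] {x y τ : ι → ℂ} {M : ι → Finset ℂ} {E : Finset ℂ}
    (h : SysB x y τ M E) (i : ι) : 1 ≤ (M i).card :=
  Finset.card_pos.2 ⟨τ i, h.tau i⟩

end BJM

theorem specBJ : SpecBJ := by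
  intro ι _ x y τ M E h
  refine ⟨?_, ?_, ?_⟩
  · unfold Bd JJ
    rw [Finset.card_filter]
    refine Finset.sum_le_sum fun i _ => ?_
    have h1 := BJM.one_le h i
    split_ifs with hi
    · omega
    · omega
  · unfold JJ
    have h2 : ∀ i : ι, (M i).card = 1 + ((M i).card - 1) := fun i => by
      have h1 := BJM.one_le h i
      omega
    calc ∑ i, (M i).card = ∑ i : ι, (1 + ((M i).card - 1)) := Finset.sum_congr rfl fun i _ => h2 i
      _ = Fintype.card ι + ∑ i, ((M i).card - 1) := by
        rw [Finset.sum_add_distrib]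
        simp
  · have h3 : ∑ s ∈ TT τ M, (cls τ M s).card =
        (Finset.univ.filter fun i => (M i).card = 1).card := by
      rw [Finset.card_eq_sum_card_image τ]
      unfold TT cls
      refine Finset.sum_congr rfl fun s _ => ?_
      rw [Finset.filter_filter]
    rw [h3]
    unfold Bd
    rw [← Finset.card_univ]
    exact Finset.card_filter_add_card_filter_not (s := (Finset.univ : Finset ι))
      (fun i => (M i).card = 1)

end Pool.Agent.Lib.MP_70c3c6_co.GP
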