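import Pool.Agent.Lib.MP_70c3c6_co.GP.Spec
import Pool.Agent.Lib.MP_70c3c6_co.EQ.CNT

/-!
# GP, module CNB: counting double points (from EQ/CNT)
-/

set_option autoImplicit false
open Classical

namespace Pool.Agent.Lib.MP_70c3c6_co.GP

open Pool.Agent.Lib.MP_70c3c6_co.EQ
open Pool.Agent.Lib.MP_70c3c6_co.EQ.CNTM

namespace CNBM

/-- the pairs of the two lines through `p`, if there are only two -/
lemma offDiag_sub {A : Finset EQ.V3} {p : EQ.V3} (hA : Arr A) (hm : (Ap A p).card = 2) :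
    (Ap A p).offDiag ⊆ Fn A := by
  intro x hx
  obtain ⟨hx1, hx2, hx3⟩ := Finset.mem_offDiag.1 hx
  refine mem_Fn.2 ⟨⟨(mem_Ap.1 hx1).1, (mem_Ap.1 hx2).1⟩, hx3, ?_⟩
  intro c hc h1 h2
  have hcp : dotProduct c p ≠ 0 := by
    intro h0
    have h4 : ({c, x.1, x.2} : Finset EQ.V3) ⊆ Ap A p := by
      intro y hy
      rcases Finset.mem_insert.1 hy with rfl | hy
      · exact mem_Ap.2 ⟨hc, h0⟩
      rcases Finset.mem_insert.1 hy with rfl | hy
      · exact hx1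
      · rw [Finset.mem_singleton.1 hy]; exact hx2
    have h5 := Finset.card_le_card h4
    rw [hm, Finset.card_eq_three.2 ⟨c, x.1, x.2, h1, h2, hx3, rfl⟩] at h5
    omega
  have h4 := MPss.li_of_through hA.li hcp (mem_Ap.1 hx1).1 (mem_Ap.1 hx1).2 (mem_Ap.1 hx2).1
    (mem_Ap.1 hx2).2 hx3
  exact MPss.li3_swap' (MPss.li3_swap h4)

lemma arith (k m d S F : ℕ) (hk : 1 ≤ k) (hd : 1 ≤ d) (hm : m = k + d) (h1 : k * (d + 1) ≤ S)
    (h2 : 2 * S ≤ F) : 2 * (m + k) ≤ F + 2 := by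
  obtain ⟨k', rfl⟩ : ∃ k', k = k' + 1 := ⟨k - 1, by omega⟩
  obtain ⟨d', rfl⟩ : ∃ d', d = d' + 1 := ⟨d - 1, by omega⟩
  subst hm
  nlinarith

end CNBM

open CNBM in
theorem specCNB : SpecCNB := by
  intro A p hA hM
  have hgd : ∀ a, gd A p a = good A p a := fun _ => rfl
  obtain ⟨c1, hc1, c2, hc2, hc12, hp1, hp2⟩ := hM.two
  have hA'ne := Aq_pos hA hM
  have hg1 : ∀ a ∈ Aq A p, 1 ≤ (good A p a).card := by
    intro a ha
    obtain ⟨haA, hap⟩ := mem_Aq.1 ha
    obtain ⟨c, hc, hcp, h⟩ := MPss.exists_double hA.nz hA.li hc1 hc2 hc12 hp1 hp2 hM.m haA hap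
    exact Finset.card_pos.2 ⟨c, mem_good.2 ⟨⟨hc, hcp⟩, h⟩⟩
  have hg2 : ∀ a ∈ Aq A p, (Ap A p).card + 1 ≤ (good A p a).card + (Aq A p).card := by
    intro a ha
    obtain ⟨haA, hap⟩ := mem_Aq.1 ha
    exact MPss.count_line hA.nz hA.li haA hap
  have htot : A.card = (Ap A p).card + (Aq A p).card :=
    (Finset.card_filter_add_card_filter_not (s := A) (fun c => dotProduct c p = 0)).symm
  have hm2 : 2 ≤ (Ap A p).card := by
    have h1 : ({c1, c2} : Finset EQ.V3) ⊆ Ap A p := by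
      intro x hx
      rcases Finset.mem_insert.1 hx with rfl | hx
      · exact mem_Ap.2 ⟨hc1, hp1⟩
      · rw [Finset.mem_singleton.1 hx]
        exact mem_Ap.2 ⟨hc2, hp2⟩
    have h2 := Finset.card_le_card h1
    rwa [Finset.card_pair hc12] at h2
  have hs0 := two_sum_le (p := p) hA ∅ (Finset.empty_subset _) (by simp)
  rw [Finset.card_empty, add_zero] at hs0
  have hsum1 : (Aq A p).card • 1 ≤ ∑ a ∈ Aq A p, (good A p a).card :=
    Finset.card_nsmul_le_sum _ _ _ hg1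
  rw [smul_eq_mul, mul_one] at hsum1
  refine ⟨hs0, hg1, hm2, htot, ?_⟩
  intro hcase
  by_cases hm : (Ap A p).card = 2
  · have h1 := two_sum_le (p := p) hA _ (offDiag_sub hA hm) fun x hx =>
      ⟨(mem_Ap.1 (Finset.mem_offDiag.1 hx).1).2, (mem_Ap.1 (Finset.mem_offDiag.1 hx).2.1).2⟩
    rw [Finset.offDiag_card, hm] at h1
    omega
  · have hlt : (Aq A p).card < (Ap A p).card := hcase.resolve_left hm
    obtain ⟨d, hd⟩ : ∃ d, (Ap A p).card = (Aq A p).card + d :=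
      ⟨(Ap A p).card - (Aq A p).card, by omega⟩
    have h1 : (Aq A p).card • (d + 1) ≤ ∑ a ∈ Aq A p, (good A p a).card :=
      Finset.card_nsmul_le_sum _ _ _ fun a ha => by
        have := hg2 a ha
        show d + 1 ≤ _
        omega
    rw [smul_eq_mul] at h1
    rw [htot]
    exact arith _ _ d _ _ hA'ne (by omega) hd h1 hs0

end Pool.Agent.Lib.MP_70c3c6_co.GP
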