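import Pool.Agent.Lib.MP_70c3c6_co.GP.Spec

/-!
MP_70c3c6_co, GP, COB: the conic through the good points.
-/

set_option autoImplicit false
open Classical

namespace Pool.Agent.Lib.MP_70c3c6_co.GP

open Pool.Agent.Lib.MP_70c3c6_co.EQ

namespace COBM

variable {κ : Type} {x y τ : κ → ℂ}

theorem slope (hinj : Function.Injective x) {i j : κ} (hij : j ≠ i) :
    x j - x i ≠ 0 ∧ (x j - x i) * ms x y i j = y j - y i := by
  have hD : x j - x i ≠ 0 := sub_ne_zero.mpr fun h => hij (hinj h)
  refine ⟨hD, ?_⟩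
  unfold ms
  rw [mul_div_cancel₀ _ hD]

theorem pair (hinj : Function.Injective x) (htang : ∀ i j, i ≠ j → ms x y i j ≠ τ i)
    {a1 b1 c1 a2 b2 c2 : ℂ} (ha : a1 ≠ 0)
    (hdet : a1 * b2 - a2 * b1 ≠ 0)
    (ht : ∀ i, (a1 * x i + b1 * y i + c1) * (a2 + b2 * τ i) +
      (a2 * x i + b2 * y i + c2) * (a1 + b1 * τ i) = 0) {i j : κ} (hij : i ≠ j)
    (hi : a1 * x i + b1 * y i + c1 = 0) (hj : a1 * x j + b1 * y j + c1 = 0) : False := by
  have key : ∀ i j : κ, i ≠ j → a1 * x i + b1 * y i + c1 = 0 →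
      a1 * x j + b1 * y j + c1 = 0 → a2 * x i + b2 * y i + c2 = 0 := by
    intro i j hij hi hj
    obtain ⟨hD, hm⟩ := slope (y := y) hinj (Ne.symm hij)
    have h1 : a1 + b1 * ms x y i j = 0 := by
      have : (x j - x i) * (a1 + b1 * ms x y i j) = 0 := by
        linear_combination hj - hi + b1 * hm
      exact (mul_eq_zero.mp this).resolve_left hD
    have h2 := ht i
    rw [hi, zero_mul, zero_add] at h2
    by_contra h3
    have h4 := (mul_eq_zero.mp h2).resolve_left h3
    have h5 : b1 * (ms x y i j - τ i) = 0 := by linear_combination h1 - h4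
    rcases mul_eq_zero.mp h5 with h6 | h6
    · rw [h6, zero_mul, add_zero] at h1
      exact ha h1
    · exact htang i j hij (sub_eq_zero.mp h6)
  have e1 := key i j hij hi hj
  have e2 := key j i (Ne.symm hij) hj hi
  apply hij
  apply hinj
  have h3 : (a1 * b2 - a2 * b1) * (x i - x j) = 0 := by
    linear_combination b2 * (hi - hj) - b1 * (e1 - e2)
  exact sub_eq_zero.mp ((mul_eq_zero.mp h3).resolve_left hdet)

/-- the normalised case -/
theorem core [Fintype κ] (hCON : SpecCON) (g : κ → ℂ) (hcard : 3 ≤ Fintype.card κ)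
    (hinj : Function.Injective x) (hg0 : ∀ i, g i ≠ 0)
    (hg : ∀ i j, (y j - y i) * (g i + g j) = (x j - x i) * (τ i * g i + τ j * g j))
    (htang : ∀ i j, i ≠ j → ms x y i j ≠ τ i)
    (hsep : ∀ i j l, j ≠ i → l ≠ i → j ≠ l → ms x y i j ≠ ms x y i l)
    (i0 i1 : κ) (hx0 : x i0 = 0) (hy0 : y i0 = 0) (hx1 : x i1 = 1) (hy1 : y i1 = 0) :
    ∃ a1 b1 c1 a2 b2 c2 N : ℂ, Hyp x y τ a1 b1 c1 a2 b2 c2 N ∨ Par x y τ a1 b1 c1 a2 b2 c2 := by
  have hi01 : i1 ≠ i0 := by
    intro h
    rw [h, hx0] at hx1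
    exact zero_ne_one hx1
  have hm01 : ms x y i0 i1 = 0 := by
    unfold ms
    rw [hy0, hy1, sub_zero, zero_div]
  have hz : ∀ i, y i = 0 → i = i0 ∨ i = i1 := by
    intro i hi
    by_contra h
    rw [not_or] at h
    refine hsep i0 i1 i hi01 h.1 (Ne.symm h.2) ?_
    rw [hm01]
    unfold ms
    rw [hi, hy0, sub_zero, zero_div]
  obtain ⟨i2, hi2⟩ : ∃ i, i ∉ ({i0, i1} : Finset κ) := by
    by_contra hcon
    push Not at hcon
    have h1 : (Finset.univ : Finset κ).card ≤ ({i0, i1} : Finset κ).card :=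
      Finset.card_le_card fun i _ => hcon i
    have h2 := Finset.card_le_two (a := i0) (b := i1)
    rw [Finset.card_univ] at h1
    omega
  rw [Finset.mem_insert, Finset.mem_singleton, not_or] at hi2
  have hy2 : y i2 ≠ 0 := fun h => (hz i2 h).elim hi2.1 hi2.2
  obtain ⟨b, c, hbc⟩ := hCON κ x y g (fun i => τ i * g i) i0 i1 hg hx0 hy0 hx1 hy1
    ⟨i2, hy2⟩ hz
  set h0 : ℂ := τ i0 * g i0 with hh0
  have hτ0 : τ i0 ≠ 0 := by
    intro h
    exact htang i0 i1 (Ne.symm hi01) (hm01.trans h.symm)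
  have hh : h0 ≠ 0 := mul_ne_zero hτ0 (hg0 i0)
  have hH : ∀ i, -(τ i * g i) = 2 * h0 * x i + b * y i - h0 := fun i => (hbc i).1
  have hG : ∀ i, g i = b * x i + c * y i + g i0 := fun i => (hbc i).2.1
  have hQ : ∀ i, 2 * h0 * x i ^ 2 + 2 * b * x i * y i + c * y i ^ 2 - 2 * h0 * x i
      + 2 * g i0 * y i = 0 := fun i => (hbc i).2.2
  have ha : 2 * h0 ≠ 0 := mul_ne_zero two_ne_zero hh
  obtain ⟨r, hr⟩ := IsAlgClosed.exists_pow_nat_eq (b ^ 2 - 2 * h0 * c) (n := 2) (by norm_num)
  set k : ℂ := 2 * h0 * g i0 + b * h0 with hk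
  by_cases hr0 : r = 0
  · -- the parabola
    have hc : b ^ 2 = 2 * h0 * c := by
      rw [hr0] at hr
      linear_combination -hr
    have hq : ∀ i, (2 * h0 * x i + b * y i + (-h0)) ^ 2 + 2 * k * y i + (-h0 ^ 2) = 0 := by
      intro i
      rw [hk]
      linear_combination 2 * h0 * hQ i + y i ^ 2 * hc
    have ht : ∀ i, (2 * h0 * x i + b * y i + (-h0)) * (2 * h0 + b * τ i) + k * τ i = 0 := by
      intro i
      rw [hk]
      linear_combination (-(2 * h0 + b * τ i)) * hH i - 2 * h0 * τ i * hG i + b * τ i * hH i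
        + τ i * y i * hc
    by_cases hk0 : k = 0
    · -- two parallel lines
      exfalso
      have hu : ∀ i, 2 * h0 * x i + b * y i + (-h0) = h0 ∨
          2 * h0 * x i + b * y i + (-h0) = -h0 := by
        intro i
        have h1 := hq i
        rw [hk0] at h1
        apply sq_eq_sq_iff_eq_or_eq_neg.mp
        linear_combination h1
      have hat : ∀ i, 2 * h0 + b * τ i = 0 := by
        intro i
        have h1 := ht i
        rw [hk0, zero_mul, add_zero] at h1
        refine (mul_eq_zero.mp h1).resolve_left ?_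
        rcases hu i with h2 | h2
        · rw [h2]
          exact hh
        · rw [h2]
          exact neg_ne_zero.mpr hh
      have hpp : ∀ i j, i ≠ j → 2 * h0 * x i + b * y i + (-h0) ≠
          2 * h0 * x j + b * y j + (-h0) := by
        intro i j hij h
        obtain ⟨hD, hm⟩ := slope (y := y) hinj (Ne.symm hij)
        have h1 : 2 * h0 + b * ms x y i j = 0 := by
          have : (x j - x i) * (2 * h0 + b * ms x y i j) = 0 := by
            linear_combination (-1 : ℂ) * h + b * hm
          exact (mul_eq_zero.mp this).resolve_left hD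
        have h2 := hat i
        have h5 : b * (ms x y i j - τ i) = 0 := by linear_combination h1 - h2
        rcases mul_eq_zero.mp h5 with h6 | h6
        · rw [h6, zero_mul, add_zero] at h1
          exact ha h1
        · exact htang i j hij (sub_eq_zero.mp h6)
      have p01 := hpp i0 i1 (Ne.symm hi01)
      have p02 := hpp i0 i2 (Ne.symm hi2.1)
      have p12 := hpp i1 i2 (Ne.symm hi2.2)
      rcases hu i0 with q0 | q0 <;> rcases hu i1 with q1 | q1 <;> rcases hu i2 with q2 | q2
      · exact p01 (q0.trans q1.symm)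
      · exact p01 (q0.trans q1.symm)
      · exact p02 (q0.trans q2.symm)
      · exact p12 (q1.trans q2.symm)
      · exact p12 (q1.trans q2.symm)
      · exact p02 (q0.trans q2.symm)
      · exact p01 (q0.trans q1.symm)
      · exact p01 (q0.trans q1.symm)
    · refine ⟨2 * h0, b, -h0, 0, 2 * k, -h0 ^ 2, 0, Or.inr ⟨?_, ?_, ?_⟩⟩
      · have e : 2 * h0 * (2 * k) - 0 * b = 2 * (2 * h0) * k := by ring
        rw [e]
        exact mul_ne_zero (mul_ne_zero two_ne_zero ha) hk0
      · intro i
        linear_combination hq i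
      · intro i
        linear_combination 2 * ht i
  · -- the hyperbola
    have hdet : 2 * h0 * (b + r) - 2 * h0 * (b - r) ≠ 0 := by
      have : 2 * h0 * (b + r) - 2 * h0 * (b - r) = 2 * (2 * h0) * r := by ring
      rw [this]
      exact mul_ne_zero (mul_ne_zero two_ne_zero ha) hr0
    set s : ℂ := k / r with hs
    have hsr : s * r = k := div_mul_cancel₀ _ hr0
    have hq : ∀ i, (2 * h0 * x i + (b - r) * y i + (-h0 + s)) *
        (2 * h0 * x i + (b + r) * y i + (-h0 - s)) = h0 ^ 2 - s ^ 2 := by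
      intro i
      have h1 : s * r = 2 * h0 * g i0 + b * h0 := hsr
      linear_combination 2 * h0 * hQ i - y i ^ 2 * hr + 2 * y i * h1
    have ht : ∀ i, (2 * h0 * x i + (b - r) * y i + (-h0 + s)) * (2 * h0 + (b + r) * τ i) +
        (2 * h0 * x i + (b + r) * y i + (-h0 - s)) * (2 * h0 + (b - r) * τ i) = 0 := by
      intro i
      have h1 : s * r = 2 * h0 * g i0 + b * h0 := hsr
      linear_combination (-2 * (2 * h0 + b * τ i)) * hH i - 4 * h0 * τ i * hG i
        + 2 * b * τ i * hH i + 2 * τ i * h1 - 2 * τ i * y i * hr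
    have ht' : ∀ i, (2 * h0 * x i + (b + r) * y i + (-h0 - s)) * (2 * h0 + (b - r) * τ i) +
        (2 * h0 * x i + (b - r) * y i + (-h0 + s)) * (2 * h0 + (b + r) * τ i) = 0 := by
      intro i
      rw [add_comm]
      exact ht i
    have hdet' : 2 * h0 * (b - r) - 2 * h0 * (b + r) ≠ 0 := by
      intro h
      apply hdet
      linear_combination -h
    have hN : h0 ^ 2 - s ^ 2 ≠ 0 := by
      intro hN
      have hz : ∀ i, 2 * h0 * x i + (b - r) * y i + (-h0 + s) = 0 ∨
          2 * h0 * x i + (b + r) * y i + (-h0 - s) = 0 := fun i =>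
        mul_eq_zero.mp ((hq i).trans hN)
      have pu : ∀ i j, i ≠ j → 2 * h0 * x i + (b - r) * y i + (-h0 + s) = 0 →
          2 * h0 * x j + (b - r) * y j + (-h0 + s) = 0 → False := fun i j hij h1 h2 =>
        pair hinj htang ha hdet ht hij h1 h2
      have pv : ∀ i j, i ≠ j → 2 * h0 * x i + (b + r) * y i + (-h0 - s) = 0 →
          2 * h0 * x j + (b + r) * y j + (-h0 - s) = 0 → False := fun i j hij h1 h2 =>
        pair hinj htang ha hdet' ht' hij h1 h2
      rcases hz i0 with q0 | q0 <;> rcases hz i1 with q1 | q1 <;> rcases hz i2 with q2 | q2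
      · exact pu _ _ hi01 q1 q0
      · exact pu _ _ hi01 q1 q0
      · exact pu _ _ hi2.1 q2 q0
      · exact pv _ _ hi2.2 q2 q1
      · exact pu _ _ hi2.2 q2 q1
      · exact pv _ _ hi2.1 q2 q0
      · exact pv _ _ hi01 q1 q0
      · exact pv _ _ hi01 q1 q0
    exact ⟨2 * h0, b - r, -h0 + s, 2 * h0, b + r, -h0 - s, h0 ^ 2 - s ^ 2,
      Or.inl ⟨hdet, hN, hq, ht⟩⟩

end COBM

open COBM in
/-- the conic -/
theorem specCOB (hCON : SpecCON) : SpecCOB := by
  intro κ _ x y τ g hcard hinj hg0 hg htang hsep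
  obtain ⟨i0, i1, hi01⟩ : ∃ i0 i1 : κ, i0 ≠ i1 := Fintype.exists_pair_of_one_lt_card (by omega)
  obtain ⟨s, hs⟩ : ∃ s, s = ms x y i0 i1 := ⟨_, rfl⟩
  obtain ⟨D, hDdef⟩ : ∃ D, D = x i1 - x i0 := ⟨_, rfl⟩
  obtain ⟨hD0, hsl⟩ := slope (y := y) hinj (Ne.symm hi01)
  rw [← hDdef] at hD0 hsl
  rw [← hs] at hsl
  have hms : ∀ i j, i ≠ j → ms (fun i => (x i - x i0) / D)
      (fun i => (y i - y i0) - s * (x i - x i0)) i j = D * (ms x y i j - s) := by
    intro i j hij
    obtain ⟨hE, hm⟩ := slope (y := y) hinj (Ne.symm hij)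
    have h1 : (x j - x i0) / D - (x i - x i0) / D = (x j - x i) / D := by
      rw [← sub_div]
      congr 1
      ring
    have h2 : (x j - x i) / D ≠ 0 := div_ne_zero hE hD0
    show ((y j - y i0) - s * (x j - x i0) - ((y i - y i0) - s * (x i - x i0))) /
      ((x j - x i0) / D - (x i - x i0) / D) = D * (ms x y i j - s)
    rw [h1, div_eq_iff h2]
    have h3 : D * (ms x y i j - s) * ((x j - x i) / D) = (ms x y i j - s) * (x j - x i) := by
      rw [mul_comm D, mul_assoc, mul_div_cancel₀ _ hD0]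
    rw [h3]
    linear_combination -hm
  obtain ⟨a1, b1, c1, a2, b2, c2, N, h⟩ := core (x := fun i => (x i - x i0) / D)
    (y := fun i => (y i - y i0) - s * (x i - x i0)) (τ := fun i => D * (τ i - s)) hCON g hcard
    (by
      intro i j hij
      apply hinj
      have h1 : (x i - x i0) / D = (x j - x i0) / D := hij
      rw [div_left_inj' hD0] at h1
      exact sub_left_injective h1) hg0
    (by
      intro i j
      show ((y j - y i0) - s * (x j - x i0) - ((y i - y i0) - s * (x i - x i0))) * (g i + g j) =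
        ((x j - x i0) / D - (x i - x i0) / D) * (D * (τ i - s) * g i + D * (τ j - s) * g j)
      have h1 : ((x j - x i0) / D - (x i - x i0) / D) *
          (D * (τ i - s) * g i + D * (τ j - s) * g j) =
          (x j - x i) * ((τ i - s) * g i + (τ j - s) * g j) := by
        field_simp
        ring
      rw [h1]
      linear_combination hg i j)
    (by
      intro i j hij h
      rw [hms i j hij] at h
      have h1 := mul_left_cancel₀ hD0 h
      exact htang i j hij (sub_left_injective h1))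
    (by
      intro i j l hj hl hjl h
      rw [hms i j (Ne.symm hj), hms i l (Ne.symm hl)] at h
      have h1 := mul_left_cancel₀ hD0 h
      exact hsep i j l hj hl hjl (sub_left_injective h1))
    i0 i1 (by simp) (by simp)
    (by
      show (x i1 - x i0) / D = 1
      rw [← hDdef]
      exact div_self hD0)
    (by
      show (y i1 - y i0) - s * (x i1 - x i0) = 0
      rw [← hDdef]
      linear_combination -hsl)
  have hl : ∀ a b c : ℂ, ∀ i, (a / D - b * s) * x i + b * y i +
      (c - a * x i0 / D - b * y i0 + b * s * x i0) =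
      a * ((x i - x i0) / D) + b * ((y i - y i0) - s * (x i - x i0)) + c := by
    intro a b c i
    field_simp
    ring
  have hl' : ∀ a b : ℂ, ∀ i, (a / D - b * s) + b * τ i = (a + b * (D * (τ i - s))) / D := by
    intro a b i
    field_simp
    ring
  refine ⟨a1 / D - b1 * s, b1, c1 - a1 * x i0 / D - b1 * y i0 + b1 * s * x i0,
    a2 / D - b2 * s, b2, c2 - a2 * x i0 / D - b2 * y i0 + b2 * s * x i0, N, ?_⟩
  have hdt : (a1 / D - b1 * s) * b2 - (a2 / D - b2 * s) * b1 = (a1 * b2 - a2 * b1) / D := by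
    field_simp
    ring
  rcases h with ⟨h1, h2, h3, h4⟩ | ⟨h1, h2, h3⟩
  · left
    refine ⟨?_, h2, ?_, ?_⟩
    · rw [hdt]
      exact div_ne_zero h1 hD0
    · intro i
      rw [hl, hl]
      exact h3 i
    · intro i
      rw [hl, hl, hl', hl']
      have h5 := h4 i
      simp only at h5
      linear_combination (1 / D) * h5
  · right
    refine ⟨?_, ?_, ?_⟩
    · rw [hdt]
      exact div_ne_zero h1 hD0
    · intro i
      rw [hl, hl]
      exact h2 i
    · intro i
      rw [hl, hl', hl']
      have h5 := h3 i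
      simp only at h5
      linear_combination (1 / D) * h5

end Pool.Agent.Lib.MP_70c3c6_co.GP
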