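import Pool.Agent.Lib.MP_70c3c6_co.GP.Spec
import Pool.Agent.Lib.MP_70c3c6_co.EQ.CRD

/-! MP_70c3c6_co, the gap theorem: the module CRB (coordinates). -/

set_option autoImplicit false
open Classical

namespace Pool.Agent.Lib.MP_70c3c6_co.GP

open Pool.Agent.Lib.MP_70c3c6_co.EQ
open Pool.Agent.Lib.MP_70c3c6_co.FG

namespace CRBM

/-- not all lines pass through a point -/
theorem exists_off {A : Finset EQ.V3} {p : EQ.V3} (hA : Arr A) (hp : p ≠ 0) : ∃ a, a ∈ Aq A p := by
  by_contra hc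
  push_neg at hc
  have h0 : ∀ a ∈ A, dotProduct a p = 0 := by
    intro a ha
    by_contra h
    exact hc a (CRDM.mem_Aq.2 ⟨ha, h⟩)
  obtain ⟨a, ha, b, hb, c, hc', hli⟩ := hA.np
  let B := basisOfLinearIndependentOfCardEqFinrank hli (by simp)
  have hB : ⇑B = ![a, b, c] := coe_basisOfLinearIndependentOfCardEqFinrank _ _
  have hB0 : B 0 = a := by rw [hB]; rfl
  have hB1 : B 1 = b := by rw [hB]; rfl
  have hB2 : B 2 = c := by rw [hB]; rfl
  have hall : ∀ w : EQ.V3, dotProduct w p = 0 := by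
    intro w
    have h1 := B.sum_repr w
    rw [Fin.sum_univ_three, hB0, hB1, hB2] at h1
    rw [← h1, add_dotProduct, add_dotProduct, smul_dotProduct, smul_dotProduct, smul_dotProduct,
      h0 a ha, h0 b hb, h0 c hc']
    simp
  apply hp
  funext i
  have h1 := hall (Pi.single i 1)
  rw [single_dotProduct, one_mul] at h1
  exact h1

end CRBM

open MPss CRDM CRBM in
theorem specCRB (hCNB : SpecCNB) : SpecCRB := by
  intro A p hA hm h3
  obtain ⟨-, hgd, -, -, -⟩ := hCNB A p hA hm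
  obtain ⟨a0, ha0⟩ := exists_off hA hm.nz
  obtain ⟨c1, hc1, c2, hc2, h12⟩ := Finset.one_lt_card.1 (show 1 < (Ap A p).card by omega)
  obtain ⟨f0, f1, -, -, -, -, hker, hne⟩ := forms hA ha0 hc1 hc2 h12 (v := c1) (r := 1) one_ne_zero
    (one_smul _ _).symm
  have q0 : ∀ a ∈ Aq A p, dotProduct a p ≠ 0 := fun a ha => (mem_Aq.1 ha).2
  have hvv : ∀ (f : EQ.V3 →ₗ[ℂ] ℂ) (a b : EQ.V3), f (vv p a b) =
      f b / dotProduct b p - f a / dotProduct a p := by
    intro f a b
    rw [vv, map_sub, map_smul, map_smul, smul_eq_mul, smul_eq_mul, div_eq_inv_mul, div_eq_inv_mul]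
  -- slopes are injective
  have hinj : ∀ c ∈ Ap A p, ∀ c' ∈ Ap A p, f1 c / f0 c = f1 c' / f0 c' → c = c' := by
    intro c hc c' hc' h
    by_contra hcc
    rw [div_eq_div_iff (hne c hc) (hne c' hc')] at h
    have h1 : f0 c' • c - f0 c • c' = 0 := by
      refine hker _ ?_ ?_ ?_
      · rw [map_sub, map_smul, map_smul, smul_eq_mul, smul_eq_mul]
        ring
      · rw [map_sub, map_smul, map_smul, smul_eq_mul, smul_eq_mul]
        linear_combination h
      · rw [sub_dotProduct, smul_dotProduct, smul_dotProduct, (mem_Ap.1 hc).2, (mem_Ap.1 hc').2]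
        simp
    have h2 := (li2_iff c c').1 (hA.li c (mem_Ap.1 hc).1 c' (mem_Ap.1 hc').1 hcc) (f0 c')
      (-f0 c) (by rw [← h1, neg_smul]; abel)
    exact hne c' hc' h2.1
  -- the slope of a chord along a line through p
  have hslope : ∀ a b c : EQ.V3, c ∈ Ap A p → ∀ s : ℂ, s ≠ 0 → vv p a b = s • c →
      f0 b / dotProduct b p - f0 a / dotProduct a p ≠ 0 ∧
      (f1 b / dotProduct b p - f1 a / dotProduct a p) /
        (f0 b / dotProduct b p - f0 a / dotProduct a p) = f1 c / f0 c := by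
    intro a b c hc s hs hsv
    refine ⟨?_, ?_⟩
    · rw [← hvv f0 a b, hsv, map_smul, smul_eq_mul]
      exact mul_ne_zero hs (hne c hc)
    · rw [← hvv f0 a b, ← hvv f1 a b, hsv, map_smul, map_smul, smul_eq_mul, smul_eq_mul,
        mul_div_mul_left _ _ hs]
  -- chords
  have hch : ∀ a ∈ Aq A p, ∀ b ∈ Aq A p, a ≠ b → ∃ c ∈ Ap A p,
      ¬ LinearIndependent ℂ ![a, c, b] ∧
      f0 b / dotProduct b p - f0 a / dotProduct a p ≠ 0 ∧
      (f1 b / dotProduct b p - f1 a / dotProduct a p) /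
        (f0 b / dotProduct b p - f0 a / dotProduct a p) = f1 c / f0 c := by
    intro a ha b hb hab
    obtain ⟨c, hc, s, hs, hsv⟩ := exists_line hA hm ha hb hab
    exact ⟨c, hc, not_li (q0 b hb) hsv, hslope a b c hc s hs hsv⟩
  have hcard : ((Ap A p).image fun c => f1 c / f0 c).card = (Ap A p).card :=
    Finset.card_image_of_injOn fun c hc c' hc' h => hinj c hc c' hc' h
  have hgsub : ∀ a, gd A p a ⊆ Ap A p := fun a => Finset.filter_subset _ _
  have hex : ∀ a : {a // a ∈ Aq A p}, ∃ c, c ∈ gd A p a.1 := fun a =>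
    Finset.card_pos.1 (hgd a.1 a.2)
  choose t ht using hex
  refine ⟨f0, f1, fun a => f1 (t a) / f0 (t a), fun a => (gd A p a.1).image fun c => f1 c / f0 c,
    (Ap A p).image fun c => f1 c / f0 c, hker, ?_, ?_, hcard, ?_⟩
  · refine ⟨?_, ?_, ?_, ?_, ?_, ?_, ?_⟩
    · rintro ⟨a, ha⟩ ⟨b, hb⟩ h
      by_contra hab
      have hab' : a ≠ b := fun h' => hab (Subtype.ext h')
      obtain ⟨c, -, -, h1, -⟩ := hch a ha b hb hab'
      exact h1 (sub_eq_zero.2 h.symm)
    · rw [hcard]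
      exact h3
    · intro a
      exact Finset.image_subset_image (hgsub a.1)
    · intro a
      exact Finset.mem_image.2 ⟨t a, ht a, rfl⟩
    · rintro ⟨a, ha⟩ ⟨b, hb⟩ hab
      have hab' : a ≠ b := fun h' => hab (Subtype.ext h')
      obtain ⟨c, hc, -, -, h1⟩ := hch a ha b hb hab'
      exact Finset.mem_image.2 ⟨c, hc, h1.symm⟩
    · rintro ⟨a, ha⟩ ⟨b, hb⟩ hab h
      have hab' : a ≠ b := fun h' => hab (Subtype.ext h')
      obtain ⟨c, hc, h2, -, h1⟩ := hch a ha b hb hab'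
      obtain ⟨c', hc', h4⟩ := Finset.mem_image.1 h
      have h5 : c = c' := hinj c hc c' (hgsub a hc') (h1.symm.trans h4.symm)
      rw [h5] at h2
      unfold gd at hc'
      exact h2 ((Finset.mem_filter.1 hc').2 b (mem_Aq.1 hb).1 (q0 b hb) hab'.symm)
    · rintro ⟨a, ha⟩ e he hne'
      obtain ⟨c, hc, rfl⟩ := Finset.mem_image.1 he
      have hcg : c ∉ gd A p a := by
        intro hcg
        exact hne' (Finset.mem_image.2 ⟨c, hcg, rfl⟩)
      have hcg' : ∃ b ∈ A, dotProduct b p ≠ 0 ∧ b ≠ a ∧ ¬ LinearIndependent ℂ ![a, c, b] := by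
        by_contra hno
        push_neg at hno
        apply hcg
        unfold gd
        exact Finset.mem_filter.2 ⟨hc, fun b hb hbp hba => hno b hb hbp hba⟩
      obtain ⟨b, hbA, hbp, hba, hli⟩ := hcg'
      have hb : b ∈ Aq A p := mem_Aq.2 ⟨hbA, hbp⟩
      have h2 := hA.li a (mem_Aq.1 ha).1 b (mem_Aq.1 hb).1 hba.symm
      have h3 : ¬ LinearIndependent ℂ ![a, b, c] := by
        intro h
        apply hli
        rw [li3_iff] at h ⊢
        intro u v w huvw
        have := h u w v (by rw [← huvw]; abel)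
        exact ⟨this.1, this.2.2, this.2.1⟩
      obtain ⟨s, hs⟩ := vv_prop (q0 a ha) (q0 b hb) (mem_Ap.1 hc).2 (hA.nz c (mem_Ap.1 hc).1)
        h2 h3
      have hs0 : s ≠ 0 := by
        rintro rfl
        exact vv_ne (q0 b hb) h2 (by rw [hs, zero_smul])
      refine ⟨⟨b, hb⟩, fun h => hba (congrArg Subtype.val h), ?_⟩
      exact (hslope a b c hc s hs0 hs).2
  · intro a
    exact Finset.card_image_of_injOn fun c hc c' hc' h => hinj c (hgsub a.1 hc) c' (hgsub a.1 hc') h
  · intro c hc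
    exact ⟨hne c hc, Finset.mem_image.2 ⟨c, hc, rfl⟩⟩

end Pool.Agent.Lib.MP_70c3c6_co.GP
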