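import Pool.Agent.Lib.MP_70c3c6_co.GP.Spec

set_option autoImplicit false

open Classical Polynomial Pointwise

namespace Pool.Agent.Lib.MP_70c3c6_co.GP

open Pool.Agent.Lib.MP_70c3c6_co.EQ
open Pool.Agent.Lib.MP_70c3c6_co.FG

theorem specDEG : SpecDEG := by
  intro ι _ x y τ M E hS hc i
  obtain ⟨R0, hR0⟩ : ∃ R0, R0 = Finset.univ.filter fun j =>
    j ≠ i ∧ ∃ l, l ≠ i ∧ l ≠ j ∧ ms x y i l = ms x y i j := ⟨_, rfl⟩
  rw [← hR0]
  have hMi : (M i).card ≤ E.card := Finset.card_le_card (hS.sub i)
  have hcard : (E \ M i).card = E.card - (M i).card := Finset.card_sdiff_of_subset (hS.sub i)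
  have hmem : ∀ j, j ≠ i → ms x y i j ∈ E \ M i := fun j hj =>
    Finset.mem_sdiff.2 ⟨hS.chord i j (Ne.symm hj), hS.tang i j (Ne.symm hj)⟩
  have hsum1 : (Finset.univ.erase i).card = ∑ e ∈ E \ M i,
      ((Finset.univ.erase i).filter (fun j => ms x y i j = e)).card :=
    Finset.card_eq_sum_card_fiberwise fun j hj =>
      hmem j (Finset.ne_of_mem_erase (Finset.mem_coe.1 hj))
  have hcardι : (Finset.univ.erase i).card + 1 = Fintype.card ι := by
    rw [Finset.card_erase_of_mem (Finset.mem_univ i), Finset.card_univ]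
    exact Nat.sub_add_cancel (Fintype.card_pos_iff.2 ⟨i⟩)
  have hsum2 : R0.card = ∑ e ∈ E \ M i, (R0.filter (fun j => ms x y i j = e)).card :=
    Finset.card_eq_sum_card_fiberwise fun j hj => by
      have hj' : j ∈ R0 := Finset.mem_coe.1 hj
      rw [hR0, Finset.mem_filter] at hj'
      exact hmem j hj'.2.1
  have hn : ∀ e ∈ E \ M i,
      1 ≤ ((Finset.univ.erase i).filter (fun j => ms x y i j = e)).card := by
    intro e he
    rw [Finset.mem_sdiff] at he
    obtain ⟨j, hj, hje⟩ := hS.cover i e he.1 he.2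
    exact Finset.card_pos.2 ⟨j, Finset.mem_filter.2
      ⟨Finset.mem_erase.2 ⟨hj, Finset.mem_univ j⟩, hje⟩⟩
  have hr2 : ∀ e, 2 ≤ ((Finset.univ.erase i).filter (fun j => ms x y i j = e)).card →
      (R0.filter (fun j => ms x y i j = e)).card =
        ((Finset.univ.erase i).filter (fun j => ms x y i j = e)).card := by
    intro e he
    congr 1
    ext j
    rw [Finset.mem_filter, Finset.mem_filter, Finset.mem_erase, hR0, Finset.mem_filter]
    constructor
    · rintro ⟨⟨h1, h2, h3⟩, h4⟩
      exact ⟨⟨h2, Finset.mem_univ j⟩, h4⟩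
    · rintro ⟨⟨h1, h2⟩, h3⟩
      refine ⟨⟨Finset.mem_univ j, h1, ?_⟩, h3⟩
      obtain ⟨l, hl, hlj⟩ := Finset.exists_mem_ne
        (s := (Finset.univ.erase i).filter (fun j => ms x y i j = e)) (by omega) j
      rw [Finset.mem_filter, Finset.mem_erase] at hl
      exact ⟨l, hl.1.1, hlj, hl.2.trans h3.symm⟩
  have hr1 : ∀ e ∈ E \ M i, (R0.filter (fun j => ms x y i j = e)).card + 2 ≤
      2 * ((Finset.univ.erase i).filter (fun j => ms x y i j = e)).card := by
    intro e he
    by_cases h : 2 ≤ ((Finset.univ.erase i).filter (fun j => ms x y i j = e)).card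
    · rw [hr2 e h]; omega
    · have h1 := hn e he
      have h2 : (R0.filter (fun j => ms x y i j = e)) = ∅ := by
        rw [Finset.eq_empty_iff_forall_notMem]
        intro j hj
        rw [Finset.mem_filter, hR0, Finset.mem_filter] at hj
        obtain ⟨⟨h3, h4, l, h5, h6, h7⟩, h8⟩ := hj
        apply h
        have h9 : 1 < ((Finset.univ.erase i).filter (fun j => ms x y i j = e)).card :=
          Finset.one_lt_card.2 ⟨j, Finset.mem_filter.2
            ⟨Finset.mem_erase.2 ⟨h4, Finset.mem_univ j⟩, h8⟩, l, Finset.mem_filter.2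
            ⟨Finset.mem_erase.2 ⟨h5, Finset.mem_univ l⟩, h7.trans h8⟩, Ne.symm h6⟩
        omega
      rw [h2, Finset.card_empty]
      omega
  have hA : R0.card + 2 * (E \ M i).card ≤ 2 * (Finset.univ.erase i).card := by
    have h1 := Finset.sum_le_sum hr1
    rw [Finset.sum_add_distrib, ← Finset.mul_sum, ← hsum1, ← hsum2, Finset.sum_const,
      smul_eq_mul] at h1
    omega
  have hB : (Finset.univ.erase i).card < (E \ M i).card + R0.card := by
    have hex : ∃ e ∈ E \ M i,
        1 < ((Finset.univ.erase i).filter (fun j => ms x y i j = e)).card := by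
      by_contra hcon
      push Not at hcon
      have h1 := Finset.sum_le_sum hcon
      rw [← hsum1, Finset.sum_const, smul_eq_mul, mul_one] at h1
      have h2 : 1 ≤ (M i).card := Finset.card_pos.2 ⟨τ i, hS.tau i⟩
      omega
    obtain ⟨e, he, he1⟩ := hex
    rw [hsum2, Finset.card_eq_sum_ones (E \ M i), ← Finset.sum_add_distrib, hsum1]
    apply Finset.sum_lt_sum
    · intro e' he'
      by_cases h : 2 ≤ ((Finset.univ.erase i).filter (fun j => ms x y i j = e')).card
      · rw [hr2 e' h]; omega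
      · omega
    · exact ⟨e, he, by rw [hr2 e (by omega)]; omega⟩
  omega

end Pool.Agent.Lib.MP_70c3c6_co.GP
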