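import Pool.Agent.Lib.MP_70c3c6_co.GP.Spec

/-!
# MP_70c3c6_co, GP: module FI2, the case of a modular point on at least half of the lines
-/

set_option autoImplicit false
open Classical

namespace Pool.Agent.Lib.MP_70c3c6_co.GP

open Pool.Agent.Lib.MP_70c3c6_co.EQ

namespace FI2M

theorem card_three {A : Finset V3} (hA : Arr A) : 3 ≤ A.card := by
  obtain ⟨a, ha, b, hb, c, hc, hli⟩ := hA.np
  have hinj := hli.injective
  have hab : a ≠ b := by
    intro h
    have : (0 : Fin 3) = 1 := hinj (by simpa using h)
    exact absurd this (by decide)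
  have hac : a ≠ c := by
    intro h
    have : (0 : Fin 3) = 2 := hinj (by simpa using h)
    exact absurd this (by decide)
  have hbc : b ≠ c := by
    intro h
    have : (1 : Fin 3) = 2 := hinj (by simpa using h)
    exact absurd this (by decide)
  have hsub : ({a, b, c} : Finset V3) ⊆ A := by
    intro z hz
    simp only [Finset.mem_insert, Finset.mem_singleton] at hz
    rcases hz with rfl | rfl | rfl
    · exact ha
    · exact hb
    · exact hc
  calc 3 = ({a, b, c} : Finset V3).card := (Finset.card_eq_three.mpr ⟨a, b, c, hab, hac, hbc, rfl⟩).symm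
    _ ≤ A.card := Finset.card_le_card hsub

end FI2M

/-- at least half of the lines through p -/
def SpecFI2 : Prop := ∀ (A : Finset V3) (p : V3), Arr A → Mod A p → A.card ≤ 2 * (Ap A p).card →
  Std A ∨ 4 * A.card ≤ 3 * (Fn A).card

theorem specFI2 (hCNB : SpecCNB) (hFWB : SpecFWB) : SpecFI2 := by
  intro A p hA hM hhalf
  obtain ⟨_, _, h2, hs, h3⟩ := hCNB A p hA hM
  have hc := FI2M.card_three hA
  by_cases hcase : (Ap A p).card = 2 ∨ (Aq A p).card < (Ap A p).card
  · right
    have := h3 hcase
    omega
  · rw [not_or] at hcase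
    have heq : (Ap A p).card = (Aq A p).card := by omega
    by_cases hlt : 3 * (Fn A).card < 8 * (Aq A p).card
    · exact Or.inl (hFWB A p hA hM (by omega) heq hlt)
    · right
      omega

end Pool.Agent.Lib.MP_70c3c6_co.GP
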