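import Pool.Agent.Lib.MP_70c3c6_co.GP.FI2

/-!
# MP_70c3c6_co, GP: module FI3, stability near the bound s - m
-/

set_option autoImplicit false
open Classical

namespace Pool.Agent.Lib.MP_70c3c6_co.GP

open Pool.Agent.Lib.MP_70c3c6_co.EQ

/-- FI3: 3 t_2 is at least 2 s - 4, or t_2 is at least (1 + 1/2000000)(s - m).
Proof: m = 2 or k < m: CNB.  k = m: FI2.  k > m at least 3: CRB, BJ, CNB, ASB. -/
def SpecFI3 : Prop := ∀ (A : Finset V3) (p : V3), Arr A → Mod A p →
  Std A ∨ 4 * A.card ≤ 3 * (Fn A).card + 8 ∨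
    2000001 * (2 * (Aq A p).card) ≤ 2000000 * (Fn A).card

theorem specFI3 (hCNB : SpecCNB) (hCRB : SpecCRB) (hBJ : SpecBJ) (hASB : SpecASB)
    (hFI2 : SpecFI2) : SpecFI3 := by
  intro A p hA hM
  obtain ⟨h1, h1', h2, hs, h3⟩ := hCNB A p hA hM
  have hc := FI2M.card_three hA
  by_cases hhalf : A.card ≤ 2 * (Ap A p).card
  · rcases hFI2 A p hA hM hhalf with h | h
    · exact Or.inl h
    · right; left; omega
  by_cases hm2 : (Ap A p).card = 2
  · have := h3 (Or.inl hm2)
    right; left; omega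
  have hm3 : 3 ≤ (Ap A p).card := by omega
  right
  obtain ⟨f0, f1, τ, M, E, hker, hS, hMc, hEc, hcE⟩ := hCRB A p hA hM hm3
  obtain ⟨hb, hsum, _⟩ := hBJ _ _ _ τ M E hS
  have hcard : Fintype.card {a // a ∈ Aq A p} = (Aq A p).card := Fintype.card_coe _
  have hsum2 : ∑ a ∈ Aq A p, (gd A p a).card = (Aq A p).card + JJ M := by
    rw [← hcard, ← hsum, ← Finset.sum_coe_sort (Aq A p)]
    exact Finset.sum_congr rfl fun a _ => (hMc a).symm
  rw [hsum2] at h1
  have hlt : E.card < Fintype.card {a // a ∈ Aq A p} := by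
    rw [hEc, hcard]; omega
  rcases hASB _ _ _ τ M E hS hlt with h | h
  · right
    rw [hcard] at h
    omega
  · left
    rw [hcard, hEc] at h
    omega

end Pool.Agent.Lib.MP_70c3c6_co.GP
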