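import Pool.Agent.Lib.MP_70c3c6_co.GP.Spec3
import Pool.Agent.Lib.MP_70c3c6_co.GP.FI2

/-!
# MP_70c3c6_co, GP: module FI6, the structure of the near extremal arrangements
-/

set_option autoImplicit false
open Classical

namespace Pool.Agent.Lib.MP_70c3c6_co.GP

open Pool.Agent.Lib.MP_70c3c6_co.EQ

namespace FI6M

/-- a linear functional on V3 is a dot product -/
theorem func (f : V3 →ₗ[ℂ] ℂ) : ∃ q : V3, ∀ v : V3, dotProduct v q = f v := by
  refine ⟨fun n => f (Pi.single n 1), fun v => ?_⟩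
  have h1 : v = ∑ n, v n • (Pi.single n (1 : ℂ) : V3) := by
    ext m
    simp [Finset.sum_apply, Pi.single_apply]
  conv_rhs => rw [h1]
  rw [map_sum]
  unfold dotProduct
  refine Finset.sum_congr rfl fun n _ => ?_
  rw [map_smul, smul_eq_mul]

/-- the functional given by `p` -/
def pf (p : V3) : V3 →ₗ[ℂ] ℂ where
  toFun w := dotProduct w p
  map_add' u v := add_dotProduct u v p
  map_smul' c u := by
    simp only [RingHom.id_apply]
    exact smul_dotProduct c u p

theorem pf_apply (p w : V3) : pf p w = dotProduct w p := rfl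

/-- the point of a class -/
theorem pt {A : Finset V3} {p : V3} {f0 f1 : V3 →ₗ[ℂ] ℂ}
    (hker : ∀ w : V3, f0 w = 0 → f1 w = 0 → dotProduct w p = 0 → w = 0) (S : Finset V3)
    (hS : ∀ a ∈ S, a ∈ Aq A p) (w : ℂ)
    (hms : ∀ a ∈ S, ∀ b ∈ S, a ≠ b → f0 b / dotProduct b p ≠ f0 a / dotProduct a p ∧
      (f1 b / dotProduct b p - f1 a / dotProduct a p) /
        (f0 b / dotProduct b p - f0 a / dotProduct a p) = w) :
    ∃ q : V3, q ≠ 0 ∧ ∀ a ∈ S, dotProduct a q = 0 := by
  obtain ⟨h, hh⟩ : ∃ h : ℂ, ∀ a ∈ S, f1 a / dotProduct a p = w * (f0 a / dotProduct a p) + h := by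
    rcases S.eq_empty_or_nonempty with h0 | ⟨a0, ha0⟩
    · exact ⟨0, fun a ha => absurd ha (by rw [h0]; exact Finset.notMem_empty a)⟩
    · refine ⟨f1 a0 / dotProduct a0 p - w * (f0 a0 / dotProduct a0 p), fun a ha => ?_⟩
      by_cases haa : a = a0
      · rw [haa]; ring
      · obtain ⟨h1, h2⟩ := hms a0 ha0 a ha (Ne.symm haa)
        rw [div_eq_iff (sub_ne_zero.2 h1)] at h2
        linear_combination h2
  obtain ⟨q, hq⟩ := func (f1 - w • f0 - h • pf p)
  refine ⟨q, ?_, ?_⟩
  · intro h0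
    -- otherwise f1 = w f0 + h p
    have hz : ∀ v : V3, f1 v - w * f0 v - h * dotProduct v p = 0 := by
      intro v
      have := hq v
      rw [h0, dotProduct_zero] at this
      simpa [pf_apply] using this.symm
    -- the two functionals f0, p have a common zero
    obtain ⟨v, hv0, hv1, hv2⟩ : ∃ v : V3, v ≠ 0 ∧ f0 v = 0 ∧ dotProduct v p = 0 := by
      let F : V3 →ₗ[ℂ] (Fin 2 → ℂ) := LinearMap.pi ![f0, pf p]
      have hdim : Module.finrank ℂ (Fin 2 → ℂ) < Module.finrank ℂ V3 := by simp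
      have hk : LinearMap.ker F ≠ ⊥ := LinearMap.ker_ne_bot_of_finrank_lt hdim
      obtain ⟨v, hv, hv0⟩ := Submodule.exists_mem_ne_zero_of_ne_bot hk
      have h1 : F v = 0 := hv
      refine ⟨v, hv0, ?_, ?_⟩
      · have := congrFun h1 0
        simpa [F] using this
      · have := congrFun h1 1
        simpa [F, pf_apply] using this
    have h3 := hz v
    rw [hv1, hv2, mul_zero, mul_zero, sub_zero, sub_zero] at h3
    exact hv0 (hker v hv1 h3 hv2)
  · intro a ha
    have hap : dotProduct a p ≠ 0 := (Finset.mem_filter.mp (hS a ha)).2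
    rw [hq a]
    have h1 := hh a ha
    have e0 : dotProduct a p * (f0 a / dotProduct a p) = f0 a := mul_div_cancel₀ _ hap
    have e1 : dotProduct a p * (f1 a / dotProduct a p) = f1 a := mul_div_cancel₀ _ hap
    show f1 a - w * f0 a - h * dotProduct a p = 0
    linear_combination dotProduct a p * h1 - e1 + w * e0

end FI6M

/-- FI6: structure of the near extremal arrangements -/
def SpecFI6 : Prop := ∀ (A : Finset V3) (p : V3), Arr A → Mod A p → 3 ≤ (Ap A p).card →
  2 * (Ap A p).card < A.card → 7076 * (2 * (Aq A p).card) ≤ 7075 * (Fn A).card ∨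
    (4 * A.card ≤ 3 * (Fn A).card + 8 ∧ ∃ q q' : V3, q ≠ 0 ∧ q' ≠ 0 ∧
      2 * ((Aq A p).filter fun a => dotProduct a q ≠ 0 ∧ dotProduct a q' ≠ 0).card +
        2 * (Aq A p).card ≤ (Fn A).card)

open FI6M in
theorem specFI6 (hCNB : SpecCNB) (hCRB : SpecCRB) (hBJ : SpecBJ) (hAS3 : SpecAS3) : SpecFI6 := by
  intro A p hA hM hm3 hlt0
  obtain ⟨h1, h1', h2, hs, h3⟩ := hCNB A p hA hM
  obtain ⟨f0, f1, τ, M, E, hker, hS, hMc, hEc, hcE⟩ := hCRB A p hA hM hm3
  obtain ⟨hb, hsum, _⟩ := hBJ _ _ _ τ M E hS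
  have hcard : Fintype.card {a // a ∈ Aq A p} = (Aq A p).card := Fintype.card_coe _
  have hsum2 : ∑ a ∈ Aq A p, (gd A p a).card = (Aq A p).card + JJ M := by
    rw [← hcard, ← hsum, ← Finset.sum_coe_sort (Aq A p)]
    exact Finset.sum_congr rfl fun a _ => (hMc a).symm
  rw [hsum2] at h1
  have hlt : E.card < Fintype.card {a // a ∈ Aq A p} := by
    rw [hEc, hcard]; omega
  rcases hAS3 _ _ _ τ M E hS hlt with h | ⟨h, t, w, htw, hall, hct, hcw⟩
  · left
    rw [hcard] at h
    omega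
  · right
    rw [hcard, hEc] at h
    refine ⟨by omega, ?_⟩
    -- the lines of the class of s
    have key : ∀ s w' : ℂ, (∀ i j : {a // a ∈ Aq A p}, i ≠ j → (M i).card = 1 → (M j).card = 1 →
        τ i = s → τ j = s → ms (fun a : {a // a ∈ Aq A p} => f0 a.1 / dotProduct a.1 p)
          (fun a : {a // a ∈ Aq A p} => f1 a.1 / dotProduct a.1 p) i j = w') →
        ∃ q : V3, q ≠ 0 ∧ ∀ i : {a // a ∈ Aq A p}, (M i).card = 1 → τ i = s →
          dotProduct i.1 q = 0 := by
      intro s w' hc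
      obtain ⟨q, hq0, hq⟩ := pt (A := A) (p := p) hker
        ((Finset.univ.filter fun i : {a // a ∈ Aq A p} => (M i).card = 1 ∧ τ i = s).image
          Subtype.val)
        (by
          intro a ha
          obtain ⟨i, _, rfl⟩ := Finset.mem_image.1 ha
          exact i.2) w'
        (by
          intro a ha b hb hab
          obtain ⟨i, hi, rfl⟩ := Finset.mem_image.1 ha
          obtain ⟨j, hj, rfl⟩ := Finset.mem_image.1 hb
          obtain ⟨_, hi1, hi2⟩ := Finset.mem_filter.1 hi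
          obtain ⟨_, hj1, hj2⟩ := Finset.mem_filter.1 hj
          have hij : i ≠ j := fun h => hab (by rw [h])
          exact ⟨fun h => hij (hS.inj h).symm, hc i j hij hi1 hj1 hi2 hj2⟩)
      refine ⟨q, hq0, fun i hi1 hi2 => hq i.1 ?_⟩
      exact Finset.mem_image.2 ⟨i, Finset.mem_filter.2 ⟨Finset.mem_univ _, hi1, hi2⟩, rfl⟩
    obtain ⟨q, hq0, hq⟩ := key t w hct
    obtain ⟨q', hq0', hq'⟩ := key w t hcw
    refine ⟨q, q', hq0, hq0', ?_⟩
    have hle : ((Aq A p).filter fun a => dotProduct a q ≠ 0 ∧ dotProduct a q' ≠ 0).card ≤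
        (Bd M).card := by
      have hsub : ((Aq A p).filter fun a => dotProduct a q ≠ 0 ∧ dotProduct a q' ≠ 0) ⊆
          (Bd M).image Subtype.val := by
        intro a ha
        obtain ⟨ha1, ha2, ha3⟩ := Finset.mem_filter.1 ha
        refine Finset.mem_image.2 ⟨⟨a, ha1⟩, ?_, rfl⟩
        refine Finset.mem_filter.2 ⟨Finset.mem_univ _, fun hgood => ?_⟩
        rcases hall ⟨a, ha1⟩ hgood with h4 | h4
        · exact ha2 (hq ⟨a, ha1⟩ hgood h4)
        · exact ha3 (hq' ⟨a, ha1⟩ hgood h4)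
      exact (Finset.card_le_card hsub).trans Finset.card_image_le
    omega

end Pool.Agent.Lib.MP_70c3c6_co.GP
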