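import Pool.Agent.Lib.MP_70c3c6_co.GP.Spec

/-!
# MP_70c3c6_co, GP: module FIN (the gap theorem)
-/

set_option autoImplicit false
open Classical Polynomial Pointwise

namespace Pool.Agent.Lib.MP_70c3c6_co.GP

open Pool.Agent.Lib.MP_70c3c6_co.EQ
open Pool.Agent.Lib.MP_70c3c6_co.FG

namespace FINM

theorem three_le {A : Finset V3} (h : Arr A) : 3 ≤ A.card := by
  obtain ⟨a, ha, b, hb, c, hc, hli⟩ := h.np
  have hi := hli.injective
  refine Finset.two_lt_card.2 ⟨a, ha, b, hb, c, hc, ?_, ?_, ?_⟩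
  · intro hab
    have h1 : (![a, b, c] : Fin 3 → V3) 0 = ![a, b, c] 1 := hab
    exact absurd (hi h1) (by decide)
  · intro hac
    have h1 : (![a, b, c] : Fin 3 → V3) 0 = ![a, b, c] 2 := hac
    exact absurd (hi h1) (by decide)
  · intro hbc
    have h1 : (![a, b, c] : Fin 3 → V3) 1 = ![a, b, c] 2 := hbc
    exact absurd (hi h1) (by decide)

end FINM

theorem specFIN (hCNB : SpecCNB) (hCRB : SpecCRB) (hBJ : SpecBJ) (hASB : SpecASB)
    (hFWB : SpecFWB) : SpecFIN := by
  intro A p hA hM
  have h3 := FINM.three_le hA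
  obtain ⟨c1, _, c3, c4, c5⟩ := hCNB A p hA hM
  by_cases hc : (Ap A p).card = 2 ∨ (Aq A p).card < (Ap A p).card
  · have h5 := c5 hc
    right
    omega
  · rw [not_or] at hc
    obtain ⟨hc1, hc2⟩ := hc
    have hm : 3 ≤ (Ap A p).card := by omega
    by_cases hk : (Ap A p).card = (Aq A p).card
    · by_cases hF : 3 * (Fn A).card < 8 * (Aq A p).card
      · exact Or.inl (hFWB A p hA hM hm hk hF)
      · right
        omega
    · have hlt : (Ap A p).card < (Aq A p).card := by omega
      obtain ⟨f0, f1, τ, M, E, _, hS, hcard, hE, _⟩ := hCRB A p hA hM hm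
      have hι : Fintype.card {a // a ∈ Aq A p} = (Aq A p).card := Fintype.card_coe _
      obtain ⟨_, hJ, _⟩ := hBJ _ _ _ _ _ _ hS
      have hs : ∑ a ∈ Aq A p, (gd A p a).card = ∑ i : {a // a ∈ Aq A p}, (M i).card := by
        rw [← Finset.sum_coe_sort (Aq A p) (fun a => (gd A p a).card)]
        exact Finset.sum_congr rfl fun i _ => (hcard i).symm
      rw [hs, hJ] at c1
      rw [hι] at c1
      have hlt' : E.card < Fintype.card {a // a ∈ Aq A p} := by
        rw [hι, hE]
        exact hlt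
      right
      rcases hASB _ _ _ _ _ _ hS hlt' with h6 | h6
      · rw [hι] at h6
        omega
      · rw [hι, hE] at h6
        omega

end Pool.Agent.Lib.MP_70c3c6_co.GP
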