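import Pool.Agent.Lib.MP_70c3c6_co.GP.Spec

/-!
MP_70c3c6_co, GAP THEOREM, FWB: the case k = m.
-/

set_option autoImplicit false
open Classical Polynomial Pointwise

namespace Pool.Agent.Lib.MP_70c3c6_co.GP

open Pool.Agent.Lib.MP_70c3c6_co.EQ
open Pool.Agent.Lib.MP_70c3c6_co.FG

namespace FWBM

/-- the functional given by `p` -/
def pf (p : V3) : V3 →ₗ[ℂ] ℂ where
  toFun w := dotProduct w p
  map_add' u v := add_dotProduct u v p
  map_smul' c u := by
    simp only [RingHom.id_apply]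
    exact smul_dotProduct c u p

theorem pf_apply (p w : V3) : pf p w = dotProduct w p := rfl

/-- the coordinate map -/
noncomputable def mp (p : V3) (f0 f1 : V3 →ₗ[ℂ] ℂ) (a1 b1 c1 a2 b2 c2 : ℂ) : V3 →ₗ[ℂ] V3 :=
  LinearMap.pi ![a1 • f0 + b1 • f1 + c1 • pf p, a2 • f0 + b2 • f1 + c2 • pf p, pf p]

theorem mp_apply (p : V3) (f0 f1 : V3 →ₗ[ℂ] ℂ) (a1 b1 c1 a2 b2 c2 : ℂ) (w : V3) :
    mp p f0 f1 a1 b1 c1 a2 b2 c2 w = ![a1 * f0 w + b1 * f1 w + c1 * dotProduct w p,
      a2 * f0 w + b2 * f1 w + c2 * dotProduct w p, dotProduct w p] := by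
  ext i
  fin_cases i
  · simp [mp, pf_apply]
  · simp [mp, pf_apply]
  · simp [mp, pf_apply]

/-- the number of the good points -/
theorem card_good {ι : Type} [Fintype ι] (M : ι → Finset ℂ) :
    Fintype.card {i : ι // (M i).card = 1} + (Bd M).card = Fintype.card ι := by
  rw [Fintype.card_subtype, Bd, ← Finset.card_univ]
  exact Finset.card_filter_add_card_filter_not (s := Finset.univ) (fun i => (M i).card = 1)

/-- the analytic part -/
theorem concl (hPRB : SpecPRB) (hSLB : SpecSLB) (hCOB : SpecCOB) (hPAB : SpecPAB)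
    (hHYB : SpecHYB) {ι : Type} [Fintype ι] (x y τ : ι → ℂ) (M : ι → Finset ℂ) (E : Finset ℂ)
    (S : SysB x y τ M E) (hc : E.card = Fintype.card ι) (h3 : 3 ≤ Fintype.card ι)
    (hb : 3 * (Bd M).card < Fintype.card ι) : Concl x y E := by
  obtain ⟨g, hg, hgg⟩ := hSLB ι x y τ M E S hc
  have hgood := card_good M
  obtain ⟨a1, b1, c1, a2, b2, c2, N, h⟩ := hCOB {i : ι // (M i).card = 1}
    (fun i => x i.1) (fun i => y i.1) (fun i => τ i.1) (fun i => g i.1) (by omega)
    (fun i j hij => Subtype.ext (S.inj hij)) (fun i => hg i.1)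
    (fun i j => hgg i.1 j.1 i.2 j.2)
    (by
      intro i j hij he
      have h1 := S.tang i.1 j.1 (fun h => hij (Subtype.ext h))
      apply h1
      have h2 : ms x y i.1 j.1 = τ i.1 := he
      rw [h2]
      exact S.tau i.1)
    (by
      intro i j l hji hli hjl he
      have h1 := (hPRB ι x y τ M E S hc i.1 i.2).2.2
      have h2 : ms x y i.1 j.1 = ms x y i.1 l.1 := he
      have h3 : j.1 = l.1 := h1
        (Finset.mem_coe.mpr (Finset.mem_erase.mpr ⟨fun h => hji (Subtype.ext h),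
          Finset.mem_univ _⟩))
        (Finset.mem_coe.mpr (Finset.mem_erase.mpr ⟨fun h => hli (Subtype.ext h),
          Finset.mem_univ _⟩)) h2
      exact hjl (Subtype.ext h3))
  rcases h with h | h
  · exact hHYB ι x y τ M E S hc hb a1 b1 c1 a2 b2 c2 N h
  · exact absurd h (hPAB ι x y τ M E S hc hb a1 b1 c1 a2 b2 c2)

end FWBM

open FWBM in
theorem specFWB (hCNB : SpecCNB) (hCRB : SpecCRB) (hBJ : SpecBJ) (hPRB : SpecPRB)
    (hSLB : SpecSLB) (hCOB : SpecCOB) (hPAB : SpecPAB) (hHYB : SpecHYB) : SpecFWB := by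
  intro A p hA hM hm hmk hFn
  obtain ⟨hC1, hC2, hC3, hC4, hC5⟩ := hCNB A p hA hM
  obtain ⟨f0, f1, τ, M, E, hker, S, hMc, hEc, hcE⟩ := hCRB A p hA hM hm
  have hcard : Fintype.card {a // a ∈ Aq A p} = (Aq A p).card := Fintype.card_coe _
  obtain ⟨hJ1, hJ2, hJ3⟩ := hBJ _ _ _ _ _ _ S
  have hsum : ∑ a ∈ Aq A p, (gd A p a).card = ∑ i : {a // a ∈ Aq A p}, (M i).card := by
    rw [Finset.sum_congr rfl (fun i _ => hMc i), ← Finset.sum_attach (Aq A p)]
    rfl
  have hb : 3 * (Bd M).card < Fintype.card {a // a ∈ Aq A p} := by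
    rw [hsum, hJ2] at hC1
    omega
  obtain ⟨a1, b1, c1, a2, b2, c2, hdet, hpt, hdir⟩ := concl hPRB hSLB hCOB hPAB hHYB
    (fun a : {a // a ∈ Aq A p} => f0 a.1 / dotProduct a.1 p)
    (fun a => f1 a.1 / dotProduct a.1 p) τ M E S (by rw [hEc, hmk, hcard])
    (by rw [hcard]; omega) hb
  have hinj : Function.Injective (mp p f0 f1 a1 b1 c1 a2 b2 c2) := by
    rw [← LinearMap.ker_eq_bot, LinearMap.ker_eq_bot']
    intro w hw
    rw [mp_apply] at hw
    have e0 := congrFun hw 0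
    have e1 := congrFun hw 1
    have e2 := congrFun hw 2
    have e0' : a1 * f0 w + b1 * f1 w + c1 * dotProduct w p = 0 := e0
    have e1' : a2 * f0 w + b2 * f1 w + c2 * dotProduct w p = 0 := e1
    have e2' : dotProduct w p = 0 := e2
    rw [e2', mul_zero, add_zero] at e0' e1'
    refine hker w ?_ ?_ e2'
    · refine (mul_eq_zero.mp (?_ : (a1 * b2 - a2 * b1) * f0 w = 0)).resolve_left hdet
      linear_combination b2 * e0' - b1 * e1'
    · refine (mul_eq_zero.mp (?_ : (a1 * b2 - a2 * b1) * f1 w = 0)).resolve_left hdet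
      linear_combination a1 * e1' - a2 * e0'
  refine ⟨(Aq A p).card, by omega, by omega, LinearEquiv.ofInjectiveEndo _ hinj, ?_⟩
  intro a ha
  have hMa : (LinearEquiv.ofInjectiveEndo _ hinj) a = mp p f0 f1 a1 b1 c1 a2 b2 c2 a := rfl
  rw [hMa, mp_apply]
  by_cases hap : dotProduct a p = 0
  · obtain ⟨hc0, hcE'⟩ := hcE a (Finset.mem_filter.mpr ⟨ha, hap⟩)
    obtain ⟨ω, hω, h1⟩ := hdir _ hcE'
    rw [hcard] at hω
    have h2 : a1 + b1 * (f1 a / f0 a) ≠ 0 := by
      intro h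
      rw [h, mul_zero] at h1
      apply hdet
      linear_combination b2 * h - b1 * h1
    refine ⟨ω, hω, f0 a * (a1 + b1 * (f1 a / f0 a)), mul_ne_zero hc0 h2, Or.inr ?_⟩
    have h3 : f0 a * (f1 a / f0 a) = f1 a := mul_div_cancel₀ _ hc0
    ext i
    fin_cases i
    · show a1 * f0 a + b1 * f1 a + c1 * dotProduct a p =
        f0 a * (a1 + b1 * (f1 a / f0 a)) * 1
      rw [hap]
      linear_combination (-b1) * h3
    · show a2 * f0 a + b2 * f1 a + c2 * dotProduct a p =
        f0 a * (a1 + b1 * (f1 a / f0 a)) * (-ω)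
      rw [hap]
      linear_combination (-b2) * h3 + f0 a * h1
    · show dotProduct a p = f0 a * (a1 + b1 * (f1 a / f0 a)) * 0
      rw [hap, mul_zero]
  · obtain ⟨ζ, hζ, h1, h2⟩ := hpt ⟨a, Finset.mem_filter.mpr ⟨ha, hap⟩⟩
    rw [hcard] at hζ
    have h1' : a1 * (f0 a / dotProduct a p) + b1 * (f1 a / dotProduct a p) + c1 = ζ := h1
    have h2' : a2 * (f0 a / dotProduct a p) + b2 * (f1 a / dotProduct a p) + c2 = ζ⁻¹ := h2
    have e0 : dotProduct a p * (f0 a / dotProduct a p) = f0 a := mul_div_cancel₀ _ hap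
    have e1 : dotProduct a p * (f1 a / dotProduct a p) = f1 a := mul_div_cancel₀ _ hap
    refine ⟨ζ, hζ, dotProduct a p, hap, Or.inl ?_⟩
    ext i
    fin_cases i
    · show a1 * f0 a + b1 * f1 a + c1 * dotProduct a p = dotProduct a p * ζ
      linear_combination dotProduct a p * h1' - a1 * e0 - b1 * e1
    · show a2 * f0 a + b2 * f1 a + c2 * dotProduct a p = dotProduct a p * ζ⁻¹
      linear_combination dotProduct a p * h2' - a2 * e0 - b2 * e1
    · show dotProduct a p = dotProduct a p * 1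
      rw [mul_one]

end Pool.Agent.Lib.MP_70c3c6_co.GP
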