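import Pool.Agent.Lib.MP_70c3c6_co.GP.Spec

/-!
# Module GPH: the group of the hyperbola.
-/

set_option autoImplicit false
open Classical Polynomial Pointwise

namespace Pool.Agent.Lib.MP_70c3c6_co.GP

open Pool.Agent.Lib.MP_70c3c6_co.EQ
open Pool.Agent.Lib.MP_70c3c6_co.FG

namespace GPHM

theorem prod_mem {Gp : Type} [CommGroup Gp] (A : Finset Gp) (H : Subgroup Gp)
    [Fintype H] (u0 : Gp) (hA : ∀ a ∈ A, u0⁻¹ * a ∈ H) (hc : Fintype.card H < 2 * A.card)
    (z : Gp) (hz : z ∈ H) : ∃ a ∈ A, ∃ b ∈ A, a * b = u0 ^ 2 * z := by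
  obtain ⟨C, hCe⟩ : ∃ C : Finset Gp,
      C = (Finset.univ : Finset H).image (fun h : H => u0 * (h : Gp)) := ⟨_, rfl⟩
  have hC : C.card ≤ Fintype.card H := by
    rw [hCe]
    exact Finset.card_image_le
  obtain ⟨A', hA'⟩ : ∃ A' : Finset Gp, A' = A.image (fun a => u0 ^ 2 * z * a⁻¹) := ⟨_, rfl⟩
  have h1 : A ⊆ C := by
    intro a ha
    rw [hCe]
    exact Finset.mem_image.mpr ⟨⟨u0⁻¹ * a, hA a ha⟩, Finset.mem_univ _, by simp⟩
  have h2 : A' ⊆ C := by
    intro b hb
    rw [hA'] at hb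
    rw [hCe]
    obtain ⟨a, ha, rfl⟩ := Finset.mem_image.mp hb
    refine Finset.mem_image.mpr ⟨⟨z * (u0⁻¹ * a)⁻¹, H.mul_mem hz (H.inv_mem (hA a ha))⟩,
      Finset.mem_univ _, ?_⟩
    show u0 * (z * (u0⁻¹ * a)⁻¹) = u0 ^ 2 * z * a⁻¹
    rw [mul_inv, inv_inv, pow_two]
    ac_rfl
  have h3 : A'.card = A.card := by
    rw [hA']
    exact Finset.card_image_of_injective _ (fun a b h => by simpa using h)
  obtain ⟨b, hb⟩ := Finset.inter_nonempty_of_card_lt_card_add_card h1 h2 (by omega)
  rw [Finset.mem_inter] at hb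
  have hb2 := hb.2
  rw [hA'] at hb2
  obtain ⟨a, ha, hab⟩ := Finset.mem_image.mp hb2
  exact ⟨b, hb.1, a, ha, by rw [← hab]; simp⟩

end GPHM

theorem specGPH (_hPRB : SpecPRB) : SpecGPH := by
  intro ι _ x y τ M E H hE hb a1 b1 c1 a2 b2 c2 N hH
  obtain ⟨hdet, hN, huv, htan⟩ := hH
  obtain ⟨G, hG⟩ : ∃ G : Finset ι, G = Finset.univ.filter fun i => (M i).card = 1 := ⟨_, rfl⟩
  have hGc : G.card + (Bd M).card = Fintype.card ι := by
    rw [hG, Bd]
    exact Finset.card_filter_add_card_filter_not _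
  have memG : ∀ i, i ∈ G ↔ (M i).card = 1 := by
    intro i
    rw [hG, Finset.mem_filter]
    exact ⟨fun h => h.2, fun h => ⟨Finset.mem_univ _, h⟩⟩
  obtain ⟨u, hu⟩ : ∃ u : ι → ℂ, ∀ i, u i = a1 * x i + b1 * y i + c1 := ⟨_, fun _ => rfl⟩
  obtain ⟨v, hv⟩ : ∃ v : ι → ℂ, ∀ i, v i = a2 * x i + b2 * y i + c2 := ⟨_, fun _ => rfl⟩
  have huv' : ∀ i, (M i).card = 1 → u i * v i = N := by
    intro i hi
    rw [hu, hv]
    exact huv ⟨i, hi⟩
  have ht' : ∀ i, (M i).card = 1 → u i * (a2 + b2 * τ i) + v i * (a1 + b1 * τ i) = 0 := by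
    intro i hi
    rw [hu, hv]
    exact htan ⟨i, hi⟩
  have hu0 : ∀ i, (M i).card = 1 → u i ≠ 0 := by
    intro i hi h0
    have := huv' i hi
    rw [h0, zero_mul] at this
    exact hN this.symm
  have uinj : ∀ i j, (M i).card = 1 → (M j).card = 1 → u i = u j → i = j := by
    intro i j hi hj h
    have h1 : v i = v j := by
      have h1 := huv' i hi
      have h2 := huv' j hj
      rw [h] at h1
      exact mul_left_cancel₀ (hu0 j hj) (h1.trans h2.symm)
    apply H.inj
    rw [hu, hu] at h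
    rw [hv, hv] at h1
    have e3 : (a1 * b2 - a2 * b1) * (x i - x j) = 0 := by
      linear_combination b2 * h - b1 * h1
    exact sub_eq_zero.mp ((mul_eq_zero.mp e3).resolve_left hdet)
  -- the products
  have star : ∀ i j, (M i).card = 1 → (M j).card = 1 →
      ∃ e ∈ E, u i * u j * (a2 + b2 * e) = -N * (a1 + b1 * e) := by
    intro i j hi hj
    by_cases hij : i = j
    · subst hij
      refine ⟨τ i, H.sub i (H.tau i), ?_⟩
      have h1 := ht' i hi
      have h2 := huv' i hi
      linear_combination u i * h1 - (a1 + b1 * τ i) * h2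
    · refine ⟨ms x y i j, H.chord i j hij, ?_⟩
      have hx : x j - x i ≠ 0 := fun h => hij (H.inj (sub_eq_zero.mp h).symm)
      have hm : (x j - x i) * ms x y i j = y j - y i := by
        rw [ms]
        field_simp
      have h1 := huv' i hi
      have h2 := huv' j hj
      have e1 : u j - u i = (x j - x i) * (a1 + b1 * ms x y i j) := by
        rw [hu, hu]
        linear_combination -b1 * hm
      have e2 : v j - v i = (x j - x i) * (a2 + b2 * ms x y i j) := by
        rw [hv, hv]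
        linear_combination -b2 * hm
      apply mul_left_cancel₀ hx
      have e3 : (x j - x i) * (u i * u j * (a2 + b2 * ms x y i j)) = u i * u j * (v j - v i) := by
        rw [e2]
        ring
      have e4 : (x j - x i) * (-N * (a1 + b1 * ms x y i j)) = -N * (u j - u i) := by
        rw [e1]
        ring
      rw [e3, e4]
      linear_combination u i * h2 - u j * h1
  -- the units
  obtain ⟨U, hU⟩ : ∃ U : ι → ℂˣ, ∀ i, (M i).card = 1 → (U i : ℂ) = u i := by
    refine ⟨fun i => if h : u i ≠ 0 then Units.mk0 (u i) h else 1, ?_⟩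
    intro i hi
    simp [hu0 i hi]
  obtain ⟨A, hA⟩ : ∃ A : Finset ℂˣ, A = G.image U := ⟨_, rfl⟩
  have hAc : A.card = G.card := by
    rw [hA]
    apply Finset.card_image_of_injOn
    intro i hi j hj hij
    have hi' := (memG i).1 hi
    have hj' := (memG j).1 hj
    apply uinj i j hi' hj'
    rw [← hU i hi', ← hU j hj']
    exact congrArg _ hij
  have starA : ∀ w ∈ A * A, ∃ e ∈ E, (w : ℂ) * (a2 + b2 * e) = -N * (a1 + b1 * e) := by
    intro w hw
    obtain ⟨p, hp, q, hq, rfl⟩ := Finset.mem_mul.mp hw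
    rw [hA] at hp hq
    obtain ⟨i, hi, rfl⟩ := Finset.mem_image.mp hp
    obtain ⟨j, hj, rfl⟩ := Finset.mem_image.mp hq
    have hi' := (memG i).1 hi
    have hj' := (memG j).1 hj
    obtain ⟨e, he, h⟩ := star i j hi' hj'
    refine ⟨e, he, ?_⟩
    rw [Units.val_mul, hU i hi', hU j hj']
    exact h
  choose! f hfE hf using starA
  have hAA : (A * A).card ≤ Fintype.card ι := by
    rw [← hE]
    apply Finset.card_le_card_of_injOn f hfE
    intro w hw w' hw' hww
    have h1 := hf w hw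
    have h2 := hf w' hw'
    rw [← hww] at h2
    have h3 : ((w : ℂ) - w') * (a2 + b2 * f w) = 0 := by linear_combination h1 - h2
    rcases mul_eq_zero.mp h3 with h | h
    · exact Units.ext (sub_eq_zero.mp h)
    · exfalso
      rw [h, mul_zero] at h1
      have h4 : a1 + b1 * f w = 0 := by
        rcases mul_eq_zero.mp h1.symm with h' | h'
        · exact absurd (neg_eq_zero.mp h') hN
        · exact h'
      apply hdet
      linear_combination b2 * h4 - b1 * h
  have hdbl : (((A * A).card : ℕ) : ℚ) < (3 / 2 : ℚ) * (A.card : ℚ) := by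
    have h1 : 2 * (A * A).card < 3 * A.card := by omega
    have h2 : (2 : ℚ) * ((A * A).card : ℚ) < 3 * (A.card : ℚ) := by exact_mod_cast h1
    linarith
  obtain ⟨Hs, hHf, hHc, hHa⟩ := Finset.doubling_lt_three_halves hdbl
  have hApos : 0 < A.card := by omega
  obtain ⟨w0, hw0⟩ := Finset.card_pos.mp hApos
  have hsub : ∀ a ∈ A, w0⁻¹ * a ∈ Hs := by
    intro a ha
    have h1 := (hHa w0 hw0).1 (Finset.mem_coe.mpr ha)
    rw [Set.mem_smul_set_iff_inv_smul_mem] at h1
    exact h1
  have hc2 : Fintype.card Hs < 2 * A.card := by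
    have h1 : (Fintype.card Hs : ℚ) < (2 : ℚ) * (A.card : ℚ) := by
      have h2 : (0 : ℚ) < (A.card : ℚ) := by exact_mod_cast hApos
      linarith
    exact_mod_cast h1
  have hprod := GPHM.prod_mem A Hs w0 hsub hc2
  have hn1 : 1 ≤ Fintype.card Hs := Fintype.card_pos
  have hnk : Fintype.card Hs ≤ Fintype.card ι := by
    refine le_trans ?_ hAA
    have h1 : Fintype.card Hs = ((Finset.univ : Finset Hs).image
        (fun h : Hs => w0 ^ 2 * (h : ℂˣ))).card := by
      rw [Finset.card_image_of_injective _ (fun a b h => Subtype.ext (mul_left_cancel h))]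
      rfl
    rw [h1]
    apply Finset.card_le_card
    intro w hw
    obtain ⟨h, -, rfl⟩ := Finset.mem_image.mp hw
    obtain ⟨a, ha, b, hb, hab⟩ := hprod h h.2
    rw [← hab]
    exact Finset.mul_mem_mul ha hb
  have hpow : ∀ z ∈ Hs, z ^ Fintype.card Hs = 1 := by
    intro z hz
    have h1 : (⟨z, hz⟩ : Hs) ^ Fintype.card Hs = 1 := pow_card_eq_one
    exact congrArg Subtype.val h1
  refine ⟨Fintype.card Hs, (w0 : ℂ), w0.ne_zero, hn1, hnk, ?_, ?_⟩
  · intro i hi
    have h1 : U i ∈ A := by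
      rw [hA]
      exact Finset.mem_image.mpr ⟨i, (memG i).2 hi, rfl⟩
    have h2 := hpow _ (hsub _ h1)
    rw [mul_pow, inv_pow, inv_mul_eq_one] at h2
    rw [← hu i, ← hU i hi, ← Units.val_pow_eq_pow_val, ← Units.val_pow_eq_pow_val, h2]
  · intro z hz
    have hz0 : z ≠ 0 := by
      intro h
      rw [h, zero_pow (by omega)] at hz
      exact zero_ne_one hz
    haveI : NeZero (Fintype.card Hs) := ⟨by omega⟩
    have hle : Hs ≤ rootsOfUnity (Fintype.card Hs) ℂ := by
      intro w hw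
      rw [mem_rootsOfUnity]
      exact hpow w hw
    have heq : Hs = rootsOfUnity (Fintype.card Hs) ℂ := by
      apply Subgroup.eq_of_le_of_card_ge hle
      rw [Nat.card_eq_fintype_card (α := Hs)]
      exact card_rootsOfUnity ℂ (Fintype.card Hs)
    have hzm : Units.mk0 z hz0 ∈ Hs := by
      rw [heq, mem_rootsOfUnity]
      exact Units.ext (by simpa using hz)
    obtain ⟨a, ha, b, hb, hab⟩ := hprod _ hzm
    have hm : w0 ^ 2 * Units.mk0 z hz0 ∈ A * A := by
      rw [← hab]
      exact Finset.mul_mem_mul ha hb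
    refine ⟨f _, hfE _ hm, ?_⟩
    have h1 := hf _ hm
    rw [Units.val_mul, Units.val_pow_eq_pow_val, Units.val_mk0] at h1
    exact h1

end Pool.Agent.Lib.MP_70c3c6_co.GP
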