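import Pool.Agent.Lib.MP_70c3c6_co.GP.Spec

/-!
# MP_70c3c6_co, GP: module GRP (small doubling gives a common fixed point)
-/

set_option autoImplicit false
open Classical Polynomial Pointwise

namespace Pool.Agent.Lib.MP_70c3c6_co.GP

open Pool.Agent.Lib.MP_70c3c6_co.EQ
open Pool.Agent.Lib.MP_70c3c6_co.FG

theorem specGRP : SpecGRP := by
  intro S h1 hS
  have h3 : ((S * S).card : ℚ) < (3 / 2 : ℚ) * S.card := by
    have h4 : ((2 * (S * S).card : ℕ) : ℚ) < ((3 * S.card : ℕ) : ℚ) := by exact_mod_cast hS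
    push_cast at h4
    linarith
  obtain ⟨H, _, _, hH⟩ := Finset.doubling_lt_three_halves h3
  have hSH : ∀ h ∈ S, h ∈ H := by
    intro h hh
    have h5 := (hH 1 h1).1 (Finset.mem_coe.2 hh)
    rwa [one_smul] at h5
  have hc : (Fintype.card H : ℂ) ≠ 0 := by
    exact_mod_cast Fintype.card_ne_zero
  refine ⟨(Fintype.card H : ℂ)⁻¹ * ∑ g : H, (g : Equiv.Perm ℂ) 0, ?_⟩
  intro h hh hA
  obtain ⟨α, β, _, hz⟩ := hA
  have h6 : ∑ g : H, h ((g : Equiv.Perm ℂ) 0) = ∑ g : H, (g : Equiv.Perm ℂ) 0 :=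
    Fintype.sum_equiv (Equiv.mulLeft (⟨h, hSH h hh⟩ : H)) _ _ (fun g => rfl)
  have h7 : ∑ g : H, h ((g : Equiv.Perm ℂ) 0) =
      α * ∑ g : H, (g : Equiv.Perm ℂ) 0 + Fintype.card H * β := by
    have h9 : ∀ g : H, h ((g : Equiv.Perm ℂ) 0) = α * (g : Equiv.Perm ℂ) 0 + β := fun g => hz _
    rw [Finset.mul_sum]
    simp only [h9, Finset.sum_add_distrib, Finset.sum_const, Finset.card_univ, nsmul_eq_mul]
  rw [hz]
  rw [h6] at h7
  set s : ℂ := ∑ g : H, (g : Equiv.Perm ℂ) 0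
  have h8 : β = (Fintype.card H : ℂ)⁻¹ * (s - α * s) := by
    rw [show s - α * s = Fintype.card H * β by linear_combination h7, ← mul_assoc,
      inv_mul_cancel₀ hc, one_mul]
  rw [h8]
  ring

end Pool.Agent.Lib.MP_70c3c6_co.GP
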