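import Pool.Agent.Lib.MP_70c3c6_co.GP.Spec

/-!
# Module HYB: all points are vertices
-/

set_option autoImplicit false
open Classical Polynomial Pointwise

namespace Pool.Agent.Lib.MP_70c3c6_co.GP

open Pool.Agent.Lib.MP_70c3c6_co.EQ
open Pool.Agent.Lib.MP_70c3c6_co.FG

namespace HYBM

theorem slope_eq {a1 b1 a2 b2 e e' : ℂ} (hd : a1 * b2 - a2 * b1 ≠ 0)
    (h : (a1 + b1 * e) * (a2 + b2 * e') = (a2 + b2 * e) * (a1 + b1 * e')) : e = e' := by
  have h1 : (a1 * b2 - a2 * b1) * (e' - e) = 0 := by linear_combination h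
  rcases mul_eq_zero.1 h1 with h2 | h2
  · exact absurd h2 hd
  · exact (sub_eq_zero.1 h2).symm

theorem not_both {a1 b1 a2 b2 e : ℂ} (hd : a1 * b2 - a2 * b1 ≠ 0) (h1 : a1 + b1 * e = 0)
    (h2 : a2 + b2 * e = 0) : False := by
  apply hd
  linear_combination b2 * h1 - b1 * h2

theorem dir {a1 b1 a2 b2 e w N : ℂ} (hd : a1 * b2 - a2 * b1 ≠ 0) (hw : w ≠ 0) (hN : N ≠ 0)
    (h : w * (a2 + b2 * e) = -N * (a1 + b1 * e)) : a1 + b1 * e ≠ 0 ∧ a2 + b2 * e ≠ 0 := by
  constructor
  · intro h1
    rw [h1, mul_zero] at h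
    exact not_both hd h1 ((mul_eq_zero.1 h).resolve_left hw)
  · intro h2
    rw [h2, mul_zero] at h
    exact not_both hd ((mul_eq_zero.1 h.symm).resolve_left (neg_ne_zero.2 hN)) h2

theorem tang_eq {a1 b1 a2 b2 e e' p q : ℂ} (hd : a1 * b2 - a2 * b1 ≠ 0) (hpq : p * q ≠ 0)
    (h : p * (a2 + b2 * e) + q * (a1 + b1 * e) = 0)
    (h' : p * (a2 + b2 * e') + q * (a1 + b1 * e') = 0) : e = e' := by
  apply slope_eq hd
  have hq : q ≠ 0 := right_ne_zero_of_mul hpq
  apply mul_left_cancel₀ hq
  linear_combination (a2 + b2 * e') * h - (a2 + b2 * e) * h'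

variable {ι : Type} {x y : ι → ℂ}

theorem ms_mul (hinj : Function.Injective x) {i j : ι} (hij : i ≠ j) :
    y j - y i = ms x y i j * (x j - x i) := by
  have h : x j - x i ≠ 0 := sub_ne_zero.2 fun h => hij (hinj h).symm
  rw [ms, div_mul_cancel₀ _ h]

theorem ms_of (hinj : Function.Injective x) {i j : ι} {e : ℂ} (hij : i ≠ j)
    (h : y j - y i = e * (x j - x i)) : ms x y i j = e := by
  have h' : x j - x i ≠ 0 := sub_ne_zero.2 fun h => hij (hinj h).symm
  rw [ms, h, mul_div_cancel_right₀ _ h']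

/-- three points on a line -/
theorem ms_three (hinj : Function.Injective x) {i i' j : ι} (hij : i ≠ j) (hij' : i' ≠ j)
    (hii : i ≠ i') (h : ms x y i j = ms x y i' j) : ms x y i i' = ms x y i j := by
  have h1 := ms_mul (y := y) hinj hij
  have h2 := ms_mul (y := y) hinj hij'
  rw [← h] at h2
  apply ms_of hinj hii
  linear_combination h1 - h2

/-- the line in the coordinates `u, v` -/
theorem line {a1 b1 c1 a2 b2 c2 e : ℂ} {u v : ι → ℂ} (hu : ∀ i, u i = a1 * x i + b1 * y i + c1)
    (hv : ∀ i, v i = a2 * x i + b2 * y i + c2) (hinj : Function.Injective x) {i j : ι}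
    (hij : i ≠ j) (he : ms x y i j = e) :
    (a1 + b1 * e) * (v j - v i) = (a2 + b2 * e) * (u j - u i) := by
  have h1 := ms_mul (y := y) hinj hij
  rw [he] at h1
  rw [hu, hu, hv, hv]
  linear_combination (a1 * b2 - a2 * b1) * h1

theorem line_ms {a1 b1 c1 a2 b2 c2 e : ℂ} {u v : ι → ℂ} (hd : a1 * b2 - a2 * b1 ≠ 0)
    (hu : ∀ i, u i = a1 * x i + b1 * y i + c1)
    (hv : ∀ i, v i = a2 * x i + b2 * y i + c2) (hinj : Function.Injective x) {i j : ι}
    (hij : i ≠ j) (h : (a1 + b1 * e) * (v j - v i) = (a2 + b2 * e) * (u j - u i)) :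
    ms x y i j = e := by
  apply ms_of hinj hij
  rw [hu, hu, hv, hv] at h
  apply mul_left_cancel₀ hd
  linear_combination h

theorem pt_inj {a1 b1 c1 a2 b2 c2 : ℂ} {u v : ι → ℂ} (hd : a1 * b2 - a2 * b1 ≠ 0)
    (hu : ∀ i, u i = a1 * x i + b1 * y i + c1)
    (hv : ∀ i, v i = a2 * x i + b2 * y i + c2) (hinj : Function.Injective x) {i j : ι}
    (h1 : u i = u j) (h2 : v i = v j) : i = j := by
  apply hinj
  rw [hu, hu] at h1
  rw [hv, hv] at h2
  apply mul_left_cancel₀ hd
  linear_combination b2 * h1 - b1 * h2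

end HYBM

open HYBM

theorem specHYB (hGPH : SpecGPH) (hPRB : SpecPRB) : SpecHYB := by
  intro ι _ x y τ M E H hk hb a1 b1 c1 a2 b2 c2 N hyp
  obtain ⟨n, u0, hu0, hn1, hnk, hgood, hz⟩ :=
    hGPH ι x y τ M E H hk hb a1 b1 c1 a2 b2 c2 N hyp
  obtain ⟨hd, hN, hconic, htan⟩ := hyp
  have hP := hPRB ι x y τ M E H hk
  obtain ⟨u, hu⟩ : ∃ u : ι → ℂ, ∀ i, u i = a1 * x i + b1 * y i + c1 := ⟨_, fun _ => rfl⟩
  obtain ⟨v, hv⟩ : ∃ v : ι → ℂ, ∀ i, v i = a2 * x i + b2 * y i + c2 := ⟨_, fun _ => rfl⟩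
  have hinj : Function.Injective x := H.inj
  have huv : ∀ i, (M i).card = 1 → u i * v i = N := by
    intro i hi
    rw [hu, hv]
    exact hconic ⟨i, hi⟩
  have hun : ∀ i, (M i).card = 1 → u i ^ n = u0 ^ n := by
    intro i hi
    rw [hu]
    exact hgood i hi
  have ht : ∀ i, (M i).card = 1 → u i * (a2 + b2 * τ i) + v i * (a1 + b1 * τ i) = 0 := by
    intro i hi
    rw [hu, hv]
    exact htan ⟨i, hi⟩
  -- slopes
  have hn0 : n ≠ 0 := by omega
  set R : Finset ℂ := Polynomial.nthRootsFinset n (1 : ℂ) with hR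
  have hRc : R.card = n := (Complex.isPrimitiveRoot_exp n hn0).card_nthRootsFinset
  have hRm : ∀ z, z ∈ R ↔ z ^ n = 1 := fun z =>
    Polynomial.mem_nthRootsFinset (Nat.pos_of_ne_zero hn0) _
  have hz' : ∀ z : ℂ, ∃ e, z ^ n = 1 →
      e ∈ E ∧ u0 ^ 2 * z * (a2 + b2 * e) = -N * (a1 + b1 * e) := by
    intro z
    by_cases h : z ^ n = 1
    · obtain ⟨e, he, h2⟩ := hz z h
      exact ⟨e, fun _ => ⟨he, h2⟩⟩
    · exact ⟨0, fun h' => absurd h' h⟩
  choose es hes using hz'
  have hR0 : ∀ z ∈ R, z ≠ 0 := by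
    intro z hz h0
    rw [hRm, h0, zero_pow hn0] at hz
    exact zero_ne_one hz
  have hw0 : ∀ z ∈ R, u0 ^ 2 * z ≠ 0 := fun z hz => mul_ne_zero (pow_ne_zero 2 hu0) (hR0 z hz)
  have hesinj : Set.InjOn es (R : Set ℂ) := by
    intro z hzR z' hzR' heq
    have hzR1 : z ∈ R := hzR
    have hzR1' : z' ∈ R := hzR'
    have h1 := (hes z ((hRm z).1 hzR1)).2
    have h2 := (hes z' ((hRm z').1 hzR1')).2
    rw [← heq] at h2
    have h3 := (dir hd (hw0 z hzR1) hN h1).2
    have h4 : u0 ^ 2 * z * (a2 + b2 * es z) = u0 ^ 2 * z' * (a2 + b2 * es z) := by rw [h1, h2]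
    have h5 := mul_right_cancel₀ h3 h4
    exact mul_left_cancel₀ (pow_ne_zero 2 hu0) h5
  set P : Finset ℂ := R.image es with hPd
  have hPc : P.card = n := by rw [hPd, Finset.card_image_of_injOn hesinj, hRc]
  have hPE : P ⊆ E := by
    intro e he
    rw [hPd, Finset.mem_image] at he
    obtain ⟨z, hz, rfl⟩ := he
    exact (hes z ((hRm z).1 hz)).1
  -- vertices
  set W : Finset ℂ := R.image fun z => u0 * z with hW
  have hWc : W.card = n := by
    rw [hW, Finset.card_image_of_injective _ (mul_right_injective₀ hu0), hRc]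
  have hWm : ∀ c, c ^ n = u0 ^ n → c ∈ W := by
    intro c hc
    rw [hW, Finset.mem_image]
    refine ⟨c / u0, (hRm _).2 ?_, mul_div_cancel₀ _ hu0⟩
    rw [div_pow, hc, div_self (pow_ne_zero n hu0)]
  have hne0 : ∀ c, c ^ n = u0 ^ n → c ≠ 0 := by
    intro c hc h0
    rw [h0, zero_pow hn0] at hc
    exact pow_ne_zero n hu0 hc.symm
  have hall : ∀ j, u j ^ n = u0 ^ n ∧ u j * v j = N := by
    by_contra hno
    push Not at hno
    obtain ⟨j, hj⟩ := hno
    have hjb : (M j).card ≠ 1 := fun h => hj (hun j h) (huv j h)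
    set G : Finset ι := Finset.univ.filter fun i => (M i).card = 1 with hG
    have hGm : ∀ i, i ∈ G ↔ (M i).card = 1 := fun i => by
      rw [hG, Finset.mem_filter]
      exact ⟨fun h => h.2, fun h => ⟨Finset.mem_univ i, h⟩⟩
    have hGc : G.card + (Bd M).card = Fintype.card ι := by
      rw [hG, Bd, ← Finset.card_univ]
      exact Finset.card_filter_add_card_filter_not _
    have hij : ∀ i ∈ G, i ≠ j := by
      rintro i hi rfl
      exact hjb ((hGm _).1 hi)
    have hsep : ∀ i ∈ G, ∀ l l', l ≠ i → l' ≠ i → ms x y i l = ms x y i l' → l = l' := by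
      intro i hi l l' hl hl' h
      exact (hP i ((hGm i).1 hi)).2.2 (Finset.mem_coe.2 (Finset.mem_erase.2 ⟨hl, Finset.mem_univ l⟩))
        (Finset.mem_coe.2 (Finset.mem_erase.2 ⟨hl', Finset.mem_univ l'⟩)) h
    have hinjG : Set.InjOn (fun i => ms x y i j) (G : Set ι) := by
      intro i hi i' hi' heq
      have hi1 : i ∈ G := hi
      have hi1' : i' ∈ G := hi'
      by_contra hne
      have h1 := ms_three hinj (hij i hi1) (hij i' hi1') hne heq
      exact hij i' hi1' (hsep i hi1 i' j (Ne.symm hne) (Ne.symm (hij i hi1)) h1)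
    have hc1 : (G.filter fun i => ms x y i j ∉ P).card ≤ (E \ P).card := by
      apply Finset.card_le_card_of_injOn (fun i => ms x y i j)
      · intro i hi
        have hi1 := Finset.mem_filter.1 (Finset.mem_coe.1 hi)
        exact Finset.mem_coe.2 (Finset.mem_sdiff.2 ⟨H.chord i j (hij i hi1.1), hi1.2⟩)
      · intro i hi i' hi' heq
        have hi1 := Finset.mem_filter.1 (Finset.mem_coe.1 hi)
        have hi1' := Finset.mem_filter.1 (Finset.mem_coe.1 hi')
        exact hinjG hi1.1 hi1'.1 heq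
    rw [Finset.card_sdiff_of_subset hPE, hk, hPc] at hc1
    have hc2 := Finset.card_filter_add_card_filter_not (s := G) (fun i => ms x y i j ∈ P)
    -- the second vertices
    have hzi : ∀ i, ∃ z, ms x y i j ∈ P → z ∈ R ∧ es z = ms x y i j := by
      intro i
      by_cases h : ms x y i j ∈ P
      · obtain ⟨z, hz, h2⟩ := Finset.mem_image.1 h
        exact ⟨z, fun _ => ⟨hz, h2⟩⟩
      · exact ⟨0, fun h' => absurd h' h⟩
    choose zi hzi using hzi
    set G1 : Finset ι := G.filter fun i => ms x y i j ∈ P with hG1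
    set φ : ι → ℂ := fun i => u0 ^ 2 * zi i / u i with hφ
    have hui : ∀ i ∈ G, u i ≠ 0 := fun i hi => hne0 _ (hun i ((hGm i).1 hi))
    have hvi : ∀ i ∈ G, v i ≠ 0 := by
      intro i hi h
      apply hN
      rw [← huv i ((hGm i).1 hi), h, mul_zero]
    have hφ1 : ∀ i ∈ G1, φ i ^ n = u0 ^ n := by
      intro i hi
      have hi1 := Finset.mem_filter.1 hi
      have h1 := (hRm _).1 (hzi i hi1.2).1
      show (u0 ^ 2 * zi i / u i) ^ n = u0 ^ n
      rw [div_pow, mul_pow, h1, mul_one, hun i ((hGm i).1 hi1.1), ← pow_mul, mul_comm 2 n,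
        pow_mul, sq, mul_div_assoc, div_self (pow_ne_zero n hu0), mul_one]
    have hE1 : ∀ i ∈ G1, u0 ^ 2 * zi i * (a2 + b2 * ms x y i j) = -N * (a1 + b1 * ms x y i j) := by
      intro i hi
      have hi1 := Finset.mem_filter.1 hi
      have h1 := (hes (zi i) ((hRm _).1 (hzi i hi1.2).1)).2
      rw [(hzi i hi1.2).2] at h1
      exact h1
    have hE2 : ∀ i ∈ G1, (a2 + b2 * ms x y i j) * φ i = -((a1 + b1 * ms x y i j) * v i) := by
      intro i hi
      have hi1 := Finset.mem_filter.1 hi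
      apply mul_left_cancel₀ (hui i hi1.1)
      have h1 : u i * φ i = u0 ^ 2 * zi i := by
        show u i * (u0 ^ 2 * zi i / u i) = _
        rw [mul_div_cancel₀ _ (hui i hi1.1)]
      have h2 := huv i ((hGm i).1 hi1.1)
      linear_combination (a2 + b2 * ms x y i j) * h1 + hE1 i hi + (a1 + b1 * ms x y i j) * h2
    have hE3 : ∀ i ∈ G1, ∀ d, φ i * d = N →
        (a1 + b1 * ms x y i j) * d = -((a2 + b2 * ms x y i j) * u i) := by
      intro i hi d hd'
      have hi1 := Finset.mem_filter.1 hi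
      have h3 : φ i ≠ 0 := hne0 _ (hφ1 i hi)
      apply mul_left_cancel₀ h3
      have h1 : u i * φ i = u0 ^ 2 * zi i := by
        show u i * (u0 ^ 2 * zi i / u i) = _
        rw [mul_div_cancel₀ _ (hui i hi1.1)]
      linear_combination (a1 + b1 * ms x y i j) * hd' + (a2 + b2 * ms x y i j) * h1 + hE1 i hi
    have hmaps : ∀ i ∈ G1, φ i ∈ W \ G.image u := by
      intro i hi
      have hi1 := Finset.mem_filter.1 hi
      rw [Finset.mem_sdiff]
      refine ⟨hWm _ (hφ1 i hi), fun hmem => ?_⟩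
      obtain ⟨l, hl, hlu⟩ := Finset.mem_image.1 hmem
      have h2 := hE2 i hi
      have h3 := hE3 i hi (v l) (by rw [← hlu]; exact huv l ((hGm l).1 hl))
      rw [← hlu] at h2
      by_cases hli : l = i
      · subst hli
        have h4 := ht l ((hGm l).1 hl)
        have h5 : ms x y l j = τ l := by
          apply tang_eq hd (p := u l) (q := v l) _ _ h4
          · rw [huv l ((hGm l).1 hl)]
            exact hN
          · linear_combination h2
        apply H.tang l j (hij l hl)
        rw [h5]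
        exact H.tau l
      · have h4 : ms x y i l = ms x y i j := by
          apply line_ms hd hu hv hinj (Ne.symm hli)
          linear_combination h3 - h2
        have h5 := hsep i hi1.1 l j hli (Ne.symm (hij i hi1.1)) h4
        exact hij l hl h5
    have hφinj : Set.InjOn φ (G1 : Set ι) := by
      intro i hi i' hi' heq
      have hi0 : i ∈ G1 := hi
      have hi0' : i' ∈ G1 := hi'
      have hi1 := Finset.mem_filter.1 hi0
      have hi1' := Finset.mem_filter.1 hi0'
      have hc : φ i ≠ 0 := hne0 _ (hφ1 i hi0)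
      apply hinjG hi1.1 hi1'.1
      show ms x y i j = ms x y i' j
      have hd1 : φ i * (N / φ i) = N := mul_div_cancel₀ _ hc
      have hd2 : φ i' * (N / φ i) = N := by rw [← heq]; exact hd1
      have e1 := hE2 i hi0
      have e2 := hE3 i hi0 _ hd1
      have e3 := hE2 i' hi0'
      have e4 := hE3 i' hi0' _ hd2
      rw [← heq] at e3
      have l1 := line hu hv hinj (hij i hi1.1) rfl
      have l2 := line hu hv hinj (hij i' hi1'.1) rfl
      have k1 : (a1 + b1 * ms x y i j) * (v j - N / φ i) =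
          (a2 + b2 * ms x y i j) * (u j - φ i) := by
        linear_combination l1 - e2 + e1
      have k2 : (a1 + b1 * ms x y i' j) * (v j - N / φ i) =
          (a2 + b2 * ms x y i' j) * (u j - φ i) := by
        linear_combination l2 - e4 + e3
      apply slope_eq hd
      by_cases hU : u j - φ i = 0
      · by_cases hV : v j - N / φ i = 0
        · exfalso
          rw [sub_eq_zero] at hU hV
          apply hj
          · rw [hU]
            exact hφ1 i hi0
          · rw [hU, hV]
            exact hd1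
        · apply mul_left_cancel₀ hV
          linear_combination (a2 + b2 * ms x y i' j) * k1 - (a2 + b2 * ms x y i j) * k2
      · apply mul_left_cancel₀ hU
        linear_combination (a1 + b1 * ms x y i' j) * k1 - (a1 + b1 * ms x y i j) * k2
    have hc3 : G1.card ≤ (W \ G.image u).card := by
      apply Finset.card_le_card_of_injOn φ
      · intro i hi
        exact Finset.mem_coe.2 (hmaps i (Finset.mem_coe.1 hi))
      · exact hφinj
    have huG : Set.InjOn u (G : Set ι) := by
      intro i hi i' hi' heq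
      have hi1 : i ∈ G := hi
      have hi1' : i' ∈ G := hi'
      apply pt_inj hd hu hv hinj heq
      apply mul_left_cancel₀ (hui i hi1)
      rw [huv i ((hGm i).1 hi1), heq, huv i' ((hGm i').1 hi1')]
    have hsub : G.image u ⊆ W := by
      intro c hc
      obtain ⟨i, hi, rfl⟩ := Finset.mem_image.1 hc
      exact hWm _ (hun i ((hGm i).1 hi))
    have hc4 : (G.image u).card = G.card := Finset.card_image_of_injOn huG
    have hc5 := Finset.card_le_card hsub
    rw [Finset.card_sdiff_of_subset hsub, hWc, hc4] at hc3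
    rw [hWc, hc4] at hc5
    omega
  -- all points are vertices
  have hu1 : ∀ i, u i ≠ 0 := fun i => hne0 _ (hall i).1
  have hcard : Fintype.card ι ≤ n := by
    rw [← hWc, ← Finset.card_univ]
    apply Finset.card_le_card_of_injOn u
    · intro i _
      exact Finset.mem_coe.2 (hWm _ (hall i).1)
    · intro i _ i' _ heq
      apply pt_inj hd hu hv hinj heq
      apply mul_left_cancel₀ (hu1 i)
      rw [(hall i).2, heq, (hall i').2]
  have hnk' : n = Fintype.card ι := le_antisymm hnk hcard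
  have hPE' : P = E := Finset.eq_of_subset_of_card_le hPE (by rw [hk, hPc]; exact hcard)
  refine ⟨a1 / u0, b1 / u0, c1 / u0, a2 * u0 / N, b2 * u0 / N, c2 * u0 / N, ?_, ?_, ?_⟩
  · have h1 : a1 / u0 * (b2 * u0 / N) - a2 * u0 / N * (b1 / u0) = (a1 * b2 - a2 * b1) / N := by
      field_simp
    rw [h1]
    exact div_ne_zero hd hN
  · intro i
    refine ⟨u i / u0, ?_, ?_, ?_⟩
    · rw [← hnk', div_pow, (hall i).1, div_self (pow_ne_zero n hu0)]
    · rw [hu]
      ring
    · rw [inv_div, eq_div_iff (hu1 i)]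
      have h1 := (hall i).2
      have h2 := hv i
      field_simp
      rw [← h1, h2]
      ring
  · intro σ hσ
    rw [← hPE', hPd, Finset.mem_image] at hσ
    obtain ⟨z, hz, rfl⟩ := hσ
    have h1 := (hes z ((hRm z).1 hz)).2
    have hz0 := hR0 z hz
    refine ⟨z⁻¹, ?_, ?_⟩
    · rw [← hnk', inv_pow, (hRm z).1 hz, inv_one]
    · field_simp
      linear_combination h1

end Pool.Agent.Lib.MP_70c3c6_co.GP
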