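import Pool.Agent.Lib.MP_70c3c6_co.GP.Spec2

/-!
# MP_70c3c6_co, GP: module KI6 (a plane kissing bound)
-/

set_option autoImplicit false
open Classical Polynomial Pointwise

namespace Pool.Agent.Lib.MP_70c3c6_co.GP

namespace KI6M

/-- the hexagonal form -/
def q (a b : ℝ) : ℝ := a ^ 2 + a * b + b ^ 2

theorem keyA (a1 b1 a2 b2 : ℝ) (h1 : 0 < a1) (h2 : 0 ≤ b1) (h3 : 0 < a2) (h4 : 0 ≤ b2)
    (ha : a2 ≤ a1) : q (a1 - a2) (b1 - b2) < q a1 b1 ∨ q (a1 - a2) (b1 - b2) < q a2 b2 := by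
  unfold q
  have da : 0 ≤ a1 - a2 := sub_nonneg.2 ha
  rcases le_total b2 b1 with hb | hb
  · have db : 0 ≤ b1 - b2 := sub_nonneg.2 hb
    left
    nlinarith [mul_pos h3 h1, mul_nonneg h3.le da, mul_nonneg h4 db, mul_nonneg h4 h2,
      mul_nonneg h1.le h4, mul_nonneg h3.le db]
  · have db : 0 ≤ b2 - b1 := sub_nonneg.2 hb
    rcases le_total (b2 - b1) (a1 - a2) with hc | hc
    · have dc : 0 ≤ (a1 - a2) - (b2 - b1) := sub_nonneg.2 hc
      left
      nlinarith [mul_nonneg db dc, mul_pos h3 h1, mul_nonneg h3.le da, mul_nonneg h1.le h2,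
        sq_nonneg b1]
    · have dc : 0 ≤ (b2 - b1) - (a1 - a2) := sub_nonneg.2 hc
      right
      nlinarith [mul_nonneg da dc, mul_nonneg h2 h4, mul_nonneg h2 db, mul_pos h3 h3,
        mul_nonneg h3.le h4]

theorem q_neg (a b : ℝ) : q (-a) (-b) = q a b := by
  unfold q
  ring

theorem key0 (a1 b1 a2 b2 : ℝ) (h1 : 0 < a1) (h2 : 0 ≤ b1) (h3 : 0 < a2) (h4 : 0 ≤ b2) :
    q (a1 - a2) (b1 - b2) < q a1 b1 ∨ q (a1 - a2) (b1 - b2) < q a2 b2 := by
  rcases le_total a2 a1 with ha | ha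
  · exact keyA a1 b1 a2 b2 h1 h2 h3 h4 ha
  · have h := keyA a2 b2 a1 b1 h3 h4 h1 h2 ha
    rw [← q_neg (a2 - a1) (b2 - b1), neg_sub, neg_sub] at h
    exact h.symm

/-- the sector -/
noncomputable def sec (a b : ℝ) : ℕ :=
  if 0 < a ∧ 0 ≤ b then 0
  else if a ≤ 0 ∧ 0 < a + b then 1
  else if 0 < b ∧ a + b ≤ 0 then 2
  else if a < 0 ∧ b ≤ 0 then 3
  else if 0 ≤ a ∧ a + b < 0 then 4
  else 5

theorem sec_lt (a b : ℝ) : sec a b < 6 := by
  unfold sec
  split_ifs <;> norm_num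

theorem sec_spec (a b : ℝ) (n : ¬ (a = 0 ∧ b = 0)) :
    (sec a b = 0 ∧ 0 < a ∧ 0 ≤ b) ∨ (sec a b = 1 ∧ a ≤ 0 ∧ 0 < a + b) ∨
    (sec a b = 2 ∧ 0 < b ∧ a + b ≤ 0) ∨ (sec a b = 3 ∧ a < 0 ∧ b ≤ 0) ∨
    (sec a b = 4 ∧ 0 ≤ a ∧ a + b < 0) ∨ (sec a b = 5 ∧ b < 0 ∧ 0 ≤ a + b) := by
  unfold sec
  by_cases h1 : 0 < a ∧ 0 ≤ b
  · rw [if_pos h1]
    exact Or.inl ⟨rfl, h1⟩
  rw [if_neg h1]
  by_cases h2 : a ≤ 0 ∧ 0 < a + b
  · rw [if_pos h2]
    exact Or.inr (Or.inl ⟨rfl, h2⟩)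
  rw [if_neg h2]
  by_cases h3 : 0 < b ∧ a + b ≤ 0
  · rw [if_pos h3]
    exact Or.inr (Or.inr (Or.inl ⟨rfl, h3⟩))
  rw [if_neg h3]
  by_cases h4 : a < 0 ∧ b ≤ 0
  · rw [if_pos h4]
    exact Or.inr (Or.inr (Or.inr (Or.inl ⟨rfl, h4⟩)))
  rw [if_neg h4]
  by_cases h5 : 0 ≤ a ∧ a + b < 0
  · rw [if_pos h5]
    exact Or.inr (Or.inr (Or.inr (Or.inr (Or.inl ⟨rfl, h5⟩))))
  rw [if_neg h5]
  refine Or.inr (Or.inr (Or.inr (Or.inr (Or.inr ⟨rfl, ?_⟩))))
  rcases lt_trichotomy a 0 with ha | ha | ha <;> rcases lt_trichotomy b 0 with hb | hb | hb <;>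
    rcases lt_trichotomy (a + b) 0 with hc | hc | hc <;>
    first
      | exact absurd ⟨by linarith, by linarith⟩ h1
      | exact absurd ⟨by linarith, by linarith⟩ h2
      | exact absurd ⟨by linarith, by linarith⟩ h3
      | exact absurd ⟨by linarith, by linarith⟩ h4
      | exact absurd ⟨by linarith, by linarith⟩ h5
      | exact ⟨hb, by linarith⟩
      | exact absurd (And.intro ha hb) n

theorem key (a1 b1 a2 b2 : ℝ) (n1 : ¬ (a1 = 0 ∧ b1 = 0)) (n2 : ¬ (a2 = 0 ∧ b2 = 0))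
    (h : sec a1 b1 = sec a2 b2) :
    q (a1 - a2) (b1 - b2) < q a1 b1 ∨ q (a1 - a2) (b1 - b2) < q a2 b2 := by
  have s1 := sec_spec a1 b1 n1
  have s2 := sec_spec a2 b2 n2
  rcases s1 with ⟨e, u, v⟩ | ⟨e, u, v⟩ | ⟨e, u, v⟩ | ⟨e, u, v⟩ | ⟨e, u, v⟩ | ⟨e, u, v⟩ <;>
  rcases s2 with ⟨e', u', v'⟩ | ⟨e', u', v'⟩ | ⟨e', u', v'⟩ | ⟨e', u', v'⟩ | ⟨e', u', v'⟩ |
    ⟨e', u', v'⟩ <;>
  first
    | (exfalso; omega)
    | exact key0 a1 b1 a2 b2 u v u' v'
    | (have k := key0 (a1 + b1) (-a1) (a2 + b2) (-a2) (by linarith) (by linarith) (by linarith)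
        (by linarith)
       have g1 : q (a1 + b1 - (a2 + b2)) (-a1 - -a2) = q (a1 - a2) (b1 - b2) := by unfold q; ring
       have g2 : q (a1 + b1) (-a1) = q a1 b1 := by unfold q; ring
       have g3 : q (a2 + b2) (-a2) = q a2 b2 := by unfold q; ring
       rw [g1, g2, g3] at k
       exact k)
    | (have k := key0 b1 (-(a1 + b1)) b2 (-(a2 + b2)) (by linarith) (by linarith) (by linarith)
        (by linarith)
       have g1 : q (b1 - b2) (-(a1 + b1) - -(a2 + b2)) = q (a1 - a2) (b1 - b2) := by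
        unfold q; ring
       have g2 : q b1 (-(a1 + b1)) = q a1 b1 := by unfold q; ring
       have g3 : q b2 (-(a2 + b2)) = q a2 b2 := by unfold q; ring
       rw [g1, g2, g3] at k
       exact k)
    | (have k := key0 (-a1) (-b1) (-a2) (-b2) (by linarith) (by linarith) (by linarith)
        (by linarith)
       have g1 : q (-a1 - -a2) (-b1 - -b2) = q (a1 - a2) (b1 - b2) := by unfold q; ring
       rw [g1, q_neg, q_neg] at k
       exact k)
    | (have k := key0 (-(a1 + b1)) a1 (-(a2 + b2)) a2 (by linarith) (by linarith) (by linarith)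
        (by linarith)
       have g1 : q (-(a1 + b1) - -(a2 + b2)) (a1 - a2) = q (a1 - a2) (b1 - b2) := by
        unfold q; ring
       have g2 : q (-(a1 + b1)) a1 = q a1 b1 := by unfold q; ring
       have g3 : q (-(a2 + b2)) a2 = q a2 b2 := by unfold q; ring
       rw [g1, g2, g3] at k
       exact k)
    | (have k := key0 (-b1) (a1 + b1) (-b2) (a2 + b2) (by linarith) (by linarith) (by linarith)
        (by linarith)
       have g1 : q (-b1 - -b2) (a1 + b1 - (a2 + b2)) = q (a1 - a2) (b1 - b2) := by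
        unfold q; ring
       have g2 : q (-b1) (a1 + b1) = q a1 b1 := by unfold q; ring
       have g3 : q (-b2) (a2 + b2) = q a2 b2 := by unfold q; ring
       rw [g1, g2, g3] at k
       exact k)

/-- first coordinate -/
noncomputable def al (z : ℂ) : ℝ := z.re - z.im / √3

/-- second coordinate -/
noncomputable def be (z : ℂ) : ℝ := 2 * (z.im / √3)

theorem norm_q (z : ℂ) : ‖z‖ ^ 2 = q (al z) (be z) := by
  have h3 : (√3 : ℝ) ^ 2 = 3 := Real.sq_sqrt (by norm_num)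
  have h3' : (√3 : ℝ) ≠ 0 := by
    intro h
    rw [h] at h3
    norm_num at h3
  have him : z.im = √3 * (z.im / √3) := (mul_div_cancel₀ _ h3').symm
  have h4 : z.im ^ 2 = 3 * (z.im / √3) ^ 2 := by
    rw [div_pow, h3]
    ring
  rw [← Complex.normSq_eq_norm_sq, Complex.normSq_apply]
  unfold q al be
  linear_combination h4

theorem al_sub (z w : ℂ) : al (z - w) = al z - al w := by
  unfold al
  rw [Complex.sub_re, Complex.sub_im]
  ring

theorem be_sub (z w : ℂ) : be (z - w) = be z - be w := by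
  unfold be
  rw [Complex.sub_im]
  ring

theorem nonzero (z : ℂ) (hz : z ≠ 0) : ¬ (al z = 0 ∧ be z = 0) := by
  rintro ⟨h1, h2⟩
  have h := norm_q z
  rw [h1, h2] at h
  have h3 : ‖z‖ ^ 2 = 0 := by
    rw [h]
    unfold q
    norm_num
  exact hz (norm_eq_zero.1 (pow_eq_zero_iff (two_ne_zero) |>.1 h3))

/-- two points in one sector -/
theorem apart (a b : ℂ) (ha : a ≠ 0) (hb : b ≠ 0) (h : sec (al a) (be a) = sec (al b) (be b)) :
    ‖a - b‖ < ‖a‖ ∨ ‖a - b‖ < ‖b‖ := by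
  have k := key _ _ _ _ (nonzero a ha) (nonzero b hb) h
  rw [← al_sub, ← be_sub, ← norm_q, ← norm_q, ← norm_q] at k
  rcases k with k | k
  · exact Or.inl (lt_of_pow_lt_pow_left₀ 2 (norm_nonneg _) k)
  · exact Or.inr (lt_of_pow_lt_pow_left₀ 2 (norm_nonneg _) k)

end KI6M

open KI6M in
theorem specKI6 : SpecKI6 := by
  intro T p
  have hcard : (Finset.range 6).card = 6 := Finset.card_range 6
  rw [← hcard]
  apply Finset.card_le_card_of_injOn (fun x => sec (al (x - p)) (be (x - p)))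
  · intro x _
    rw [Finset.mem_coe, Finset.mem_range]
    exact sec_lt _ _
  · intro x hx x' hx' hc
    rw [Finset.mem_coe, Finset.mem_filter] at hx hx'
    by_contra hne
    have h := apart (x - p) (x' - p) (sub_ne_zero.2 hx.2.1) (sub_ne_zero.2 hx'.2.1) hc
    have e1 : x - p - (x' - p) = x - x' := by ring
    rw [e1] at h
    rcases h with h | h
    · have h2 := hx.2.2 x' hx'.1 (Ne.symm hne)
      linarith
    · have h2 := hx'.2.2 x hx.1 hne
      rw [norm_sub_rev x' x] at h2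
      linarith

end Pool.Agent.Lib.MP_70c3c6_co.GP
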