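import Pool.Agent.Lib.MP_70c3c6_co.GP.Spec

/-!
# MP_70c3c6_co, GP: module KIS (a crude kissing number in the plane)
-/

set_option autoImplicit false
open Classical Polynomial Pointwise

namespace Pool.Agent.Lib.MP_70c3c6_co.GP

namespace KISM

theorem core (r1 r2 u1 v1 u2 v2 : ℝ) (h1 : 0 < r1) (h2 : 0 < r2) (hu1 : u1 ^ 2 + v1 ^ 2 = 1)
    (hu2 : u2 ^ 2 + v2 ^ 2 = 1) (hd : (u1 - u2) ^ 2 + (v1 - v2) ^ 2 < 1) (h12 : r1 ≤ r2) :
    (r1 * u1 - r2 * u2) ^ 2 + (r1 * v1 - r2 * v2) ^ 2 < r2 ^ 2 := by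
  have e : (r1 * u1 - r2 * u2) ^ 2 + (r1 * v1 - r2 * v2) ^ 2 =
      r1 ^ 2 + r2 ^ 2 - r1 * r2 * (2 - ((u1 - u2) ^ 2 + (v1 - v2) ^ 2)) := by
    linear_combination (r1 ^ 2 - r1 * r2) * hu1 + (r2 ^ 2 - r1 * r2) * hu2
  rw [e]
  have hp : 0 < r1 * r2 := mul_pos h1 h2
  have h3 : r1 * r2 * 1 < r1 * r2 * (2 - ((u1 - u2) ^ 2 + (v1 - v2) ^ 2)) :=
    mul_lt_mul_of_pos_left (by linarith) hp
  have h4 : r1 * r1 ≤ r1 * r2 := mul_le_mul_of_nonneg_left h12 h1.le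
  nlinarith

theorem norm_sq (z : ℂ) : ‖z‖ ^ 2 = z.re ^ 2 + z.im ^ 2 := by
  rw [← Complex.normSq_eq_norm_sq, Complex.normSq_apply]
  ring

/-- the unit vectors in different directions -/
theorem apart (a b : ℂ) (ha : 0 < ‖a‖) (hb : 0 < ‖b‖) (hab : ‖a‖ ≤ ‖b‖)
    (hd : (a.re / ‖a‖ - b.re / ‖b‖) ^ 2 + (a.im / ‖a‖ - b.im / ‖b‖) ^ 2 < 1) : ‖a - b‖ < ‖b‖ := by
  have ua : (a.re / ‖a‖) ^ 2 + (a.im / ‖a‖) ^ 2 = 1 := by
    rw [div_pow, div_pow, ← add_div, ← norm_sq]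
    exact div_self (pow_ne_zero 2 ha.ne')
  have ub : (b.re / ‖b‖) ^ 2 + (b.im / ‖b‖) ^ 2 = 1 := by
    rw [div_pow, div_pow, ← add_div, ← norm_sq]
    exact div_self (pow_ne_zero 2 hb.ne')
  have h := core ‖a‖ ‖b‖ _ _ _ _ ha hb ua ub hd hab
  rw [mul_div_cancel₀ _ ha.ne', mul_div_cancel₀ _ hb.ne', mul_div_cancel₀ _ ha.ne',
    mul_div_cancel₀ _ hb.ne'] at h
  have h2 : ‖a - b‖ ^ 2 = (a.re - b.re) ^ 2 + (a.im - b.im) ^ 2 := by
    rw [norm_sq, Complex.sub_re, Complex.sub_im]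
  rw [← h2] at h
  exact lt_of_pow_lt_pow_left₀ 2 hb.le h

/-- the cell -/
noncomputable def cell (p x : ℂ) : ℤ × ℤ :=
  (⌊2 * ((x - p).re / ‖x - p‖)⌋, ⌊2 * ((x - p).im / ‖x - p‖)⌋)

theorem floor_mem (u : ℝ) (h : |u| ≤ 1) : ⌊2 * u⌋ ∈ Finset.Icc (-2 : ℤ) 2 := by
  rw [abs_le] at h
  rw [Finset.mem_Icc]
  constructor
  · rw [Int.le_floor]
    push_cast
    linarith
  · have : (⌊2 * u⌋ : ℝ) ≤ 2 * u := Int.floor_le _
    have h3 : (⌊2 * u⌋ : ℝ) ≤ 2 := by linarith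
    exact_mod_cast h3

theorem close (u v : ℝ) (h : ⌊2 * u⌋ = ⌊2 * v⌋) : (u - v) ^ 2 < 1 / 4 := by
  have h1 := Int.floor_le (2 * u)
  have h2 := Int.lt_floor_add_one (2 * u)
  have h3 := Int.floor_le (2 * v)
  have h4 := Int.lt_floor_add_one (2 * v)
  rw [h] at h1 h2
  have h5 : |u - v| < 1 / 2 := by
    rw [abs_lt]
    constructor <;> linarith
  have h6 : |u - v| ^ 2 < (1 / 2) ^ 2 := by
    apply pow_lt_pow_left₀ h5 (abs_nonneg _)
    norm_num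
  rw [sq_abs] at h6
  norm_num at h6 ⊢
  exact h6

end KISM

open KISM in
theorem specKIS : SpecKIS := by
  intro T p
  have hcard : ((Finset.Icc (-2 : ℤ) 2) ×ˢ (Finset.Icc (-2 : ℤ) 2)).card = 25 := by
    decide
  rw [← hcard]
  apply Finset.card_le_card_of_injOn (cell p)
  · intro x hx
    rw [Finset.mem_coe, Finset.mem_filter] at hx
    have hpos : 0 < ‖x - p‖ := norm_pos_iff.2 (sub_ne_zero.2 hx.2.1)
    rw [Finset.mem_coe, Finset.mem_product]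
    constructor
    · apply floor_mem
      rw [abs_div, abs_norm, div_le_one hpos]
      exact Complex.abs_re_le_norm _
    · apply floor_mem
      rw [abs_div, abs_norm, div_le_one hpos]
      exact Complex.abs_im_le_norm _
  · intro x hx x' hx' hc
    rw [Finset.mem_coe, Finset.mem_filter] at hx hx'
    by_contra hne
    have hpos : 0 < ‖x - p‖ := norm_pos_iff.2 (sub_ne_zero.2 hx.2.1)
    have hpos' : 0 < ‖x' - p‖ := norm_pos_iff.2 (sub_ne_zero.2 hx'.2.1)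
    have hc1 := close _ _ (congrArg Prod.fst hc)
    have hc2 := close _ _ (congrArg Prod.snd hc)
    have e1 : x - p - (x' - p) = x - x' := by ring
    have e2 : x' - p - (x - p) = x' - x := by ring
    rcases le_total ‖x - p‖ ‖x' - p‖ with h | h
    · have h1 := apart (x - p) (x' - p) hpos hpos' h (by linarith)
      rw [e1] at h1
      have h2 := hx'.2.2 x hx.1 hne
      rw [norm_sub_rev x' x] at h2
      linarith
    · have h1 := apart (x' - p) (x - p) hpos' hpos h (by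
        have g1 : ((x' - p).re / ‖x' - p‖ - (x - p).re / ‖x - p‖) ^ 2 =
          ((x - p).re / ‖x - p‖ - (x' - p).re / ‖x' - p‖) ^ 2 := by ring
        have g2 : ((x' - p).im / ‖x' - p‖ - (x - p).im / ‖x - p‖) ^ 2 =
          ((x - p).im / ‖x - p‖ - (x' - p).im / ‖x' - p‖) ^ 2 := by ring
        rw [g1, g2]
        linarith)
      rw [e2] at h1
      have h2 := hx.2.2 x' hx'.1 (Ne.symm hne)
      rw [norm_sub_rev x x'] at h2
      linarith

end Pool.Agent.Lib.MP_70c3c6_co.GP
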