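import Pool.Agent.Lib.MP_70c3c6_co.GP.Spec

/-!
MP_70c3c6_co, GP, module KYB: the key relations.
-/

set_option autoImplicit false
open Classical Polynomial

namespace Pool.Agent.Lib.MP_70c3c6_co.GP

open Pool.Agent.Lib.MP_70c3c6_co.EQ
open Pool.Agent.Lib.MP_70c3c6_co.FG

namespace KYBxM

theorem ms_symm {ι : Type} (x y : ι → ℂ) (i j : ι) : ms x y i j = ms x y j i := by
  unfold ms
  rw [← neg_sub (y i) (y j), ← neg_sub (x i) (x j), neg_div_neg_eq]

theorem WW_monic (E : Finset ℂ) : (WW E).Monic :=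
  monic_prod_of_monic _ _ fun e _ => monic_X_sub_C e

theorem WW_natDegree (E : Finset ℂ) : (WW E).natDegree = E.card := by
  rw [WW, natDegree_prod_of_monic _ _ fun e _ => monic_X_sub_C e]
  simp

theorem WW_root (E : Finset ℂ) (e : ℂ) (he : e ∈ E) : (WW E).eval e = 0 := by
  rw [WW, eval_prod]
  exact Finset.prod_eq_zero he (by simp)

/-- the derivative of WW at a root is not zero -/
theorem WW_der (E : Finset ℂ) (e : ℂ) (he : e ∈ E) : (derivative (WW E)).eval e ≠ 0 := by
  have h1 : WW E = (X - C e) * ∏ a ∈ E.erase e, (X - C a) := by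
    rw [WW]
    exact (Finset.mul_prod_erase _ _ he).symm
  rw [h1, derivative_mul, eval_add, eval_mul, eval_mul]
  simp only [derivative_sub, derivative_X, derivative_C, sub_zero, eval_one, one_mul, eval_sub,
    eval_X, eval_C, sub_self, zero_mul, add_zero]
  rw [eval_prod]
  refine Finset.prod_ne_zero_iff.2 fun a ha => ?_
  simp only [eval_sub, eval_X, eval_C]
  exact sub_ne_zero.2 (Finset.ne_of_mem_erase ha).symm

/-- the polynomials c_l -/
theorem exC (hHPB : SpecHPB) (hTOP : SpecTOP) (hCRX : SpecCRX) (hCLF : SpecCLF)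
    {ι : Type} [Fintype ι] {x y τ : ι → ℂ} {M : ι → Finset ℂ} {E : Finset ℂ}
    (hS : SysB x y τ M E) (hlt : E.card < Fintype.card ι) (i0 : ι) :
    ∃ c : ι → ℂ[X],
      (∀ i j, i ≠ j → (derivative (c i)).eval (ms x y i j) + (derivative (c j)).eval (ms x y i j) =
        (derivative (derivative (WW E))).eval (ms x y i j)) ∧
      ∀ i, (M i).card = 1 → ∀ e ∈ E, e ≠ τ i →
        (e - τ i) * (derivative (c i)).eval e = (e - τ i) * (derivative (derivative (WW E))).eval e -
          ((E.card : ℂ) - 1) * (derivative (WW E)).eval e := by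
  obtain ⟨x', hx'⟩ : ∃ x' : ι → ℂ, ∀ l, x' l = x l - x i0 := ⟨fun l => x l - x i0, fun _ => rfl⟩
  obtain ⟨y', hy'⟩ : ∃ y' : ι → ℂ, ∀ l, y' l = y l - y i0 := ⟨fun l => y l - y i0, fun _ => rfl⟩
  have hms : ∀ a b, ms x' y' a b = ms x y a b := by
    intro a b
    simp only [ms, hx', hy', sub_sub_sub_cancel_right]
  have hS' : SysB x' y' τ M E :=
    { inj := by
        intro a b h
        rw [hx', hx'] at h
        exact hS.inj (sub_left_injective h)
      three := hS.three
      sub := hS.sub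
      tau := hS.tau
      chord := fun a b h => by rw [hms]; exact hS.chord a b h
      tang := fun a b h => by rw [hms]; exact hS.tang a b h
      cover := fun a e he hne => by
        obtain ⟨b, hb, hb'⟩ := hS.cover a e he hne
        exact ⟨b, hb, by rw [hms]; exact hb'⟩ }
  obtain ⟨H, hTD, hH⟩ := hHPB ι x' y' τ M E hS' i0 (by rw [hx', sub_self]) (by rw [hy', sub_self])
  have htop := hTOP ι x' y' E.card (WW E) H hS'.inj hlt (by have := hS.three; omega)
    (WW_monic E) (WW_natDegree E) hTD hH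
  have hneg : ∀ a b, a ≠ b → - x' a ≠ - x' b := fun a b h h' => h (hS'.inj (neg_injective h'))
  have hcross : ∀ a b, a ≠ b → - x' a * ms x y a b + y' a = - x' b * ms x y a b + y' b := by
    intro a b hab
    have hne : x b - x a ≠ 0 := sub_ne_zero.mpr fun h => hab (hS.inj h).symm
    have hm : ms x y a b * (x b - x a) = y b - y a := div_mul_cancel₀ _ hne
    rw [hx', hx', hy', hy']
    linear_combination hm
  have hval : ∀ l, ∀ e ∈ E, e ∉ M l →
      ((derivative H).eval (C (- x' l) * X + C (y' l))).eval e = (derivative (WW E)).eval e := by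
    intro l e he hne
    obtain ⟨b, hb, hb'⟩ := hS.cover l e he hne
    exact (hCRX (WW E) H (- x' l) (y' l) (- x' b) (y' b) e (hneg l b hb.symm)
      (by rw [← hb']; exact hcross l b hb.symm) (WW_root E e he) (hH l) (hH b)).1
  refine ⟨fun l => (derivative H).eval (C (- x' l) * X + C (y' l)), ?_, ?_⟩
  · intro i j hij
    exact (hCRX (WW E) H (- x' i) (y' i) (- x' j) (y' j) _ (hneg i j hij) (hcross i j hij)
      (WW_root E _ (hS.chord i j hij)) (hH i) (hH j)).2
  · intro i hi
    have hMi : ∀ e, e ≠ τ i → e ∉ M i := by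
      intro e he hm
      obtain ⟨a, ha⟩ := Finset.card_eq_one.1 hi
      have h1 := hS.tau i
      rw [ha, Finset.mem_singleton] at h1 hm
      exact he (hm.trans h1.symm)
    exact hCLF E (τ i) _ (hS.sub i (hS.tau i)) (htop i).1 (htop i).2
      fun e he hne => hval i e he (hMi e hne)

end KYBxM

open KYBxM

theorem specKYBx (hHPB : SpecHPB) (hOUT : SpecOUT) (hTOP : SpecTOP) (hCRX : SpecCRX)
    (hCLF : SpecCLF) : SpecKYB := by
  intro ι _ x y τ M E hS hlt
  have hpos : 0 < Fintype.card ι := by omega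
  obtain ⟨i0⟩ : Nonempty ι := Fintype.card_pos_iff.1 hpos
  obtain ⟨c, hc1, hc2⟩ := exC hHPB hTOP hCRX hCLF hS hlt i0
  obtain ⟨W1, hW1⟩ : ∃ W1 : ℂ → ℂ, ∀ e, W1 e = (derivative (WW E)).eval e := ⟨_, fun _ => rfl⟩
  obtain ⟨W2, hW2⟩ : ∃ W2 : ℂ → ℂ, ∀ e, W2 e = (derivative (derivative (WW E))).eval e :=
    ⟨_, fun _ => rfl⟩
  have hm : (E.card : ℂ) - 1 ≠ 0 := by
    have h3 := hS.three
    intro h
    have h1 : (E.card : ℂ) = 1 := sub_eq_zero.1 h
    have h2 : E.card = 1 := by exact_mod_cast h1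
    omega
  have hd : ∀ e ∈ E, W1 e ≠ 0 := fun e he => by rw [hW1]; exact WW_der E e he
  have hne : ∀ i j, i ≠ j → ms x y i j - τ i ≠ 0 := by
    intro i j hij h
    exact hS.tang i j hij (by rw [sub_eq_zero.1 h]; exact hS.tau i)
  refine ⟨fun e => W2 e / (((E.card : ℂ) - 1) * W1 e), ?_⟩
  refine ⟨?_, ?_, ?_⟩
  · intro i j hij hi hj
    have he := hS.chord i j hij
    have hi0 := hne i j hij
    have hj0 : ms x y i j - τ j ≠ 0 := by rw [ms_symm]; exact hne j i hij.symm
    have h1 := hc2 i hi _ he (sub_ne_zero.1 hi0)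
    have h2 := hc2 j hj _ he (sub_ne_zero.1 hj0)
    have h3 := hc1 i j hij
    rw [← hW1, ← hW2] at h1 h2
    rw [← hW2] at h3
    have hw := hd _ he
    show (ms x y i j - τ i)⁻¹ + (ms x y i j - τ j)⁻¹ =
      W2 (ms x y i j) / (((E.card : ℂ) - 1) * W1 (ms x y i j))
    generalize ms x y i j = e at *
    generalize (derivative (c i)).eval e = ci at *
    generalize (derivative (c j)).eval e = cj at *
    rw [eq_div_iff (mul_ne_zero hm hw)]
    field_simp
    linear_combination (e - τ j) * h1 + (e - τ i) * h2 - (e - τ i) * (e - τ j) * h3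
  · intro i j l hi hji hli hjl hjl'
    have he := hS.chord i j hji.symm
    have hi0 := hne i j hji.symm
    have hx : ∀ a b : ι, a ≠ b → x b - x a ≠ 0 := fun a b h =>
      sub_ne_zero.mpr (hS.inj.ne (Ne.symm h))
    have e1 : y j - y i = ms x y i j * (x j - x i) := by
      unfold ms
      rw [div_mul_cancel₀ _ (hx i j (Ne.symm hji))]
    have e2 : y l - y i = ms x y i j * (x l - x i) := by
      rw [hjl']
      unfold ms
      rw [div_mul_cancel₀ _ (hx i l (Ne.symm hli))]
    have e3 : ms x y j l = ms x y i j := by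
      have h1 : y l - y j = ms x y i j * (x l - x j) := by linear_combination e2 - e1
      have h2 : ms x y j l = (y l - y j) / (x l - x j) := rfl
      rw [h2, h1, mul_div_assoc, div_self (hx j l hjl), mul_one]
    have k1 := hc1 i j hji.symm
    have k2 := hc1 i l hli.symm
    have k3 := hc1 j l hjl
    rw [← hjl'] at k2
    rw [e3] at k3
    have h1 := hc2 i hi _ he (sub_ne_zero.1 hi0)
    rw [← hW1, ← hW2] at h1
    rw [← hW2] at k1 k2 k3
    have hw := hd _ he
    show (ms x y i j - τ i)⁻¹ + (ms x y i j - τ i)⁻¹ =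
      W2 (ms x y i j) / (((E.card : ℂ) - 1) * W1 (ms x y i j))
    generalize ms x y i j = e at *
    generalize (derivative (c i)).eval e = ci at *
    generalize (derivative (c j)).eval e = cj at *
    generalize (derivative (c l)).eval e = cl at *
    rw [eq_div_iff (mul_ne_zero hm hw)]
    field_simp
    linear_combination (2 : ℂ) * h1 - (e - τ i) * (k1 + k2 - k3)
  · intro t ht
    obtain ⟨e, he, het, hne'⟩ := hOUT E t hS.three ht
    refine ⟨e, he, het, fun hr => hne' ?_⟩
    have hr' : (e - t)⁻¹ + (e - t)⁻¹ = W2 e / (((E.card : ℂ) - 1) * W1 e) := hr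
    have hw := hd e he
    have h0 : e - t ≠ 0 := sub_ne_zero.2 het
    rw [← hW1, ← hW2]
    rw [eq_div_iff (mul_ne_zero hm hw)] at hr'
    field_simp at hr'
    linear_combination (-1 : ℂ) * hr'

end Pool.Agent.Lib.MP_70c3c6_co.GP
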