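import Pool.Agent.Lib.MP_70c3c6_co.GP.Spec

/-!
MP_70c3c6_co, GP, module MOB: two directions exchanging the same two classes give a similarity.
-/

set_option autoImplicit false
open Classical Polynomial Pointwise

namespace Pool.Agent.Lib.MP_70c3c6_co.GP

open Pool.Agent.Lib.MP_70c3c6_co.EQ
open Pool.Agent.Lib.MP_70c3c6_co.FG

namespace MOBM

theorem rel (a p p' q : ℂ) (ha : a ≠ 0) (hp : p ≠ 0) (hp' : p' ≠ 0) (hq : q ≠ 0)
    (h1 : a - p ≠ 0) (h2 : a - p' ≠ 0) (h3 : a - q ≠ 0)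
    (h : (a - p)⁻¹ + (a - p')⁻¹ = a⁻¹ + (a - q)⁻¹) :
    (p'⁻¹ - q⁻¹) * (p⁻¹ - q⁻¹) = (a⁻¹ - q⁻¹) ^ 2 := by
  rw [inv_add_inv h1 h2, inv_add_inv ha h3,
    div_eq_div_iff (mul_ne_zero h1 h2) (mul_ne_zero ha h3)] at h
  rw [inv_sub_inv hp' hq, inv_sub_inv hp hq, inv_sub_inv ha hq, div_mul_div_comm, div_pow,
    div_eq_div_iff (mul_ne_zero (mul_ne_zero hp' hq) (mul_ne_zero hp hq))
      (pow_ne_zero 2 (mul_ne_zero ha hq))]
  linear_combination (-q ^ 3) * h

theorem part (T : Finset ℂ) (lam : ℂ → ℂ) (t w : ℂ) (htw : t ≠ w)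
    (e : ℂ) (h1 : e ≠ t) (h2 : e ≠ w) (h : (e - t)⁻¹ + (e - w)⁻¹ = lam e) (s : ℂ) (hsT : s ∈ T)
    (hst : s ≠ t) (hsw : s ≠ w) (hU : s ∉ UU T lam e) :
    ∃ s' ∈ T, s' ≠ t ∧ s' ≠ w ∧
      ((s' - t)⁻¹ - (w - t)⁻¹) * ((s - t)⁻¹ - (w - t)⁻¹) = ((e - t)⁻¹ - (w - t)⁻¹) ^ 2 := by
  by_cases hse : s = e
  · refine ⟨s, hsT, hst, hsw, ?_⟩
    rw [hse, sq]
  · unfold UU at hU
    rw [Finset.mem_filter] at hU
    push Not at hU
    obtain ⟨s', hs'T, hs'e, hs'⟩ := hU hsT hse
    unfold Rel at hs'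
    rw [← h] at hs'
    have hs't : s' ≠ t := by
      intro hh
      rw [hh, add_comm] at hs'
      have h5 := add_left_cancel hs'
      exact hsw (sub_right_injective (inv_injective h5))
    have hs'w : s' ≠ w := by
      intro hh
      rw [hh] at hs'
      have h5 := add_right_cancel hs'
      exact hst (sub_right_injective (inv_injective h5))
    refine ⟨s', hs'T, hs't, hs'w, ?_⟩
    have e1 : e - s = (e - t) - (s - t) := by ring
    have e2 : e - s' = (e - t) - (s' - t) := by ring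
    have e3 : e - w = (e - t) - (w - t) := by ring
    have n1 : (e - t) - (s - t) ≠ 0 := by
      rw [← e1]; exact sub_ne_zero.mpr fun hh => hse hh.symm
    have n2 : (e - t) - (s' - t) ≠ 0 := by
      rw [← e2]; exact sub_ne_zero.mpr fun hh => hs'e hh.symm
    have n3 : (e - t) - (w - t) ≠ 0 := by
      rw [← e3]; exact sub_ne_zero.mpr h2
    rw [e1, e2, e3] at hs'
    exact rel (e - t) (s - t) (s' - t) (w - t) (sub_ne_zero.mpr h1) (sub_ne_zero.mpr hst)
      (sub_ne_zero.mpr hs't) (sub_ne_zero.mpr htw.symm) n1 n2 n3 hs'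

/-- the similarity with centre `c` and factor `a` -/
noncomputable def sim (c a : ℂ) (ha : a ≠ 0) : Equiv.Perm ℂ where
  toFun z := c + a * (z - c)
  invFun z := c + a⁻¹ * (z - c)
  left_inv z := by
    show c + a⁻¹ * (c + a * (z - c) - c) = z
    rw [add_sub_cancel_left, ← mul_assoc, inv_mul_cancel₀ ha]
    ring
  right_inv z := by
    show c + a * (c + a⁻¹ * (z - c) - c) = z
    rw [add_sub_cancel_left, ← mul_assoc, mul_inv_cancel₀ ha]
    ring

theorem sim_apply (c a : ℂ) (ha : a ≠ 0) (z : ℂ) : sim c a ha z = c + a * (z - c) := rfl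

end MOBM

open MOBM

theorem specMOB : SpecMOB := by
  intro T lam t w e e' ht hw htw h1 h2 h3 h4 h5 h6 hne
  set om : ℂ := (w - t)⁻¹ with hom
  have hx : ∀ d : ℂ, d ≠ w → (d - t)⁻¹ - om ≠ 0 := by
    intro d hd h0
    apply hd
    exact sub_left_injective (inv_injective (sub_eq_zero.mp h0))
  set ρ : ℂ := ((e - t)⁻¹ - om) ^ 2 with hρ
  set ρ' : ℂ := ((e' - t)⁻¹ - om) ^ 2 with hρ'
  have hρ0 : ρ ≠ 0 := pow_ne_zero 2 (hx e h2)
  have hρ'0 : ρ' ≠ 0 := pow_ne_zero 2 (hx e' h4)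
  have ha : ρ / ρ' ≠ 0 := div_ne_zero hρ0 hρ'0
  refine ⟨sim om (ρ / ρ') ha, ?_, ⟨ρ / ρ', om - ρ / ρ' * om, ha, ?_⟩, ?_, ?_⟩
  · intro hh
    have h7 : sim om (ρ / ρ') ha (om + 1) = om + 1 := by rw [hh]; rfl
    rw [sim_apply, add_sub_cancel_left, mul_one] at h7
    have h8 : ρ / ρ' = 1 := add_left_cancel h7
    exact hne ((div_eq_one_iff_eq hρ'0).1 h8)
  · intro z
    rw [sim_apply]
    ring
  · rw [sim_apply, sub_self, mul_zero, add_zero]
  · unfold dfc
    set Y : ℂ → ℂ := fun s => (s - t)⁻¹ with hY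
    have hsub : (((T.erase t).image Y).filter fun s => sim om (ρ / ρ') ha s ∉ (T.erase t).image Y) ⊆
        (UU T lam e).image (fun s' => om + ρ' * (Y s' - om)⁻¹) ∪ (UU T lam e').image Y := by
      intro z hz
      rw [Finset.mem_filter, Finset.mem_image] at hz
      obtain ⟨⟨s, hs, hsz⟩, hz⟩ := hz
      rw [Finset.mem_erase] at hs
      have hsw : s ≠ w := by
        intro hh
        apply hz
        have h7 : z = om := by rw [← hsz, hh]
        rw [h7, sim_apply, sub_self, mul_zero, add_zero, Finset.mem_image]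
        exact ⟨w, Finset.mem_erase.mpr ⟨htw.symm, hw⟩, rfl⟩
      rw [Finset.mem_union]
      by_cases hU' : s ∈ UU T lam e'
      · right
        exact Finset.mem_image.mpr ⟨s, hU', hsz⟩
      · left
        obtain ⟨s', hs'T, hs't, hs'w, r'⟩ := part T lam t w htw e' h3 h4 h6 s hs.2 hs.1 hsw hU'
        have r1 : (Y s' - om) * (Y s - om) = ρ' := r'
        have n1 : Y s' - om ≠ 0 := hx s' hs'w
        by_cases hU : s' ∈ UU T lam e
        · refine Finset.mem_image.mpr ⟨s', hU, ?_⟩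
          rw [← hsz, ← r1]
          field_simp
          ring
        · exfalso
          apply hz
          obtain ⟨s'', hs''T, hs''t, hs''w, r⟩ :=
            part T lam t w htw e h1 h2 h5 s' hs'T hs't hs'w hU
          have r2 : (Y s'' - om) * (Y s' - om) = ρ := r
          rw [Finset.mem_image]
          refine ⟨s'', Finset.mem_erase.mpr ⟨hs''t, hs''T⟩, ?_⟩
          rw [sim_apply, ← hsz]
          have h7 : ρ / ρ' * (Y s - om) = Y s'' - om := by
            rw [div_mul_eq_mul_div, div_eq_iff hρ'0, ← r1, ← r2]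
            ring
          rw [h7]
          ring
    refine (Finset.card_le_card hsub).trans ((Finset.card_union_le _ _).trans ?_)
    exact add_le_add Finset.card_image_le Finset.card_image_le

end Pool.Agent.Lib.MP_70c3c6_co.GP
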