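import Pool.Agent.Lib.MP_70c3c6_co.GP.Spec2

/-!
Module PIF: too many near-symmetries with prescribed centres, by the linear growth of the powers of
a symmetric set of similarities without common fixed point.
-/

set_option autoImplicit false
open Classical Polynomial Pointwise

namespace Pool.Agent.Lib.MP_70c3c6_co.GP

open Pool.Agent.Lib.MP_70c3c6_co.EQ
open Pool.Agent.Lib.MP_70c3c6_co.FG

namespace PIFM

lemma aff_one : Aff 1 := ⟨1, 0, one_ne_zero, fun z => by rw [Equiv.Perm.one_apply]; ring⟩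

lemma aff_mul {g h : Equiv.Perm ℂ} (hg : Aff g) (hh : Aff h) : Aff (g * h) := by
  obtain ⟨a, b, ha, hab⟩ := hg
  obtain ⟨c, d, hc, hcd⟩ := hh
  refine ⟨a * c, a * d + b, mul_ne_zero ha hc, fun z => ?_⟩
  rw [Equiv.Perm.mul_apply, hab, hcd]
  ring

lemma aff_inv {h : Equiv.Perm ℂ} (hh : Aff h) : Aff h⁻¹ := by
  obtain ⟨a, b, ha, hab⟩ := hh
  refine ⟨a⁻¹, -(a⁻¹ * b), inv_ne_zero ha, fun z => ?_⟩
  have h1 : h (h⁻¹ z) = z := by
    rw [← Equiv.Perm.mul_apply, mul_inv_cancel, Equiv.Perm.one_apply]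
  rw [hab] at h1
  have h2 : h⁻¹ z = a⁻¹ * (a * h⁻¹ z) := by rw [← mul_assoc, inv_mul_cancel₀ ha, one_mul]
  have h3 : a * h⁻¹ z = z - b := by linear_combination h1
  rw [h2, h3]
  ring

lemma fix_unique {h : Equiv.Perm ℂ} (hh : Aff h) (h1 : h ≠ 1) {w w' : ℂ} (hw : h w = w)
    (hw' : h w' = w') : w = w' := by
  obtain ⟨a, b, ha, hab⟩ := hh
  by_contra hne
  apply h1
  have e1 := hab w
  have e2 := hab w'
  rw [hw] at e1
  rw [hw'] at e2
  have e3 : (a - 1) * (w - w') = 0 := by linear_combination e2 - e1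
  have ha1 : a = 1 := by
    rcases mul_eq_zero.mp e3 with h | h
    · exact sub_eq_zero.mp h
    · exact absurd (sub_eq_zero.mp h) hne
  have hb : b = 0 := by
    rw [ha1] at e1
    linear_combination (-1 : ℂ) * e1
  refine Equiv.ext fun z => ?_
  rw [hab, ha1, hb, Equiv.Perm.one_apply]
  ring

lemma dfc_mul (T : Finset ℂ) (g h : Equiv.Perm ℂ) : dfc T (g * h) ≤ dfc T g + dfc T h := by
  have h1 : (T.filter fun s => (g * h) s ∉ T) ⊆
      (T.filter fun s => h s ∈ T ∧ g (h s) ∉ T) ∪ (T.filter fun s => h s ∉ T) := by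
    intro s hs
    rw [Finset.mem_filter, Equiv.Perm.mul_apply] at hs
    rw [Finset.mem_union, Finset.mem_filter, Finset.mem_filter]
    by_cases hm : h s ∈ T
    · exact Or.inl ⟨hs.1, hm, hs.2⟩
    · exact Or.inr ⟨hs.1, hm⟩
  have h2 : (T.filter fun s => h s ∈ T ∧ g (h s) ∉ T).card ≤ dfc T g := by
    unfold dfc
    refine Finset.card_le_card_of_injOn (fun s => h s) ?_ (fun a _ b _ hab => h.injective hab)
    intro s hs
    have hs' := Finset.mem_filter.mp (Finset.mem_coe.mp hs)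
    exact Finset.mem_coe.mpr (Finset.mem_filter.mpr ⟨hs'.2.1, hs'.2.2⟩)
  have h3 : dfc T (g * h) ≤ ((T.filter fun s => h s ∈ T ∧ g (h s) ∉ T) ∪
      (T.filter fun s => h s ∉ T)).card := Finset.card_le_card h1
  have h4 := Finset.card_union_le (T.filter fun s => h s ∈ T ∧ g (h s) ∉ T)
    (T.filter fun s => h s ∉ T)
  have h5 : (T.filter fun s => h s ∉ T).card = dfc T h := rfl
  omega

lemma dfc_one (T : Finset ℂ) : dfc T 1 = 0 := by
  unfold dfc
  rw [Finset.card_eq_zero, Finset.filter_eq_empty_iff]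
  intro s hs hn
  exact hn (by rw [Equiv.Perm.one_apply]; exact hs)

lemma card_split (T : Finset ℂ) (h : Equiv.Perm ℂ) :
    (T.filter fun s => h s ∈ T).card + dfc T h = T.card :=
  Finset.card_filter_add_card_filter_not (s := T) (fun s => h s ∈ T)

lemma dfc_inv (T : Finset ℂ) (h : Equiv.Perm ℂ) : dfc T h⁻¹ ≤ dfc T h := by
  have h1 : (T.filter fun s => h s ∈ T).card ≤ (T.filter fun s => h⁻¹ s ∈ T).card := by
    refine Finset.card_le_card_of_injOn (fun s => h s) ?_ (fun a _ b _ hab => h.injective hab)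
    intro s hs
    have hs' := Finset.mem_filter.mp (Finset.mem_coe.mp hs)
    refine Finset.mem_coe.mpr (Finset.mem_filter.mpr ⟨hs'.2, ?_⟩)
    have e : h⁻¹ (h s) = s := by
      rw [← Equiv.Perm.mul_apply, inv_mul_cancel, Equiv.Perm.one_apply]
    show h⁻¹ (h s) ∈ T
    rw [e]
    exact hs'.1
  have h2 := card_split T h
  have h3 := card_split T h⁻¹
  omega

/-- powers of a set of near-symmetries -/
lemma pow_mem {T : Finset ℂ} {v : ℕ} {A : Finset (Equiv.Perm ℂ)}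
    (hA : ∀ a ∈ A, Aff a ∧ dfc T a ≤ v) : ∀ j : ℕ, ∀ a ∈ A ^ j, Aff a ∧ dfc T a ≤ j * v := by
  intro j
  induction j with
  | zero =>
    intro a ha
    rw [pow_zero, Finset.mem_one] at ha
    rw [ha]
    exact ⟨aff_one, by rw [dfc_one]; exact Nat.zero_le _⟩
  | succ j ih =>
    intro x hx
    rw [pow_succ] at hx
    obtain ⟨g, hg, a, ha, rfl⟩ := Finset.mem_mul.mp hx
    have h1 := ih g hg
    have h2 := hA a ha
    refine ⟨aff_mul h1.1 h2.1, (dfc_mul T g a).trans ?_⟩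
    rw [Nat.add_mul, Nat.one_mul]
    exact Nat.add_le_add h1.2 h2.2

lemma mono {A : Finset (Equiv.Perm ℂ)} (h1 : 1 ∈ A) (j : ℕ) : A ^ j ⊆ A ^ (j + 1) := by
  intro a ha
  rw [pow_succ]
  exact Finset.mem_mul.mpr ⟨a, ha, 1, h1, mul_one a⟩

/-- a stable finite set gives a common fixed point -/
lemma fixed {A B : Finset (Equiv.Perm ℂ)} (hB : B.Nonempty) (hAB : ∀ h ∈ A, ∀ g ∈ B, h * g ∈ B) :
    ∃ w0 : ℂ, ∀ h ∈ A, Aff h → h w0 = w0 := by
  have hc : (B.card : ℂ) ≠ 0 := by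
    have : B.card ≠ 0 := Finset.card_ne_zero.mpr hB
    exact_mod_cast this
  refine ⟨(B.card : ℂ)⁻¹ * ∑ g ∈ B, g 0, fun h hh hA => ?_⟩
  obtain ⟨a, b, ha, hab⟩ := hA
  have himg : B.image (fun g => h * g) = B := by
    refine Finset.eq_of_subset_of_card_le ?_ ?_
    · intro x hx
      obtain ⟨g, hg, rfl⟩ := Finset.mem_image.mp hx
      exact hAB h hh g hg
    · rw [Finset.card_image_of_injective _ (mul_right_injective h)]
  have hsum : ∑ g ∈ B, h (g 0) = ∑ g ∈ B, g 0 := by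
    have h1 : ∑ g ∈ B.image (fun g => h * g), g 0 = ∑ g ∈ B, (h * g) 0 :=
      Finset.sum_image (fun x _ y _ hxy => mul_right_injective h hxy)
    rw [himg] at h1
    rw [h1]
    exact Finset.sum_congr rfl fun g _ => (Equiv.Perm.mul_apply h g 0).symm
  have hsum2 : ∑ g ∈ B, h (g 0) = a * ∑ g ∈ B, g 0 + B.card * b := by
    rw [Finset.mul_sum, ← nsmul_eq_mul, ← Finset.sum_const, ← Finset.sum_add_distrib]
    exact Finset.sum_congr rfl fun g _ => hab (g 0)
  rw [hab, ← mul_right_inj' hc, mul_add, ← mul_assoc, mul_comm (B.card : ℂ) a, mul_assoc,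
    ← mul_assoc (B.card : ℂ), mul_inv_cancel₀ hc, one_mul, ← hsum2, hsum]

/-- linear growth -/
lemma growth {A : Finset (Equiv.Perm ℂ)} (hinv : ∀ a ∈ A, a⁻¹ ∈ A) (h1 : 1 ∈ A)
    (hne : ∀ j : ℕ, ∃ x ∈ A ^ (j + 1), x ∉ A ^ j) :
    ∀ n : ℕ, (n + 1) * A.card ≤ (A ^ (3 * n + 1)).card := by
  intro n
  induction n with
  | zero => rw [Nat.mul_zero, Nat.zero_add, pow_one, Nat.one_mul]
  | succ n ih =>
    obtain ⟨x, hx, hx'⟩ := hne (3 * n + 2)
    have hsub : A ^ (3 * n + 1) ∪ A.image (fun a => x * a) ⊆ A ^ (3 * (n + 1) + 1) := by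
      intro y hy
      rcases Finset.mem_union.mp hy with h | h
      · have e1 := mono h1 (3 * n + 1) h
        have e2 := mono h1 (3 * n + 1 + 1) e1
        have e3 := mono h1 (3 * n + 1 + 1 + 1) e2
        have e4 : 3 * (n + 1) + 1 = 3 * n + 1 + 1 + 1 + 1 := by ring
        rw [e4]
        exact e3
      · obtain ⟨a, ha, rfl⟩ := Finset.mem_image.mp h
        have e4 : 3 * (n + 1) + 1 = (3 * n + 2 + 1) + 1 := by ring
        rw [e4, pow_succ]
        exact Finset.mem_mul.mpr ⟨x, hx, a, ha, rfl⟩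
    have hdis : Disjoint (A ^ (3 * n + 1)) (A.image (fun a => x * a)) := by
      rw [Finset.disjoint_left]
      intro y hy hy'
      obtain ⟨a, ha, rfl⟩ := Finset.mem_image.mp hy'
      apply hx'
      have e1 : 3 * n + 2 = (3 * n + 1) + 1 := by ring
      rw [e1, pow_succ]
      exact Finset.mem_mul.mpr ⟨x * a, hy, a⁻¹, hinv a ha, by rw [mul_assoc, mul_inv_cancel, mul_one]⟩
    have hcard := Finset.card_le_card hsub
    rw [Finset.card_union_of_disjoint hdis,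
      Finset.card_image_of_injective _ (mul_right_injective x)] at hcard
    calc (n + 1 + 1) * A.card = (n + 1) * A.card + A.card := by ring
      _ ≤ (A ^ (3 * n + 1)).card + A.card := Nat.add_le_add_right ih _
      _ ≤ _ := hcard

end PIFM

/-- PIF. -/
theorem specPIF (hNN6 : SpecNN6) : SpecPIF := by
  intro T v h2 hv hT
  choose! f hf using hT
  obtain ⟨A, hA⟩ : ∃ A : Finset (Equiv.Perm ℂ),
      A = insert 1 (T.image f ∪ T.image fun w => (f w)⁻¹) := ⟨_, rfl⟩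
  have hmem : ∀ a, a ∈ A ↔ a = 1 ∨ (∃ w ∈ T, f w = a) ∨ ∃ w ∈ T, (f w)⁻¹ = a := by
    intro a
    rw [hA, Finset.mem_insert, Finset.mem_union, Finset.mem_image, Finset.mem_image]
  have h1A : (1 : Equiv.Perm ℂ) ∈ A := (hmem 1).mpr (Or.inl rfl)
  have hfA : ∀ w ∈ T, f w ∈ A := fun w hw => (hmem _).mpr (Or.inr (Or.inl ⟨w, hw, rfl⟩))
  have hinv : ∀ a ∈ A, a⁻¹ ∈ A := by
    intro a ha
    rcases (hmem a).mp ha with h | ⟨w, hw, h⟩ | ⟨w, hw, h⟩
    · rw [h, inv_one]; exact h1A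
    · rw [← h]; exact (hmem _).mpr (Or.inr (Or.inr ⟨w, hw, rfl⟩))
    · rw [← h, inv_inv]; exact hfA w hw
  have hAff : ∀ a ∈ A, Aff a ∧ dfc T a ≤ v := by
    intro a ha
    rcases (hmem a).mp ha with h | ⟨w, hw, h⟩ | ⟨w, hw, h⟩
    · rw [h]; exact ⟨PIFM.aff_one, by rw [PIFM.dfc_one]; exact Nat.zero_le _⟩
    · rw [← h]; exact ⟨(hf w hw).2.1, (hf w hw).2.2.2⟩
    · rw [← h]
      exact ⟨PIFM.aff_inv (hf w hw).2.1, (PIFM.dfc_inv T (f w)).trans (hf w hw).2.2.2⟩
  have hinj : Set.InjOn f T := by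
    intro w hw w' hw' he
    have a1 := hf w (Finset.mem_coe.mp hw)
    have a2 := hf w' (Finset.mem_coe.mp hw')
    refine PIFM.fix_unique a1.2.1 a1.1 a1.2.2.1 ?_
    rw [he]
    exact a2.2.2.1
  have hcardA : T.card + 1 ≤ A.card := by
    have e1 : (1 : Equiv.Perm ℂ) ∉ T.image f := by
      intro h
      obtain ⟨w, hw, h'⟩ := Finset.mem_image.mp h
      exact (hf w hw).1 h'
    have e2 : (insert 1 (T.image f)).card = T.card + 1 := by
      rw [Finset.card_insert_of_notMem e1, Finset.card_image_of_injOn hinj]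
    rw [← e2]
    refine Finset.card_le_card fun a ha => ?_
    rcases Finset.mem_insert.mp ha with h | h
    · rw [h]; exact h1A
    · obtain ⟨w, hw, h'⟩ := Finset.mem_image.mp h
      rw [← h']; exact hfA w hw
  have hne : ∀ j : ℕ, ∃ x ∈ A ^ (j + 1), x ∉ A ^ j := by
    intro j
    by_contra hno
    push Not at hno
    have h1j : (1 : Equiv.Perm ℂ) ∈ A ^ j := by
      have h3 : ∀ i : ℕ, (1 : Equiv.Perm ℂ) ∈ A ^ i := by
        intro i
        induction i with
        | zero => rw [pow_zero]; exact Finset.one_mem_one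
        | succ i ih => exact PIFM.mono h1A i ih
      exact h3 j
    obtain ⟨w0, hw0⟩ := PIFM.fixed (A := A) (B := A ^ j) ⟨1, h1j⟩ (fun h hh g hg => by
      refine hno _ ?_
      rw [pow_succ']
      exact Finset.mem_mul.mpr ⟨h, hh, g, hg, rfl⟩)
    have hall : ∀ w ∈ T, w = w0 := by
      intro w hw
      have a1 := hf w hw
      exact PIFM.fix_unique a1.2.1 a1.1 a1.2.2.1 (hw0 (f w) (hfA w hw) a1.2.1)
    have hc : T.card ≤ 1 := by
      rw [Finset.card_le_one]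
      intro a ha b hb
      rw [hall a ha, hall b hb]
    omega
  obtain ⟨m, hm⟩ : ∃ m : ℕ, m = 3 * 11 + 1 := ⟨_, rfl⟩
  have h34 := PIFM.growth hinv h1A hne 11
  rw [← hm] at h34
  have hS := hNN6 T (m * v) (A ^ m) h2 (fun h hh => PIFM.pow_mem hAff m h hh)
  obtain ⟨s, hs⟩ : ∃ s, s = (A ^ m).card := ⟨_, rfl⟩
  obtain ⟨N, hN⟩ : ∃ N, N = T.card := ⟨_, rfl⟩
  rw [← hs, ← hN] at hS
  rw [← hs] at h34
  rw [← hN] at hv h2 hcardA
  have hm' : m = 34 := by rw [hm]
  rw [hm'] at hS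
  have k1 : 12 * (N + 1) ≤ s := by omega
  have k2 : 884 * v * s ≤ N * s := Nat.mul_le_mul_right _ hv
  have k3 : 2 * (s * N) ≤ 12 * N ^ 2 + 884 * v * s := by
    calc 2 * (s * N) ≤ 2 * (6 * N ^ 2 + 13 * (34 * v) * s) := Nat.mul_le_mul_left _ hS
      _ = 12 * N ^ 2 + 884 * v * s := by ring
  have k4 : s * N ≤ 12 * N ^ 2 := by nlinarith
  have k5 : 12 * (N + 1) * N ≤ s * N := Nat.mul_le_mul_right _ k1
  nlinarith

end Pool.Agent.Lib.MP_70c3c6_co.GP
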