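import Pool.Agent.Lib.MP_70c3c6_co.GP.Spec

/-! MP_70c3c6_co, the gap theorem: the module PRB (good points see every other slope once). -/

set_option autoImplicit false
open Classical

namespace Pool.Agent.Lib.MP_70c3c6_co.GP

open Pool.Agent.Lib.MP_70c3c6_co.EQ
open Pool.Agent.Lib.MP_70c3c6_co.FG

theorem specPRB : SpecPRB := by
  intro ι _ x y τ M E h hcard i hi
  obtain ⟨t, ht⟩ := Finset.card_eq_one.1 hi
  have hti : t = τ i := by
    have := h.tau i
    rw [ht, Finset.mem_singleton] at this
    exact this.symm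
  have hMi : M i = {τ i} := by rw [ht, hti]
  have htE : τ i ∈ E := h.sub i (h.tau i)
  have hnot : τ i ∉ (Finset.univ.erase i).image (ms x y i) := by
    intro hmem
    obtain ⟨j, hj, hji⟩ := Finset.mem_image.1 hmem
    have hne : i ≠ j := (Finset.ne_of_mem_erase hj).symm
    apply h.tang i j hne
    rw [hji]
    exact h.tau i
  have hsub1 : (Finset.univ.erase i).image (ms x y i) ⊆ E.erase (τ i) := by
    intro e he
    rw [Finset.mem_erase]
    refine ⟨?_, ?_⟩
    · rintro rfl
      exact hnot he
    · obtain ⟨j, hj, rfl⟩ := Finset.mem_image.1 he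
      exact h.chord i j (Finset.ne_of_mem_erase hj).symm
  have hsub2 : E.erase (τ i) ⊆ (Finset.univ.erase i).image (ms x y i) := by
    intro e he
    rw [Finset.mem_erase] at he
    obtain ⟨j, hji, hj⟩ := h.cover i e he.2 (by
      rw [hMi, Finset.mem_singleton]
      exact he.1)
    exact Finset.mem_image.2 ⟨j, Finset.mem_erase.2 ⟨hji, Finset.mem_univ j⟩, hj⟩
  have heq : (Finset.univ.erase i).image (ms x y i) = E.erase (τ i) := Finset.Subset.antisymm hsub1 hsub2
  refine ⟨hnot, ?_, ?_⟩
  · rw [heq, Finset.insert_erase htE]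
  · apply Finset.card_image_iff.1
    rw [heq, Finset.card_erase_of_mem htE, Finset.card_erase_of_mem (Finset.mem_univ i), hcard,
      Finset.card_univ]

end Pool.Agent.Lib.MP_70c3c6_co.GP
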