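import Pool.Agent.Lib.MP_70c3c6_co.GP.Spec

/-!
# MP_70c3c6_co, GP: module RCH (every good point is on a line with three points)
-/

set_option autoImplicit false
open Classical Polynomial Pointwise

namespace Pool.Agent.Lib.MP_70c3c6_co.GP

open Pool.Agent.Lib.MP_70c3c6_co.EQ
open Pool.Agent.Lib.MP_70c3c6_co.FG

theorem specRCH : SpecRCH := by
  intro ι _ x y τ M E H hlt i _
  have hcard : (E.erase (τ i)).card < (Finset.univ.erase i : Finset ι).card := by
    rw [Finset.card_erase_of_mem (H.sub i (H.tau i)), Finset.card_erase_of_mem (Finset.mem_univ i),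
      Finset.card_univ]
    have h2 := H.three
    omega
  obtain ⟨j, hj, l, hl, hjl, he⟩ := Finset.exists_ne_map_eq_of_card_lt_of_maps_to hcard
    (f := fun j => ms x y i j) (fun j hj => by
      have hj' : j ≠ i := (Finset.mem_erase.mp hj).1
      refine Finset.mem_erase.mpr ⟨fun h => H.tang i j (Ne.symm hj') ?_, H.chord i j (Ne.symm hj')⟩
      have h' : ms x y i j = τ i := h
      rw [h']
      exact H.tau i)
  exact ⟨j, l, (Finset.mem_erase.mp hj).1, (Finset.mem_erase.mp hl).1, hjl, he⟩

end Pool.Agent.Lib.MP_70c3c6_co.GP
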