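import Pool.Agent.Lib.MP_70c3c6_co.GP.Spec

/-!
# Module SLB: the lemma of tangents for good points (copy of EQ/SLP.lean)
-/

set_option autoImplicit false
open Classical

namespace Pool.Agent.Lib.MP_70c3c6_co.GP

open Pool.Agent.Lib.MP_70c3c6_co.EQ

namespace SLBM

theorem ms_symm {ι : Type} (x y : ι → ℂ) (i j : ι) : ms x y i j = ms x y j i := by
  unfold ms
  rw [← neg_sub (y i) (y j), ← neg_sub (x i) (x j), neg_div_neg_eq]

/-- the product over `E` without `m = ms x y i j` -/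
theorem prodE (hPRB : SpecPRB) (ι : Type) [Fintype ι] (x y τ : ι → ℂ) (M : ι → Finset ℂ)
    (E : Finset ℂ) (hS : SysB x y τ M E) (hc : E.card = Fintype.card ι) (i j : ι) (hij : i ≠ j)
    (hi : (M i).card = 1) :
    ∏ e ∈ E.erase (ms x y i j), (ms x y i j - e) =
      (ms x y i j - τ i) * ∏ l ∈ (Finset.univ.erase i).erase j, (ms x y i j - ms x y i l) := by
  obtain ⟨h1, h2, h3⟩ := hPRB ι x y τ M E hS hc i hi
  have hj : j ∈ (Finset.univ.erase i : Finset ι) := Finset.mem_erase.2 ⟨hij.symm, Finset.mem_univ _⟩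
  have hτ : ms x y i j ≠ τ i := fun h => hS.tang i j hij (h ▸ hS.tau i)
  have e1 : E.erase (ms x y i j) =
      insert (τ i) (((Finset.univ.erase i).erase j).image (ms x y i)) := by
    conv_lhs => rw [h2]
    rw [Finset.erase_insert_of_ne hτ.symm]
    congr 1
    ext z
    simp only [Finset.mem_erase, Finset.mem_image, Finset.mem_univ, and_true]
    constructor
    · rintro ⟨hz, l, hl, rfl⟩
      exact ⟨l, ⟨fun h => hz (by rw [h]), hl⟩, rfl⟩
    · rintro ⟨l, ⟨hlj, hli⟩, rfl⟩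
      refine ⟨fun h => ?_, l, hli, rfl⟩
      exact hlj (h3 (Finset.mem_coe.2 (Finset.mem_erase.2 ⟨hli, Finset.mem_univ _⟩))
        (Finset.mem_coe.2 hj) h)
  have h4 : τ i ∉ ((Finset.univ.erase i).erase j).image (ms x y i) := by
    intro h
    apply h1
    exact Finset.image_subset_image (Finset.erase_subset _ _) h
  rw [e1, Finset.prod_insert h4, Finset.prod_image]
  intro a ha b hb hab
  exact h3 (Finset.mem_coe.2 (Finset.mem_of_mem_erase ha))
    (Finset.mem_coe.2 (Finset.mem_of_mem_erase hb)) hab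

/-- a good point sees each slope but `τ i` once -/
theorem sep (hPRB : SpecPRB) (ι : Type) [Fintype ι] (x y τ : ι → ℂ) (M : ι → Finset ℂ)
    (E : Finset ℂ) (hS : SysB x y τ M E) (hc : E.card = Fintype.card ι) (i : ι)
    (hi : (M i).card = 1) (j l : ι) (hj : j ≠ i) (hl : l ≠ i) (hjl : j ≠ l) :
    ms x y i j ≠ ms x y i l := by
  obtain ⟨_, _, h3⟩ := hPRB ι x y τ M E hS hc i hi
  intro h
  exact hjl (h3 (Finset.mem_coe.2 (Finset.mem_erase.2 ⟨hj, Finset.mem_univ _⟩))
    (Finset.mem_coe.2 (Finset.mem_erase.2 ⟨hl, Finset.mem_univ _⟩)) h)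

theorem key (hPRB : SpecPRB) (ι : Type) [Fintype ι] (x y τ : ι → ℂ) (M : ι → Finset ℂ)
    (E : Finset ℂ) (hS : SysB x y τ M E) (hc : E.card = Fintype.card ι) (i j : ι) (hij : i ≠ j)
    (hi : (M i).card = 1) (hj : (M j).card = 1) :
    (ms x y i j - τ i) * ∏ l ∈ Finset.univ.erase j, (x l - x j) =
      - ((ms x y i j - τ j) * ∏ l ∈ Finset.univ.erase i, (x l - x i)) := by
  set m := ms x y i j with hm
  have hxij : x j - x i ≠ 0 := sub_ne_zero.2 fun h => hij (hS.inj h).symm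
  have hme : m * (x j - x i) = y j - y i := by
    rw [hm]; unfold ms
    exact div_mul_cancel₀ _ hxij
  have p1 := prodE hPRB ι x y τ M E hS hc i j hij hi
  have p2 := prodE hPRB ι x y τ M E hS hc j i hij.symm hj
  rw [← ms_symm x y i j, p1] at p2
  obtain ⟨S, hSd⟩ : ∃ S : Finset ι, S = (Finset.univ.erase i).erase j := ⟨_, rfl⟩
  have hSe : (Finset.univ.erase j).erase i = S := by rw [hSd, Finset.erase_right_comm]
  rw [hSe, ← hSd, ← hm] at p2
  have hG1 : ∏ l ∈ Finset.univ.erase i, (x l - x i) = (x j - x i) * ∏ l ∈ S, (x l - x i) := by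
    rw [hSd]
    exact (Finset.mul_prod_erase _ (fun l => x l - x i)
      (Finset.mem_erase.2 ⟨hij.symm, Finset.mem_univ _⟩)).symm
  have hG2 : ∏ l ∈ Finset.univ.erase j, (x l - x j) = (x i - x j) * ∏ l ∈ S, (x l - x j) := by
    rw [← hSe]
    exact (Finset.mul_prod_erase _ (fun l => x l - x j)
      (Finset.mem_erase.2 ⟨hij, Finset.mem_univ _⟩)).symm
  have hQ : (∏ l ∈ S, (m - ms x y i l)) * ∏ l ∈ S, (x l - x i) =
      (∏ l ∈ S, (m - ms x y j l)) * ∏ l ∈ S, (x l - x j) := by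
    rw [← Finset.prod_mul_distrib, ← Finset.prod_mul_distrib]
    refine Finset.prod_congr rfl fun l hl => ?_
    rw [hSd, Finset.mem_erase, Finset.mem_erase] at hl
    have h1 : x l - x i ≠ 0 := sub_ne_zero.2 fun h => hl.2.1 (hS.inj h)
    have h2 : x l - x j ≠ 0 := sub_ne_zero.2 fun h => hl.1 (hS.inj h)
    unfold ms
    rw [sub_mul, sub_mul, div_mul_cancel₀ _ h1, div_mul_cancel₀ _ h2]
    linear_combination hme
  have hQ0 : (∏ l ∈ S, (m - ms x y i l)) ≠ 0 := by
    refine Finset.prod_ne_zero_iff.2 fun l hl => ?_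
    rw [hSd, Finset.mem_erase, Finset.mem_erase] at hl
    exact sub_ne_zero.2 (sep hPRB ι x y τ M E hS hc i hi j l hij.symm hl.2.1 hl.1.symm)
  have hQ1 : (∏ l ∈ S, (m - ms x y j l)) ≠ 0 := by
    refine Finset.prod_ne_zero_iff.2 fun l hl => ?_
    rw [hSd, Finset.mem_erase, Finset.mem_erase] at hl
    rw [hm, ms_symm x y i j]
    exact sub_ne_zero.2 (sep hPRB ι x y τ M E hS hc j hj i l hij hl.1 (fun h => hl.2.1 h.symm))
  rw [hG1, hG2]
  set Pi := ∏ l ∈ S, (m - ms x y i l)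
  set Pj := ∏ l ∈ S, (m - ms x y j l)
  set Ai := ∏ l ∈ S, (x l - x i)
  set Aj := ∏ l ∈ S, (x l - x j)
  -- p2 : (m - τ i) * Pi = (m - τ j) * Pj ; hQ : Pi * Ai = Pj * Aj
  have h5 : (m - τ i) * Aj = (m - τ j) * Ai := by
    apply mul_left_cancel₀ (mul_ne_zero hQ0 hQ1)
    linear_combination (Pj * Aj) * p2 - ((m - τ j) * Pj) * hQ
  linear_combination (x i - x j) * h5

end SLBM

theorem specSLB (hPRB : SpecPRB) : SpecSLB := by
  intro ι _ x y τ M E hS hc
  have hG : ∀ i, ∏ l ∈ Finset.univ.erase i, (x l - x i) ≠ 0 := by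
    intro i
    refine Finset.prod_ne_zero_iff.2 fun l hl => ?_
    exact sub_ne_zero.2 fun h => (Finset.ne_of_mem_erase hl) (hS.inj h)
  refine ⟨fun i => (∏ l ∈ Finset.univ.erase i, (x l - x i))⁻¹, fun i => inv_ne_zero (hG i), ?_⟩
  intro i j hi hj
  by_cases hij : i = j
  · subst hij; simp
  have hxij : x j - x i ≠ 0 := sub_ne_zero.2 fun h => hij (hS.inj h).symm
  have hme : y j - y i = ms x y i j * (x j - x i) := by
    unfold ms
    exact (div_mul_cancel₀ _ hxij).symm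
  have hk := SLBM.key hPRB ι x y τ M E hS hc i j hij hi hj
  rw [hme]
  have h1 := hG i
  have h2 := hG j
  simp only []
  field_simp
  linear_combination hk

end Pool.Agent.Lib.MP_70c3c6_co.GP
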