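import Pool.Agent.Lib.MP_70c3c6_co.GP.Spec

/-!
# MP_70c3c6_co, GP: module TWO (two classes)
-/

set_option autoImplicit false
open Classical Polynomial Pointwise

namespace Pool.Agent.Lib.MP_70c3c6_co.GP

open Pool.Agent.Lib.MP_70c3c6_co.EQ
open Pool.Agent.Lib.MP_70c3c6_co.FG

namespace TWOM

theorem rel_symm {lam : ℂ → ℂ} {e s s' : ℂ} (h : Rel lam e s s') : Rel lam e s' s := by
  unfold Rel at h ⊢
  rw [add_comm]
  exact h

theorem rel_inj {lam : ℂ → ℂ} {e s a b : ℂ} (h : Rel lam e s a) (h' : Rel lam e s b) : a = b := by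
  unfold Rel at h h'
  have h1 : (e - a)⁻¹ = (e - b)⁻¹ := by linear_combination h - h'
  have h2 := inv_injective h1
  linear_combination -h2

theorem half {ι : Type} [Fintype ι] (x y τ : ι → ℂ) (M : ι → Finset ℂ) (E : Finset ℂ)
    (lam : ℂ → ℂ) (S : SysB x y τ M E) (K : Key x y τ M E lam) (t w : ℂ) (htw : t ≠ w)
    (htE : t ∈ E) (hwE : w ∈ E) (hrel : ∀ e ∈ E, e ≠ t → e ≠ w → Rel lam e t w)
    (hne : (cls τ M t).Nonempty) : (cls τ M t).card + E.card ≤ Fintype.card ι + 2 := by
  obtain ⟨i, hi⟩ := hne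
  have hi' := hi
  rw [cls, Finset.mem_filter] at hi'
  obtain ⟨-, hMi, hτ⟩ := hi'
  have hM : M i = {t} := by
    obtain ⟨a, ha⟩ := Finset.card_eq_one.1 hMi
    have h1 := S.tau i
    rw [ha, Finset.mem_singleton, hτ] at h1
    rw [ha, h1]
  have hslope : ∀ j ∈ cls τ M t, j ≠ i → ms x y i j = w := by
    intro j hj hji
    by_contra hc
    rw [cls, Finset.mem_filter] at hj
    have he : ms x y i j ∈ E := S.chord i j (Ne.symm hji)
    have het : ms x y i j ≠ t := by
      intro h
      have h1 := S.tang i j (Ne.symm hji)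
      rw [hM, Finset.mem_singleton] at h1
      exact h1 h
    have r1 := hrel _ he het hc
    have r2 := K.two i j (Ne.symm hji) hMi hj.2.1
    rw [hτ, hj.2.2] at r2
    exact htw (rel_inj r2 r1)
  have hcov : ∀ e ∈ (E.erase t).erase w, ∃ j, j ≠ i ∧ ms x y i j = e := by
    intro e he
    rw [Finset.mem_erase, Finset.mem_erase] at he
    refine S.cover i e he.2.2 ?_
    rw [hM, Finset.mem_singleton]
    exact he.2.1
  have : Nonempty ι := ⟨i⟩
  choose! g hg1 hg2 using hcov
  have hinj : Set.InjOn g (((E.erase t).erase w : Finset ℂ) : Set ℂ) := by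
    intro e he e' he' h
    have h1 := hg2 e he
    have h2 := hg2 e' he'
    rw [h] at h1
    exact h1.symm.trans h2
  have hdisj : Disjoint ((cls τ M t).erase i) (((E.erase t).erase w).image g) := by
    rw [Finset.disjoint_left]
    intro j hj hj'
    rw [Finset.mem_erase] at hj
    rw [Finset.mem_image] at hj'
    obtain ⟨e, he, rfl⟩ := hj'
    have h1 := hslope _ hj.2 hj.1
    rw [hg2 e he] at h1
    rw [Finset.mem_erase] at he
    exact he.1 h1
  have hnot : i ∉ (cls τ M t).erase i ∪ ((E.erase t).erase w).image g := by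
    rw [Finset.mem_union, not_or]
    refine ⟨Finset.notMem_erase i _, ?_⟩
    rw [Finset.mem_image]
    rintro ⟨e, he, h⟩
    exact hg1 e he h
  have hcard := Finset.card_le_univ (insert i ((cls τ M t).erase i ∪ ((E.erase t).erase w).image g))
  rw [Finset.card_insert_of_notMem hnot, Finset.card_union_of_disjoint hdisj,
    Finset.card_image_of_injOn hinj, Finset.card_erase_of_mem hi, Finset.card_erase_of_mem
      (Finset.mem_erase.2 ⟨Ne.symm htw, hwE⟩), Finset.card_erase_of_mem htE] at hcard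
  have h3 := S.three
  have h4 : 0 < (cls τ M t).card := Finset.card_pos.2 ⟨i, hi⟩
  omega

theorem mem_E {ι : Type} [Fintype ι] (x y τ : ι → ℂ) (M : ι → Finset ℂ) (E : Finset ℂ)
    (S : SysB x y τ M E) (t : ℂ) (ht : t ∈ TT τ M) : t ∈ E := by
  rw [TT, Finset.mem_image] at ht
  obtain ⟨i, -, rfl⟩ := ht
  exact S.sub i (S.tau i)

end TWOM

open TWOM in
theorem specTWO (hBJ : SpecBJ) (hWA : SpecWA) (hWB : SpecWB) (_hRCH : SpecRCH) (_hDEG : SpecDEG) :
    SpecTWO := by
  intro ι _ x y τ M E lam S K hlt hT2 hb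
  obtain ⟨t, w, htw, hT⟩ := Finset.card_eq_two.1 hT2
  have ht : t ∈ TT τ M := by rw [hT]; simp
  have hw : w ∈ TT τ M := by rw [hT]; simp
  have htE := mem_E x y τ M E S t ht
  have hwE := mem_E x y τ M E S w hw
  obtain ⟨-, -, hsum⟩ := hBJ ι x y τ M E S
  rw [hT, Finset.sum_pair htw] at hsum
  obtain ⟨b1, b2, b3⟩ := hWB ι x y τ M E lam S K t ht w hw htw
  obtain ⟨c1, c2, c3⟩ := hWB ι x y τ M E lam S K w hw t ht (Ne.symm htw)
  have hbig_t : (Bd M).card < (cls τ M t).card := by omega
  have hbig_w : (Bd M).card < (cls τ M w).card := by omega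
  have hUU : ∀ e ∈ E, ∀ s, s ∉ UU (TT τ M) lam e := by
    intro e he s hs
    have h1 := hWA ι x y τ M E lam S K e he
    have h2 : (cls τ M s).card ≤ ∑ s ∈ UU (TT τ M) lam e, (cls τ M s).card :=
      Finset.single_le_sum (f := fun s => (cls τ M s).card) (fun _ _ => Nat.zero_le _) hs
    have h3 : s ∈ TT τ M := (Finset.mem_filter.1 hs).1
    rw [hT, Finset.mem_insert, Finset.mem_singleton] at h3
    rcases h3 with rfl | rfl <;> omega
  have hrel : ∀ e ∈ E, e ≠ t → e ≠ w → Rel lam e t w := by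
    intro e he het hew
    have h1 := hUU e he t
    have h2 := hUU e he w
    rw [UU, Finset.mem_filter] at h1 h2
    push Not at h1 h2
    obtain ⟨s, hs, hse, hr⟩ := h1 ht (Ne.symm het)
    obtain ⟨s', hs', hse', hr'⟩ := h2 hw (Ne.symm hew)
    rw [hT, Finset.mem_insert, Finset.mem_singleton] at hs hs'
    rcases hs with rfl | rfl
    · rcases hs' with rfl | rfl
      · exact rel_symm hr'
      · exfalso
        unfold Rel at hr hr'
        have h5 : (e - s)⁻¹ = (e - s')⁻¹ := by linear_combination (hr - hr') / 2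
        have h6 := inv_injective h5
        exact htw (by linear_combination -h6)
    · exact hr
  have k1 := half x y τ M E lam S K t w htw htE hwE hrel
    (Finset.card_pos.1 (lt_of_le_of_lt (Nat.zero_le _) hbig_t))
  have k2 := half x y τ M E lam S K w t (Ne.symm htw) hwE htE
    (fun e he h1 h2 => rel_symm (hrel e he h2 h1))
    (Finset.card_pos.1 (lt_of_le_of_lt (Nat.zero_le _) hbig_w))
  omega

end Pool.Agent.Lib.MP_70c3c6_co.GP
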