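import Pool.Agent.Lib.MP_70c3c6_co.GP.Spec

/-!
# MP_70c3c6_co, GP: module WA (classes without partner are small)
-/

set_option autoImplicit false
open Classical Polynomial Pointwise

namespace Pool.Agent.Lib.MP_70c3c6_co.GP

open Pool.Agent.Lib.MP_70c3c6_co.EQ
open Pool.Agent.Lib.MP_70c3c6_co.FG

namespace WAM

theorem ms_symm {ι : Type} (x y : ι → ℂ) (i j : ι) : ms x y j i = ms x y i j := by
  unfold ms
  rw [← neg_sub (y j) (y i), ← neg_sub (x j) (x i), neg_div_neg_eq]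

theorem col {ι : Type} (x y : ι → ℂ) (hx : Function.Injective x) (i i' j : ι) (hij : j ≠ i)
    (hij' : j ≠ i') (hii : i' ≠ i) (h : ms x y i j = ms x y i' j) :
    ms x y i j = ms x y i i' := by
  have h1 : x j - x i ≠ 0 := sub_ne_zero.mpr (hx.ne hij)
  have h2 : x j - x i' ≠ 0 := sub_ne_zero.mpr (hx.ne hij')
  have h3 : x i' - x i ≠ 0 := sub_ne_zero.mpr (hx.ne hii)
  have e1 : y j - y i = ms x y i j * (x j - x i) := by
    unfold ms
    rw [div_mul_cancel₀ _ h1]
  have e2 : y j - y i' = ms x y i j * (x j - x i') := by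
    rw [h]
    unfold ms
    rw [div_mul_cancel₀ _ h2]
  have h4 : ms x y i i' = (y i' - y i) / (x i' - x i) := rfl
  rw [h4, eq_div_iff h3]
  linear_combination e2 - e1

end WAM

theorem specWA : SpecWA := by
  intro ι _ x y τ M E lam H K e he
  have hdisj : ((UU (TT τ M) lam e : Finset ℂ) : Set ℂ).PairwiseDisjoint (cls τ M) := by
    intro s _ s' _ hss
    rw [Function.onFun, Finset.disjoint_left]
    intro i hi hi'
    have a1 := (Finset.mem_filter.mp hi).2.2
    have a2 := (Finset.mem_filter.mp hi').2.2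
    exact hss (a1.symm.trans a2)
  rw [← Finset.card_biUnion hdisj]
  have h0 : ∀ i ∈ (UU (TT τ M) lam e).biUnion (cls τ M),
      (M i).card = 1 ∧ τ i ∈ TT τ M ∧ τ i ≠ e ∧ ∀ s' ∈ TT τ M, s' ≠ e → ¬ Rel lam e (τ i) s' := by
    intro i hi
    obtain ⟨s, hs, his⟩ := Finset.mem_biUnion.mp hi
    obtain ⟨c1, c2⟩ := (Finset.mem_filter.mp his).2
    obtain ⟨d1, d2, d3⟩ := Finset.mem_filter.mp hs
    subst c2
    exact ⟨c1, d1, d2, d3⟩
  have h1 : ∀ i ∈ (UU (TT τ M) lam e).biUnion (cls τ M), ∃ j, j ≠ i ∧ ms x y i j = e := by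
    intro i hi
    obtain ⟨c1, _, c3, _⟩ := h0 i hi
    refine H.cover i e he ?_
    intro hm
    obtain ⟨a, ha⟩ := Finset.card_eq_one.mp c1
    have t1 := H.tau i
    rw [ha, Finset.mem_singleton] at t1 hm
    exact c3 (t1.trans hm.symm)
  choose! f hf using h1
  refine Finset.card_le_card_of_injOn f ?_ ?_
  · intro i hi
    have hi' : i ∈ (UU (TT τ M) lam e).biUnion (cls τ M) := hi
    obtain ⟨c1, _, _, c4⟩ := h0 i hi'
    obtain ⟨f1, f2⟩ := hf i hi'
    refine Finset.mem_coe.mpr (Finset.mem_filter.mpr ⟨Finset.mem_univ _, fun hj => ?_⟩)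
    have t1 : τ (f i) ∈ TT τ M :=
      Finset.mem_image.mpr ⟨f i, Finset.mem_filter.mpr ⟨Finset.mem_univ _, hj⟩, rfl⟩
    have t2 : τ (f i) ≠ e := by
      intro h
      have := H.tang (f i) i f1
      rw [WAM.ms_symm, f2, ← h] at this
      exact this (H.tau (f i))
    have t3 := K.two i (f i) (Ne.symm f1) c1 hj
    rw [f2] at t3
    exact c4 _ t1 t2 t3
  · intro i hi i' hi' hff
    by_contra hne
    have m1 : i ∈ (UU (TT τ M) lam e).biUnion (cls τ M) := hi
    have m2 : i' ∈ (UU (TT τ M) lam e).biUnion (cls τ M) := hi'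
    obtain ⟨c1, c2, c3, c4⟩ := h0 i m1
    obtain ⟨f1, f2⟩ := hf i m1
    obtain ⟨g1, g2⟩ := hf i' m2
    rw [← hff] at g1 g2
    have k1 : ms x y i (f i) = ms x y i i' :=
      WAM.col x y H.inj i i' (f i) f1 g1 (Ne.symm hne) (f2.trans g2.symm)
    have k2 := K.rich i (f i) i' c1 f1 (Ne.symm hne) g1 k1
    rw [f2] at k2
    exact c4 _ c2 c3 k2

end Pool.Agent.Lib.MP_70c3c6_co.GP
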