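import Pool.Agent.Lib.MP_70c3c6_co.GP.Spec

/-!
MP_70c3c6_co, GAP THEOREM, module WC: the sets FF t s are disjoint and miss two slopes.
-/

set_option autoImplicit false
open Classical Polynomial Pointwise

namespace Pool.Agent.Lib.MP_70c3c6_co.GP

open Pool.Agent.Lib.MP_70c3c6_co.EQ
open Pool.Agent.Lib.MP_70c3c6_co.FG

namespace WCM

theorem rel_unique {lam : ℂ → ℂ} {e t s s' : ℂ} (h : Rel lam e t s) (h' : Rel lam e t s') :
    s = s' := by
  have h1 : (e - t)⁻¹ + (e - s)⁻¹ = (e - t)⁻¹ + (e - s')⁻¹ := by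
    rw [show (e - t)⁻¹ + (e - s)⁻¹ = lam e from h, show (e - t)⁻¹ + (e - s')⁻¹ = lam e from h']
  have h2 : (e - s)⁻¹ = (e - s')⁻¹ := add_left_cancel h1
  have h3 : e - s = e - s' := inv_injective h2
  exact sub_right_injective h3

end WCM

theorem specWC (hRCH : SpecRCH) : SpecWC := by
  intro ι _ x y τ M E lam hS hK hlt t ht
  obtain ⟨i, hi, hit⟩ := Finset.mem_image.1 ht
  have hi1 : (M i).card = 1 := (Finset.mem_filter.1 hi).2
  obtain ⟨j, l, hji, hli, hjl, he⟩ := hRCH ι x y τ M E hS hlt i hi1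
  have hrel : Rel lam (ms x y i j) t t := by
    have h := hK.rich i j l hi1 hji hli hjl he
    rw [hit] at h
    exact h
  have he0E : ms x y i j ∈ E := hS.chord i j (Ne.symm hji)
  have he0t : ms x y i j ≠ t := by
    intro h
    have h1 := hS.tang i j (Ne.symm hji)
    rw [h, ← hit] at h1
    exact h1 (hS.tau i)
  have htE : t ∈ E := by
    rw [← hit]
    exact hS.sub i (hS.tau i)
  have hdisj : ∀ s ∈ (TT τ M).erase t, ∀ s' ∈ (TT τ M).erase t, s ≠ s' →
      Disjoint (FF E lam t s) (FF E lam t s') := by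
    intro s _ s' _ hss
    rw [Finset.disjoint_left]
    intro e h1 h2
    exact hss (WCM.rel_unique (Finset.mem_filter.1 h1).2.2.2 (Finset.mem_filter.1 h2).2.2.2)
  have hsub : ((TT τ M).erase t).biUnion (fun s => FF E lam t s) ⊆ (E.erase t).erase (ms x y i j) := by
    intro e he'
    obtain ⟨s, hs, hes⟩ := Finset.mem_biUnion.1 he'
    obtain ⟨heE, het, -, hr⟩ := Finset.mem_filter.1 hes
    rw [Finset.mem_erase, Finset.mem_erase]
    refine ⟨?_, het, heE⟩
    intro h
    rw [h] at hr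
    exact (Finset.mem_erase.1 hs).1 (WCM.rel_unique hr hrel)
  have h1 : ∑ s ∈ (TT τ M).erase t, (FF E lam t s).card =
      (((TT τ M).erase t).biUnion (fun s => FF E lam t s)).card :=
    (Finset.card_biUnion hdisj).symm
  have h2 := Finset.card_le_card hsub
  have h3 : (E.erase t).card + 1 = E.card := Finset.card_erase_add_one htE
  have h4 : ((E.erase t).erase (ms x y i j)).card + 1 = (E.erase t).card :=
    Finset.card_erase_add_one (Finset.mem_erase.2 ⟨he0t, he0E⟩)
  rw [h1]
  omega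

end Pool.Agent.Lib.MP_70c3c6_co.GP
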