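import Pool.Agent.Lib.MP_70c3c6_co.GP.Spec

/-!
# MP_70c3c6_co, GP, module WE: small classes give many bad points
-/

set_option autoImplicit false
open Classical Polynomial Pointwise

namespace Pool.Agent.Lib.MP_70c3c6_co.GP

open Pool.Agent.Lib.MP_70c3c6_co.EQ
open Pool.Agent.Lib.MP_70c3c6_co.FG

namespace WEM

variable {ι : Type} [Fintype ι]

/-- the points on a line with three points through `i` -/
noncomputable def rs (x y : ι → ℂ) (i : ι) : Finset ι :=
  Finset.univ.filter fun j => j ≠ i ∧ ∃ l, l ≠ i ∧ l ≠ j ∧ ms x y i l = ms x y i j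

theorem mem_rs {x y : ι → ℂ} {i j : ι} :
    j ∈ rs x y i ↔ j ≠ i ∧ ∃ l, l ≠ i ∧ l ≠ j ∧ ms x y i l = ms x y i j := by
  unfold rs
  rw [Finset.mem_filter]
  exact ⟨fun h => h.2, fun h => ⟨Finset.mem_univ j, h⟩⟩

omit [Fintype ι] in
theorem line {x y : ι → ℂ} (hx : Function.Injective x) {i j : ι} (h : j ≠ i) :
    y j - y i = ms x y i j * (x j - x i) := by
  unfold ms
  have h1 : x j - x i ≠ 0 := fun h2 => h (hx (sub_eq_zero.1 h2))
  field_simp

omit [Fintype ι] in
theorem slope {x y : ι → ℂ} (hx : Function.Injective x) {i j : ι} (h : j ≠ i) {e : ℂ}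
    (he : y j - y i = e * (x j - x i)) : ms x y i j = e := by
  unfold ms
  have h1 : x j - x i ≠ 0 := fun h2 => h (hx (sub_eq_zero.1 h2))
  rw [he]
  field_simp

theorem rs_symm {x y : ι → ℂ} (hx : Function.Injective x) {i j : ι} (h : j ∈ rs x y i) :
    i ∈ rs x y j := by
  rw [mem_rs] at h ⊢
  obtain ⟨hji, l, hli, hlj, he⟩ := h
  refine ⟨Ne.symm hji, l, hlj, hli, ?_⟩
  have h1 := line (y := y) hx hji
  have h2 := line (y := y) hx hli
  rw [he] at h2
  rw [slope hx hlj (e := ms x y i j) (by linear_combination h2 - h1),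
    slope hx (Ne.symm hji) (e := ms x y i j) (by linear_combination -h1)]

theorem tau_eq {x y τ : ι → ℂ} {M : ι → Finset ℂ} {E : Finset ℂ} {lam : ℂ → ℂ}
    (hK : Key x y τ M E lam) {i j : ι} (hi : (M i).card = 1) (hj : (M j).card = 1)
    (h : j ∈ rs x y i) : τ j = τ i := by
  rw [mem_rs] at h
  obtain ⟨hji, l, hli, hlj, he⟩ := h
  have h1 := hK.rich i j l hi hji hli (Ne.symm hlj) he.symm
  have h2 := hK.two i j (Ne.symm hji) hi hj
  unfold Rel at h1 h2
  have h3 : (ms x y i j - τ j)⁻¹ = (ms x y i j - τ i)⁻¹ := by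
    linear_combination h2 - h1
  have h4 := inv_injective h3
  linear_combination -h4

end WEM

open WEM in
theorem specWE (hBJ : SpecBJ) (hDEG : SpecDEG) : SpecWE := by
  intro ι _ x y τ M E lam hS hK hlt hc
  obtain ⟨hbJ, -, -⟩ := hBJ ι x y τ M E hS
  have hD : ∀ i, (rs x y i).card + 2 + 2 * E.card ≤ 2 * (Fintype.card ι + (M i).card) ∧
      Fintype.card ι + (M i).card ≤ E.card + (rs x y i).card :=
    fun i => hDEG ι x y τ M E hS hlt i
  obtain ⟨q, hq⟩ : ∃ q, Fintype.card ι = E.card + q := ⟨Fintype.card ι - E.card, by omega⟩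
  have hq1 : 1 ≤ q := by omega
  have hM1 : ∀ i, 1 ≤ (M i).card := fun i => Finset.card_pos.2 ⟨τ i, hS.tau i⟩
  obtain ⟨G, hG⟩ : ∃ G : Finset ι, G = Finset.univ.filter fun i => (M i).card = 1 := ⟨_, rfl⟩
  have hgood : ∀ i ∈ G, q ≤ ((Bd M).filter fun j => j ∈ rs x y i).card := by
    intro i hiG
    have hi : (M i).card = 1 := by
      rw [hG, Finset.mem_filter] at hiG
      exact hiG.2
    have h1 := (hD i).2
    have h2 : rs x y i ⊆ ((cls τ M (τ i)).erase i) ∪ ((Bd M).filter fun j => j ∈ rs x y i) := by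
      intro j hj
      rw [Finset.mem_union]
      by_cases hjg : (M j).card = 1
      · left
        rw [Finset.mem_erase, cls, Finset.mem_filter]
        exact ⟨(mem_rs.1 hj).1, Finset.mem_univ j, hjg, tau_eq hK hi hjg hj⟩
      · right
        rw [Finset.mem_filter, Bd, Finset.mem_filter]
        exact ⟨⟨Finset.mem_univ j, hjg⟩, hj⟩
    have hic : i ∈ cls τ M (τ i) := by
      rw [cls, Finset.mem_filter]
      exact ⟨Finset.mem_univ i, hi, rfl⟩
    have hit : τ i ∈ TT τ M :=
      Finset.mem_image_of_mem τ (Finset.mem_filter.2 ⟨Finset.mem_univ i, hi⟩)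
    have h3 := Finset.card_erase_add_one hic
    have h4 := hc (τ i) hit
    have h5 := (Finset.card_le_card h2).trans (Finset.card_union_le _ _)
    omega
  have hdc : ∑ i ∈ G, ((Bd M).filter fun j => j ∈ rs x y i).card =
      ∑ j ∈ Bd M, (G.filter fun i => j ∈ rs x y i).card :=
    Finset.sum_card_bipartiteAbove_eq_sum_card_bipartiteBelow (fun i j => j ∈ rs x y i)
  have hlow : G.card • q ≤ ∑ i ∈ G, ((Bd M).filter fun j => j ∈ rs x y i).card :=
    Finset.card_nsmul_le_sum _ _ _ hgood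
  have hup : ∑ j ∈ Bd M, (G.filter fun i => j ∈ rs x y i).card ≤
      ∑ j ∈ Bd M, (2 * q + 2 * ((M j).card - 1)) := by
    apply Finset.sum_le_sum
    intro j _
    have h1 : (G.filter fun i => j ∈ rs x y i).card ≤ (rs x y j).card := by
      apply Finset.card_le_card
      intro i hi
      rw [Finset.mem_filter] at hi
      exact rs_symm hS.inj hi.2
    have h2 := (hD j).1
    have h3 := hM1 j
    omega
  have hsum : ∑ j ∈ Bd M, (2 * q + 2 * ((M j).card - 1)) =
      2 * ((Bd M).card * q) + 2 * ∑ j ∈ Bd M, ((M j).card - 1) := by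
    rw [Finset.sum_add_distrib, Finset.sum_const, smul_eq_mul, ← Finset.mul_sum]
    ring
  have hJ : ∑ j ∈ Bd M, ((M j).card - 1) ≤ JJ M :=
    Finset.sum_le_sum_of_subset (Finset.subset_univ _)
  have hcard : G.card + (Bd M).card = Fintype.card ι := by
    rw [hG, Bd, ← Finset.card_univ]
    exact Finset.card_filter_add_card_filter_not _
  rw [smul_eq_mul] at hlow
  have e1 : (Bd M).card * q ≤ JJ M * q := Nat.mul_le_mul_right q hbJ
  have e2 : JJ M ≤ JJ M * q := Nat.le_mul_of_pos_right _ hq1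
  have e3 : Fintype.card ι * q = G.card * q + (Bd M).card * q := by
    rw [← hcard, add_mul]
  have e4 : Fintype.card ι * q ≤ 5 * JJ M * q := by
    have e5 : 5 * JJ M * q = 5 * (JJ M * q) := by ring
    omega
  exact Nat.le_of_mul_le_mul_right e4 (by omega)

end Pool.Agent.Lib.MP_70c3c6_co.GP
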