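import Pool.Agent.Lib.MP_70c3c6_co.GP.Spec2

/-!
# MP_70c3c6_co, GP, module WG2: the classes have nearly the same size
-/

set_option autoImplicit false
open Classical Polynomial Pointwise

namespace Pool.Agent.Lib.MP_70c3c6_co.GP

namespace WG2M

theorem sum_sub (A : Finset ℂ) (c : ℂ → ℕ) (a : ℕ) (h : ∀ s ∈ A, c s ≤ a) :
    ∑ s ∈ A, (a - c s) + ∑ s ∈ A, c s = A.card * a := by
  rw [← Finset.sum_add_distrib]
  rw [Finset.sum_congr rfl (fun s hs => Nat.sub_add_cancel (h s hs)), Finset.sum_const,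
    smul_eq_mul]

end WG2M

theorem specWG2 (hBJ : SpecBJ) (hWA : SpecWA) (hWB : SpecWB) (hWC : SpecWC) : SpecWG2 := by
  intro ι _ x y τ M E lam hS hK hlt t ht hmax
  obtain ⟨-, -, hk⟩ := hBJ ι x y τ M E hS
  have hC := hWC ι x y τ M E lam hS hK hlt t ht
  have hB : ∀ s ∈ TT τ M, t ≠ s → (cls τ M s).card ≤ (FF E lam t s).card ∧
      (cls τ M t).card ≤ (FF E lam t s).card ∧
      (FF E lam t s).card ≤ (cls τ M s).card + (Bd M).card :=
    fun s hs hts => hWB ι x y τ M E lam hS hK t ht s hs hts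
  obtain ⟨T, hT⟩ : ∃ T, T = TT τ M := ⟨_, rfl⟩
  obtain ⟨a, ha⟩ : ∃ a, a = (cls τ M t).card := ⟨_, rfl⟩
  obtain ⟨b, hb⟩ : ∃ b, b = (Bd M).card := ⟨_, rfl⟩
  rw [← hT] at hk hC hB hmax ht
  rw [← hT, ← ha, ← hb]
  rw [← hb] at hk hB
  rw [← ha] at hB hmax
  have h1 : (T.erase t).card • a ≤ ∑ s ∈ T.erase t, (FF E lam t s).card := by
    apply Finset.card_nsmul_le_sum
    intro s hs
    rw [Finset.mem_erase] at hs
    exact (hB s hs.2 (Ne.symm hs.1)).2.1
  have h2 : (T.erase t).card + 1 = T.card := Finset.card_erase_add_one ht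
  have h3 := WG2M.sum_sub T (fun s => (cls τ M s).card) a hmax
  rw [smul_eq_mul] at h1
  have h4 : T.card * a = (T.erase t).card * a + a := by
    rw [← h2]
    ring
  refine ⟨fun e he => ?_, ?_⟩
  · have hA := hWA ι x y τ M E lam hS hK e he
    rw [← hT, ← hb] at hA
    have hU : UU T lam e ⊆ T := Finset.filter_subset _ _
    by_cases hab : a ≤ 2 * b
    · right
      refine ⟨hab, ?_⟩
      have h5 := WG2M.sum_sub (UU T lam e) (fun s => (cls τ M s).card) a
        (fun s hs => hmax s (hU hs))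
      have h6 : ∑ s ∈ UU T lam e, (a - (cls τ M s).card) ≤ ∑ s ∈ T, (a - (cls τ M s).card) :=
        Finset.sum_le_sum_of_subset hU
      omega
    · left
      rw [Finset.eq_empty_iff_forall_notMem]
      intro s hs
      have h5 : (cls τ M s).card ≤ ∑ s ∈ UU T lam e, (cls τ M s).card :=
        Finset.single_le_sum (f := fun s => (cls τ M s).card) (fun _ _ => Nat.zero_le _) hs
      by_cases hts : t = s
      · rw [← hts, ← ha] at h5
        omega
      · have h6 := hB s (hU hs) hts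
        omega
  · omega

end Pool.Agent.Lib.MP_70c3c6_co.GP
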