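import Pool.Agent.Lib.MP_70c3c6_co.FG.INT
import Pool.Agent.Lib.MP_70c3c6_co.FG.TOP
import Pool.Agent.Lib.MP_70c3c6_co.FG.TAY
import Pool.Agent.Lib.MP_70c3c6_co.FG.CRX
import Pool.Agent.Lib.MP_70c3c6_co.FG.CLF
import Pool.Agent.Lib.MP_70c3c6_co.EQ.CNC
import Pool.Agent.Lib.MP_70c3c6_co.GP.HPB
import Pool.Agent.Lib.MP_70c3c6_co.GP.OUT
import Pool.Agent.Lib.MP_70c3c6_co.GP.KYBx
import Pool.Agent.Lib.MP_70c3c6_co.GP.WA
import Pool.Agent.Lib.MP_70c3c6_co.GP.WB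
import Pool.Agent.Lib.MP_70c3c6_co.GP.RCH
import Pool.Agent.Lib.MP_70c3c6_co.GP.WC
import Pool.Agent.Lib.MP_70c3c6_co.GP.DEG
import Pool.Agent.Lib.MP_70c3c6_co.GP.WE
import Pool.Agent.Lib.MP_70c3c6_co.GP.BJ
import Pool.Agent.Lib.MP_70c3c6_co.GP.TWO
import Pool.Agent.Lib.MP_70c3c6_co.GP.MOB
import Pool.Agent.Lib.MP_70c3c6_co.GP.PRB
import Pool.Agent.Lib.MP_70c3c6_co.GP.SLB
import Pool.Agent.Lib.MP_70c3c6_co.GP.COB
import Pool.Agent.Lib.MP_70c3c6_co.GP.PAB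
import Pool.Agent.Lib.MP_70c3c6_co.GP.GPH
import Pool.Agent.Lib.MP_70c3c6_co.GP.HYB
import Pool.Agent.Lib.MP_70c3c6_co.GP.CNB
import Pool.Agent.Lib.MP_70c3c6_co.GP.CRB
import Pool.Agent.Lib.MP_70c3c6_co.GP.FWB
import Pool.Agent.Lib.MP_70c3c6_co.GP.FI2
import Pool.Agent.Lib.MP_70c3c6_co.GP.KI6
import Pool.Agent.Lib.MP_70c3c6_co.GP.NN6
import Pool.Agent.Lib.MP_70c3c6_co.GP.PIF
import Pool.Agent.Lib.MP_70c3c6_co.GP.WG2
import Pool.Agent.Lib.MP_70c3c6_co.GP.BI2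
import Pool.Agent.Lib.MP_70c3c6_co.GP.AS2
import Pool.Agent.Lib.MP_70c3c6_co.GP.FI4

/-!
# MP_70c3c6_co, GP: the gap theorem, assembly
-/

set_option autoImplicit false

namespace Pool.Agent.Lib.MP_70c3c6_co.GP

theorem mainGap : SpecFI4 ∧ SpecFI5 ∧ SpecFI2 := by
  have hCRX := FG.specCRX FG.specTAY
  have hKYB := specKYBx (specHPB FG.specINT) specOUT FG.specTOP hCRX FG.specCLF
  have hWC := specWC specRCH
  have hWG2 := specWG2 specBJ specWA specWB hWC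
  have hWE := specWE specBJ specDEG
  have hTWO := specTWO specBJ specWA specWB specRCH specDEG
  have hPIF := specPIF (specNN6 specKI6)
  have hBI2 := specBI2 specMOB hPIF
  have hAS2 := specAS2 hKYB specBJ specWA specWB hWE hWG2 hTWO hBI2
  have hHYB := specHYB (specGPH specPRB) specPRB
  have hCRB := specCRB specCNB
  have hFWB := specFWB specCNB hCRB specBJ specPRB (specSLB specPRB) (specCOB EQ.specCON)
    (specPAB specPRB) hHYB
  have hFI2 := specFI2 specCNB hFWB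
  have hFI5 := specFI5 specCNB hCRB specBJ hAS2 hFI2
  exact ⟨specFI4 specCNB hFI2 hFI5, hFI5, hFI2⟩

end Pool.Agent.Lib.MP_70c3c6_co.GP
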