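import Pool.Agent.Lib.MP_70c3c6_co.GP.Spec3
import Pool.Agent.Lib.MP_70c3c6_co.GP.TWO

/-!
# MP_70c3c6_co, GP: module TW2 (two classes, structure)
-/

set_option autoImplicit false
open Classical Polynomial Pointwise

namespace Pool.Agent.Lib.MP_70c3c6_co.GP

open Pool.Agent.Lib.MP_70c3c6_co.EQ
open Pool.Agent.Lib.MP_70c3c6_co.FG

namespace TW2M

open TWOM

theorem slope {ι : Type} [Fintype ι] (x y τ : ι → ℂ) (M : ι → Finset ℂ) (E : Finset ℂ)
    (lam : ℂ → ℂ) (S : SysB x y τ M E) (K : Key x y τ M E lam) (t w : ℂ) (htw : t ≠ w)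
    (hrel : ∀ e ∈ E, e ≠ t → e ≠ w → Rel lam e t w) (i j : ι) (hij : i ≠ j)
    (hi : (M i).card = 1) (hj : (M j).card = 1) (hti : τ i = t) (htj : τ j = t) :
    ms x y i j = w := by
  by_contra hc
  have he : ms x y i j ∈ E := S.chord i j hij
  have het : ms x y i j ≠ t := by
    intro h
    have h1 := S.tang i j hij
    rw [h, ← hti] at h1
    exact h1 (S.tau i)
  have r1 := hrel _ he het hc
  have r2 := K.two i j hij hi hj
  rw [hti, htj] at r2
  exact htw (rel_inj r2 r1)

end TW2M

open TWOM TW2M in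
theorem specTW2 (hBJ : SpecBJ) (hWA : SpecWA) (hWB : SpecWB) : SpecTW2 := by
  intro ι _ x y τ M E lam S K hlt hT2 hb
  obtain ⟨t, w, htw, hT⟩ := Finset.card_eq_two.1 hT2
  have ht : t ∈ TT τ M := by rw [hT]; simp
  have hw : w ∈ TT τ M := by rw [hT]; simp
  have htE := mem_E x y τ M E S t ht
  have hwE := mem_E x y τ M E S w hw
  obtain ⟨-, -, hsum⟩ := hBJ ι x y τ M E S
  rw [hT, Finset.sum_pair htw] at hsum
  obtain ⟨b1, b2, b3⟩ := hWB ι x y τ M E lam S K t ht w hw htw
  obtain ⟨c1, c2, c3⟩ := hWB ι x y τ M E lam S K w hw t ht (Ne.symm htw)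
  have hbig_t : (Bd M).card < (cls τ M t).card := by omega
  have hbig_w : (Bd M).card < (cls τ M w).card := by omega
  have hUU : ∀ e ∈ E, ∀ s, s ∉ UU (TT τ M) lam e := by
    intro e he s hs
    have h1 := hWA ι x y τ M E lam S K e he
    have h2 : (cls τ M s).card ≤ ∑ s ∈ UU (TT τ M) lam e, (cls τ M s).card :=
      Finset.single_le_sum (f := fun s => (cls τ M s).card) (fun _ _ => Nat.zero_le _) hs
    have h3 : s ∈ TT τ M := (Finset.mem_filter.1 hs).1
    rw [hT, Finset.mem_insert, Finset.mem_singleton] at h3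
    rcases h3 with rfl | rfl <;> omega
  have hrel : ∀ e ∈ E, e ≠ t → e ≠ w → Rel lam e t w := by
    intro e he het hew
    have h1 := hUU e he t
    have h2 := hUU e he w
    rw [UU, Finset.mem_filter] at h1 h2
    push Not at h1 h2
    obtain ⟨s, hs, hse, hr⟩ := h1 ht (Ne.symm het)
    obtain ⟨s', hs', hse', hr'⟩ := h2 hw (Ne.symm hew)
    rw [hT, Finset.mem_insert, Finset.mem_singleton] at hs hs'
    rcases hs with rfl | rfl
    · rcases hs' with rfl | rfl
      · exact rel_symm hr'
      · exfalso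
        unfold Rel at hr hr'
        have h5 : (e - s)⁻¹ = (e - s')⁻¹ := by linear_combination (hr - hr') / 2
        have h6 := inv_injective h5
        exact htw (by linear_combination -h6)
    · exact hr
  refine ⟨t, w, htw, ?_, ?_, ?_⟩
  · intro i hi
    have h : τ i ∈ TT τ M := by
      rw [TT, Finset.mem_image]
      exact ⟨i, by rw [Finset.mem_filter]; exact ⟨Finset.mem_univ i, hi⟩, rfl⟩
    rw [hT, Finset.mem_insert, Finset.mem_singleton] at h
    exact h
  · intro i j hij hi hj hti htj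
    exact slope x y τ M E lam S K t w htw hrel i j hij hi hj hti htj
  · intro i j hij hi hj hti htj
    exact slope x y τ M E lam S K w t (Ne.symm htw)
      (fun e he h1 h2 => rel_symm (hrel e he h2 h1)) i j hij hi hj hti htj

end Pool.Agent.Lib.MP_70c3c6_co.GP
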