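import Pool.Agent.Lib.MP_70c3c6_co.GP.Main
import Pool.Agent.Lib.MP_70c3c6_co.GP.TW2
import Pool.Agent.Lib.MP_70c3c6_co.GP.AS3
import Pool.Agent.Lib.MP_70c3c6_co.GP.FI6

/-!
# MP_70c3c6_co, GP: the gap theorem with the structure of the near extremal arrangements, assembly
-/

set_option autoImplicit false

namespace Pool.Agent.Lib.MP_70c3c6_co.GP

theorem mainGap2 : SpecFI4 ∧ SpecFI6 ∧ SpecFI2 := by
  have hCRX := FG.specCRX FG.specTAY
  have hKYB := specKYBx (specHPB FG.specINT) specOUT FG.specTOP hCRX FG.specCLF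
  have hWC := specWC specRCH
  have hWG2 := specWG2 specBJ specWA specWB hWC
  have hWE := specWE specBJ specDEG
  have hTWO := specTWO specBJ specWA specWB specRCH specDEG
  have hTW2 := specTW2 specBJ specWA specWB
  have hPIF := specPIF (specNN6 specKI6)
  have hBI2 := specBI2 specMOB hPIF
  have hAS3 := specAS3 hKYB specBJ specWA specWB hWE hWG2 hTWO hTW2 hBI2
  exact ⟨mainGap.1, specFI6 specCNB (specCRB specCNB) specBJ hAS3, mainGap.2.2⟩

end Pool.Agent.Lib.MP_70c3c6_co.GP
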