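import Pool.Agent.Lib.MP_70c3c6_co.GP.Spec

/-!
# MP_70c3c6_co, GAP THEOREM: few near-symmetries (module NNB)
-/

set_option autoImplicit false
open Classical Polynomial Pointwise

namespace Pool.Agent.Lib.MP_70c3c6_co.GP

namespace NNBM

/-- the points of `T` for which `p` is at least as near as all points of `T` -/
noncomputable def Q (T : Finset ℂ) (p : ℂ) : Finset ℂ :=
  T.filter fun x => x ≠ p ∧ ∀ x' ∈ T, x' ≠ x → ‖x - p‖ ≤ ‖x - x'‖

/-- nearest neighbours -/
lemma nearest (T : Finset ℂ) (hT : 2 ≤ T.card) : ∃ nn : ℂ → ℂ, ∀ x ∈ T, nn x ∈ T ∧ nn x ≠ x ∧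
    ∀ x' ∈ T, x' ≠ x → ‖x - nn x‖ ≤ ‖x - x'‖ := by
  have h : ∀ x : ℂ, ∃ y : ℂ, x ∈ T → y ∈ T ∧ y ≠ x ∧ ∀ x' ∈ T, x' ≠ x → ‖x - y‖ ≤ ‖x - x'‖ := by
    intro x
    by_cases hx : x ∈ T
    · have hne : (T.erase x).Nonempty := by
        rw [← Finset.card_pos, Finset.card_erase_of_mem hx]
        omega
      obtain ⟨y, hy, hmin⟩ := Finset.exists_min_image (T.erase x) (fun y => ‖x - y‖) hne
      exact ⟨y, fun _ => ⟨Finset.mem_of_mem_erase hy, Finset.ne_of_mem_erase hy,
        fun x' hx' hne' => hmin x' (Finset.mem_erase.2 ⟨hne', hx'⟩)⟩⟩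
    · exact ⟨x, fun h => absurd h hx⟩
  choose nn hnn using h
  exact ⟨nn, hnn⟩

/-- `x` is nice for `h` -/
def Nice (T : Finset ℂ) (nn : ℂ → ℂ) (h : Equiv.Perm ℂ) (x : ℂ) : Prop :=
  h (nn x) ∈ T ∧ h x ∈ Q T (h (nn x))

/-- the number of the points of `T` which come from outside is at most the number of the points which leave -/
lemma card_in (T : Finset ℂ) (h : Equiv.Perm ℂ) :
    (T.filter fun y => h.symm y ∉ T).card = dfc T h := by
  have e1 : (T.filter fun s => h s ∈ T).card = (T.filter fun y => h.symm y ∈ T).card := by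
    refine Finset.card_bij (fun s _ => h s) ?_ ?_ ?_
    · intro s hs
      rw [Finset.mem_filter] at hs ⊢
      refine ⟨hs.2, ?_⟩
      rw [Equiv.symm_apply_apply]
      exact hs.1
    · intro a _ b _ hab
      exact h.injective hab
    · intro y hy
      rw [Finset.mem_filter] at hy
      refine ⟨h.symm y, ?_, Equiv.apply_symm_apply h y⟩
      rw [Finset.mem_filter]
      refine ⟨hy.2, ?_⟩
      rw [Equiv.apply_symm_apply]
      exact hy.1
  have e2 := Finset.card_filter_add_card_filter_not (s := T) (fun s => h s ∈ T)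
  have e3 := Finset.card_filter_add_card_filter_not (s := T) (fun y => h.symm y ∈ T)
  unfold dfc
  omega

lemma bi_card (hKIS : SpecKIS) (T A : Finset ℂ) (v : ℕ) (hA : A.card ≤ v) :
    (A.biUnion (Q T)).card ≤ 25 * v := by
  calc (A.biUnion (Q T)).card ≤ ∑ p ∈ A, (Q T p).card := Finset.card_biUnion_le
    _ ≤ ∑ p ∈ A, 25 := Finset.sum_le_sum fun p _ => hKIS T p
    _ = A.card * 25 := by rw [Finset.sum_const, smul_eq_mul]
    _ ≤ 25 * v := by omega

/-- most points are nice -/
lemma nice_card (hKIS : SpecKIS) (T : Finset ℂ) (v : ℕ) (nn : ℂ → ℂ)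
    (hnn : ∀ x ∈ T, nn x ∈ T ∧ nn x ≠ x ∧ ∀ x' ∈ T, x' ≠ x → ‖x - nn x‖ ≤ ‖x - x'‖)
    (h : Equiv.Perm ℂ) (hA : Aff h) (hd : dfc T h ≤ v) :
    T.card ≤ (T.filter fun x => Nice T nn h x).card + 51 * v := by
  obtain ⟨α, β, hα, hh⟩ := hA
  have hdist : ∀ a b, ‖h a - h b‖ = ‖α‖ * ‖a - b‖ := by
    intro a b
    rw [hh, hh, ← norm_mul]
    congr 1
    ring
  have hα' : 0 < ‖α‖ := norm_pos_iff.2 hα
  have hAc : (T.filter fun s => h s ∉ T).card ≤ v := hd
  have hBc := bi_card hKIS T _ v hAc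
  have hYc : ((T.filter fun y => h.symm y ∉ T).image h.symm).card ≤ v :=
    Finset.card_image_le.trans ((card_in T h).le.trans hd)
  have hCc := bi_card hKIS T _ v hYc
  have hsub : T ⊆ (T.filter fun x => Nice T nn h x) ∪ ((T.filter fun s => h s ∉ T) ∪
      (((T.filter fun s => h s ∉ T).biUnion (Q T)) ∪
        (((T.filter fun y => h.symm y ∉ T).image h.symm).biUnion (Q T)))) := by
    intro x hx
    obtain ⟨n1, n2, n3⟩ := hnn x hx
    rw [Finset.mem_union, Finset.mem_union, Finset.mem_union]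
    by_cases h1 : h x ∈ T
    · by_cases h2 : h (nn x) ∈ T
      · by_cases h3 : h x ∈ Q T (h (nn x))
        · exact Or.inl (Finset.mem_filter.2 ⟨hx, h2, h3⟩)
        · refine Or.inr (Or.inr (Or.inr ?_))
          have h4 : ¬ ∀ x' ∈ T, x' ≠ h x → ‖h x - h (nn x)‖ ≤ ‖h x - x'‖ := fun h5 =>
            h3 (Finset.mem_filter.2 ⟨h1, fun h6 => n2 (h.injective h6).symm, h5⟩)
          push Not at h4
          obtain ⟨x', hx', hne, hlt⟩ := h4
          have h5 : h (h.symm x') = x' := Equiv.apply_symm_apply h x'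
          have h6 : ‖x - h.symm x'‖ < ‖x - nn x‖ := by
            have h7 : ‖α‖ * ‖x - h.symm x'‖ < ‖α‖ * ‖x - nn x‖ := by
              rw [← hdist, ← hdist, h5]
              exact hlt
            exact lt_of_mul_lt_mul_left h7 hα'.le
          have h8 : h.symm x' ≠ x := fun h9 => hne (by rw [← h5, h9])
          have h10 : h.symm x' ∉ T := fun h11 => absurd (n3 _ h11 h8) (not_le.2 h6)
          refine Finset.mem_biUnion.2 ⟨h.symm x', Finset.mem_image.2
            ⟨x', Finset.mem_filter.2 ⟨hx', h10⟩, rfl⟩, Finset.mem_filter.2 ⟨hx, h8.symm, ?_⟩⟩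
          intro z hz hzx
          exact h6.le.trans (n3 z hz hzx)
      · refine Or.inr (Or.inr (Or.inl ?_))
        exact Finset.mem_biUnion.2 ⟨nn x, Finset.mem_filter.2 ⟨n1, h2⟩,
          Finset.mem_filter.2 ⟨hx, n2.symm, n3⟩⟩
    · exact Or.inr (Or.inl (Finset.mem_filter.2 ⟨hx, h1⟩))
  have c1 := Finset.card_le_card hsub
  have c2 := Finset.card_union_le (T.filter fun x => Nice T nn h x) ((T.filter fun s => h s ∉ T) ∪
      (((T.filter fun s => h s ∉ T).biUnion (Q T)) ∪
        (((T.filter fun y => h.symm y ∉ T).image h.symm).biUnion (Q T))))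
  have c3 := Finset.card_union_le (T.filter fun s => h s ∉ T)
      (((T.filter fun s => h s ∉ T).biUnion (Q T)) ∪
        (((T.filter fun y => h.symm y ∉ T).image h.symm).biUnion (Q T)))
  have c4 := Finset.card_union_le ((T.filter fun s => h s ∉ T).biUnion (Q T))
        (((T.filter fun y => h.symm y ∉ T).image h.symm).biUnion (Q T))
  omega

end NNBM

open NNBM in
theorem specNNB (hKIS : SpecKIS) : SpecNNB := by
  intro T v S hT hv hS
  obtain ⟨nn, hnn⟩ := nearest T hT
  -- the pairs (h, x), x nice for h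
  let P : Finset (Equiv.Perm ℂ × ℂ) := (S ×ˢ T).filter fun q => Nice T nn q.1 q.2
  let R : Finset (ℂ × ℂ) := T.biUnion fun y' => (Q T y').image fun y => (y, y')
  have hR : R.card ≤ T.card * 25 := by
    calc R.card ≤ ∑ y' ∈ T, ((Q T y').image fun y => (y, y')).card := Finset.card_biUnion_le
      _ ≤ ∑ y' ∈ T, 25 := Finset.sum_le_sum fun p _ => Finset.card_image_le.trans (hKIS T p)
      _ = T.card * 25 := by rw [Finset.sum_const, smul_eq_mul]
  have hP1 : P.card ≤ (T ×ˢ R).card := by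
    refine Finset.card_le_card_of_injOn (fun q => (q.2, (q.1 q.2, q.1 (nn q.2)))) ?_ ?_
    · rintro ⟨h, x⟩ hq
      have hq' : (h, x) ∈ P := hq
      rw [Finset.mem_filter, Finset.mem_product] at hq'
      obtain ⟨⟨_, h2⟩, h3, h4⟩ := hq'
      have h5 : (x, (h x, h (nn x))) ∈ T ×ˢ R :=
        Finset.mem_product.2 ⟨h2, Finset.mem_biUnion.2 ⟨h (nn x), h3,
          Finset.mem_image.2 ⟨h x, h4, rfl⟩⟩⟩
      exact h5
    · rintro ⟨h, x⟩ hq ⟨h', x'⟩ hq' heq
      have hq1 : (h, x) ∈ P := hq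
      have hq2 : (h', x') ∈ P := hq'
      rw [Finset.mem_filter, Finset.mem_product] at hq1 hq2
      simp only [Prod.mk.injEq] at heq
      obtain ⟨rfl, e1, e2⟩ := heq
      obtain ⟨α, β, _, hh⟩ := (hS h hq1.1.1).1
      obtain ⟨α', β', _, hh'⟩ := (hS h' hq2.1.1).1
      have hne := (hnn x hq1.1.2).2.1
      rw [hh, hh'] at e1 e2
      have h1 : (α - α') * (nn x - x) = 0 := by linear_combination e2 - e1
      have h2 : α = α' := by
        rcases mul_eq_zero.1 h1 with h3 | h3
        · exact sub_eq_zero.1 h3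
        · exact absurd (sub_eq_zero.1 h3) hne
      have h4 : β = β' := by
        rw [h2] at e1
        exact add_left_cancel e1
      have h5 : h = h' := by
        ext z
        rw [hh, hh', h2, h4]
      rw [h5]
  have hP2 : P.card = ∑ h ∈ S, (T.filter fun x => Nice T nn h x).card := by
    show ((S ×ˢ T).filter fun q => Nice T nn q.1 q.2).card = _
    rw [Finset.card_filter, Finset.sum_product]
    refine Finset.sum_congr rfl fun h _ => ?_
    rw [Finset.card_filter]
  have hlow : S.card * T.card ≤ 2 * P.card := by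
    rw [hP2, Finset.mul_sum, ← smul_eq_mul, ← Finset.sum_const]
    refine Finset.sum_le_sum fun h hh => ?_
    have h1 := nice_card hKIS T v nn hnn h (hS h hh).1 (hS h hh).2
    omega
  rw [Finset.card_product] at hP1
  have h1 : S.card * T.card ≤ (50 * T.card) * T.card := by
    calc S.card * T.card ≤ 2 * P.card := hlow
      _ ≤ 2 * (T.card * R.card) := Nat.mul_le_mul_left 2 hP1
      _ ≤ 2 * (T.card * (T.card * 25)) := Nat.mul_le_mul_left 2 (Nat.mul_le_mul_left _ hR)
      _ = (50 * T.card) * T.card := by ring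
  exact Nat.le_of_mul_le_mul_right h1 (by omega)

end Pool.Agent.Lib.MP_70c3c6_co.GP
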