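import Pool.Agent.Lib.MP_70c3c6_co.GP.Spec

/-!
MP_70c3c6_co, GAP THEOREM, module PAB: the good points are not on a parabola.  The numbers u_i of the
good points are distinct, every sum u_i + u_j is the image of an element of E, and a finite set U of
complex numbers has card (U + U) at least 2 card U - 1 (Cauchy-Davenport for torsion-free groups).
-/

set_option autoImplicit false
open Classical Polynomial Pointwise

namespace Pool.Agent.Lib.MP_70c3c6_co.GP

open Pool.Agent.Lib.MP_70c3c6_co.EQ
open Pool.Agent.Lib.MP_70c3c6_co.FG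

namespace PABM

theorem core {ι : Type} [Fintype ι] (x y τ : ι → ℂ) (M : ι → Finset ℂ) (E : Finset ℂ)
    (hS : SysB x y τ M E) (hE : E.card = Fintype.card ι)
    (hb : 3 * (Bd M).card < Fintype.card ι)
    (a1 b1 c1 a2 b2 c2 : ℂ) (hdet : a1 * b2 - a2 * b1 ≠ 0)
    (h1 : ∀ i, (M i).card = 1 →
      (a1 * x i + b1 * y i + c1) ^ 2 + (a2 * x i + b2 * y i + c2) = 0)
    (h2 : ∀ i, (M i).card = 1 →
      2 * (a1 * x i + b1 * y i + c1) * (a1 + b1 * τ i) + (a2 + b2 * τ i) = 0) : False := by
  obtain ⟨G, hG⟩ : ∃ G : Finset ι, G = Finset.univ.filter fun i => (M i).card = 1 := ⟨_, rfl⟩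
  obtain ⟨u, hu⟩ : ∃ u : ι → ℂ, ∀ i, u i = a1 * x i + b1 * y i + c1 := ⟨_, fun _ => rfl⟩
  have hGm : ∀ i, i ∈ G ↔ (M i).card = 1 := by intro i; simp [hG]
  have hcard : G.card + (Bd M).card = Fintype.card ι := by
    have h := Finset.card_filter_add_card_filter_not (s := (Finset.univ : Finset ι))
      (fun i => (M i).card = 1)
    rw [hG]
    unfold Bd
    rw [← Finset.card_univ]
    exact h
  have hinj : ∀ i, (M i).card = 1 → ∀ j, (M j).card = 1 → u i = u j → i = j := by
    intro i hi j hj hij
    have hi' := h1 i hi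
    have hj' := h1 j hj
    rw [hu i, hu j] at hij
    have e1 : a1 * (x i - x j) + b1 * (y i - y j) = 0 := by
      linear_combination hij
    have e2 : a2 * (x i - x j) + b2 * (y i - y j) = 0 := by
      linear_combination hi' - hj' -
        ((a1 * x i + b1 * y i + c1) + (a1 * x j + b1 * y j + c1)) * hij
    have e3 : (a1 * b2 - a2 * b1) * (x i - x j) = 0 := by
      linear_combination b2 * e1 - b1 * e2
    have e4 : x i - x j = 0 := by
      rcases mul_eq_zero.1 e3 with h | h
      · exact absurd h hdet
      · exact h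
    exact hS.inj (sub_eq_zero.1 e4)
  have htan : ∀ i, (M i).card = 1 → -(a2 + b2 * τ i) / (a1 + b1 * τ i) = u i + u i := by
    intro i hi
    have h := h2 i hi
    have hne : a1 + b1 * τ i ≠ 0 := by
      intro h0
      apply hdet
      have h3 : a2 + b2 * τ i = 0 := by
        rw [h0] at h
        linear_combination h
      linear_combination b2 * h0 - b1 * h3
    rw [div_eq_iff hne, hu i]
    linear_combination -h
  have hch : ∀ i, (M i).card = 1 → ∀ j, (M j).card = 1 → i ≠ j →
      -(a2 + b2 * ms x y i j) / (a1 + b1 * ms x y i j) = u i + u j := by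
    intro i hi j hj hij
    have hD : x j - x i ≠ 0 := by
      intro h
      exact hij (hS.inj (sub_eq_zero.1 h)).symm
    have he : ms x y i j * (x j - x i) = y j - y i := by
      unfold ms
      exact div_mul_cancel₀ _ hD
    have hA : (a1 + b1 * ms x y i j) * (x j - x i) = u j - u i := by
      rw [hu i, hu j]
      linear_combination b1 * he
    have hne : a1 + b1 * ms x y i j ≠ 0 := by
      intro h0
      rw [h0, zero_mul] at hA
      exact hij (hinj i hi j hj (sub_eq_zero.1 hA.symm).symm)
    have hB : (a2 + b2 * ms x y i j) * (x j - x i) = -(u i + u j) * (u j - u i) := by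
      have hi' := h1 i hi
      have hj' := h1 j hj
      rw [hu i, hu j]
      linear_combination b2 * he + hj' - hi'
    rw [div_eq_iff hne]
    apply mul_right_cancel₀ hD
    linear_combination (u i + u j) * (-hA) - hB
  have hUc : (G.image u).card = G.card := by
    apply Finset.card_image_of_injOn
    intro i hi j hj hij
    exact hinj i ((hGm i).1 hi) j ((hGm j).1 hj) hij
  have hsub : G.image u + G.image u ⊆ E.image (fun e => -(a2 + b2 * e) / (a1 + b1 * e)) := by
    intro z hz
    rw [Finset.mem_add] at hz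
    obtain ⟨p, hp, q, hq, rfl⟩ := hz
    rw [Finset.mem_image] at hp hq
    obtain ⟨i, hi, rfl⟩ := hp
    obtain ⟨j, hj, rfl⟩ := hq
    rw [hGm] at hi hj
    rw [Finset.mem_image]
    by_cases hij : i = j
    · subst hij
      exact ⟨τ i, hS.sub i (hS.tau i), htan i hi⟩
    · exact ⟨ms x y i j, hS.chord i j hij, hch i hi j hj hij⟩
  have hle : (G.image u + G.image u).card ≤ E.card :=
    (Finset.card_le_card hsub).trans Finset.card_image_le
  have h3 : 3 ≤ E.card := hS.three
  have hGpos : 0 < (G.image u).card := by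
    rw [hUc]
    omega
  have hne : (G.image u).Nonempty := Finset.card_pos.1 hGpos
  have hCD := cauchy_davenport_of_isAddTorsionFree hne hne
  rw [hUc] at hCD
  omega

end PABM

theorem specPAB (_hPRB : SpecPRB) : SpecPAB := by
  intro ι _ x y τ M E hS hE hb a1 b1 c1 a2 b2 c2 hP
  obtain ⟨hdet, h1, h2⟩ := hP
  exact PABM.core x y τ M E hS hE hb a1 b1 c1 a2 b2 c2 hdet (fun i hi => h1 ⟨i, hi⟩)
    (fun i hi => h2 ⟨i, hi⟩)

end Pool.Agent.Lib.MP_70c3c6_co.GP
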