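import Pool.Agent.Lib.MP_70c3c6_co.GP.Spec

/-!
Module PIG: too many near-symmetries with prescribed centres (pigeonhole over ten radii).
-/

set_option autoImplicit false
open Classical Polynomial Pointwise

namespace Pool.Agent.Lib.MP_70c3c6_co.GP

open Pool.Agent.Lib.MP_70c3c6_co.EQ
open Pool.Agent.Lib.MP_70c3c6_co.FG

namespace PIGM

lemma aff_one : Aff 1 := ⟨1, 0, one_ne_zero, fun z => by rw [Equiv.Perm.one_apply]; ring⟩

lemma aff_mul {g h : Equiv.Perm ℂ} (hg : Aff g) (hh : Aff h) : Aff (g * h) := by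
  obtain ⟨a, b, ha, hab⟩ := hg
  obtain ⟨c, d, hc, hcd⟩ := hh
  refine ⟨a * c, a * d + b, mul_ne_zero ha hc, fun z => ?_⟩
  rw [Equiv.Perm.mul_apply, hab, hcd]
  ring

lemma fix_unique {h : Equiv.Perm ℂ} (hh : Aff h) (h1 : h ≠ 1) {w w' : ℂ} (hw : h w = w)
    (hw' : h w' = w') : w = w' := by
  obtain ⟨a, b, ha, hab⟩ := hh
  by_contra hne
  apply h1
  have e1 := hab w
  have e2 := hab w'
  rw [hw] at e1
  rw [hw'] at e2
  have e3 : (a - 1) * (w - w') = 0 := by linear_combination e2 - e1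
  have ha1 : a = 1 := by
    rcases mul_eq_zero.mp e3 with h | h
    · exact sub_eq_zero.mp h
    · exact absurd (sub_eq_zero.mp h) hne
  have hb : b = 0 := by
    rw [ha1] at e1
    linear_combination (-1 : ℂ) * e1
  refine Equiv.ext fun z => ?_
  rw [hab, ha1, hb, Equiv.Perm.one_apply]
  ring

lemma dfc_mul (T : Finset ℂ) (g h : Equiv.Perm ℂ) : dfc T (g * h) ≤ dfc T g + dfc T h := by
  have h1 : (T.filter fun s => (g * h) s ∉ T) ⊆
      (T.filter fun s => h s ∈ T ∧ g (h s) ∉ T) ∪ (T.filter fun s => h s ∉ T) := by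
    intro s hs
    rw [Finset.mem_filter, Equiv.Perm.mul_apply] at hs
    rw [Finset.mem_union, Finset.mem_filter, Finset.mem_filter]
    by_cases hm : h s ∈ T
    · exact Or.inl ⟨hs.1, hm, hs.2⟩
    · exact Or.inr ⟨hs.1, hm⟩
  have h2 : (T.filter fun s => h s ∈ T ∧ g (h s) ∉ T).card ≤ dfc T g := by
    unfold dfc
    refine Finset.card_le_card_of_injOn (fun s => h s) ?_ (fun a _ b _ hab => h.injective hab)
    intro s hs
    have hs' := Finset.mem_filter.mp (Finset.mem_coe.mp hs)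
    exact Finset.mem_coe.mpr (Finset.mem_filter.mpr ⟨hs'.2.1, hs'.2.2⟩)
  have h3 : dfc T (g * h) ≤ ((T.filter fun s => h s ∈ T ∧ g (h s) ∉ T) ∪
      (T.filter fun s => h s ∉ T)).card := Finset.card_le_card h1
  have h4 := Finset.card_union_le (T.filter fun s => h s ∈ T ∧ g (h s) ∉ T)
    (T.filter fun s => h s ∉ T)
  have h5 : (T.filter fun s => h s ∉ T).card = dfc T h := rfl
  omega

lemma dfc_one (T : Finset ℂ) : dfc T 1 = 0 := by
  unfold dfc
  rw [Finset.card_eq_zero, Finset.filter_eq_empty_iff]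
  intro s hs hn
  exact hn (by rw [Equiv.Perm.one_apply]; exact hs)

lemma fin_set (hNNB : SpecNNB) (T : Finset ℂ) (v : ℕ) (h2 : 2 ≤ T.card)
    (hv : 102 * v ≤ T.card) : {h : Equiv.Perm ℂ | Aff h ∧ dfc T h ≤ v}.Finite := by
  by_contra hinf
  obtain ⟨S, hS, hc⟩ := Set.Infinite.exists_subset_card_eq hinf (50 * T.card + 1)
  have := hNNB T v S h2 hv (fun h hh => hS (Finset.mem_coe.mpr hh))
  omega

lemma sets (hNNB : SpecNNB) (T : Finset ℂ) (v : ℕ) (h2 : 2 ≤ T.card)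
    (hv : 104448 * v ≤ T.card) : ∃ S : ℕ → Finset (Equiv.Perm ℂ),
    ∀ j ≤ 10, ∀ h, h ∈ S j ↔ Aff h ∧ dfc T h ≤ 2 ^ j * v := by
  have key : ∀ j, ∃ S : Finset (Equiv.Perm ℂ), j ≤ 10 →
      ∀ h, h ∈ S ↔ Aff h ∧ dfc T h ≤ 2 ^ j * v := by
    intro j
    by_cases hj : j ≤ 10
    · have hp : 2 ^ j ≤ 2 ^ 10 := Nat.pow_le_pow_right (by norm_num) hj
      have hb : 102 * (2 ^ j * v) ≤ T.card := by
        calc 102 * (2 ^ j * v) = (102 * v) * 2 ^ j := by ring
          _ ≤ (102 * v) * 2 ^ 10 := Nat.mul_le_mul_left _ hp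
          _ = 104448 * v := by ring
          _ ≤ T.card := hv
      refine ⟨(fin_set hNNB T (2 ^ j * v) h2 hb).toFinset, fun _ h => ?_⟩
      rw [Set.Finite.mem_toFinset]
      exact Iff.rfl
    · exact ⟨∅, fun h => absurd h hj⟩
  choose S hS using key
  exact ⟨S, hS⟩

lemma growth {S : ℕ → Finset (Equiv.Perm ℂ)} {N : ℕ} (h0 : N ≤ (S 0).card)
    (hmul : ∀ j < 10, S j * S j ⊆ S (j + 1))
    (hbig : ∀ j < 10, 3 * (S j).card ≤ 2 * (S j * S j).card) :
    ∀ j ≤ 10, 3 ^ j * N ≤ 2 ^ j * (S j).card := by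
  intro j
  induction j with
  | zero => intro _; rw [pow_zero, pow_zero, one_mul, one_mul]; exact h0
  | succ j ih =>
    intro hj
    have h1 := ih (by omega)
    have h2 := hbig j (by omega)
    have h3 := Finset.card_le_card (hmul j (by omega))
    calc 3 ^ (j + 1) * N = 3 * (3 ^ j * N) := by rw [pow_succ]; ring
      _ ≤ 3 * (2 ^ j * (S j).card) := Nat.mul_le_mul_left _ h1
      _ = 2 ^ j * (3 * (S j).card) := by ring
      _ ≤ 2 ^ j * (2 * (S j * S j).card) := Nat.mul_le_mul_left _ h2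
      _ ≤ 2 ^ j * (2 * (S (j + 1)).card) :=
        Nat.mul_le_mul_left _ (Nat.mul_le_mul_left _ h3)
      _ = 2 ^ (j + 1) * (S (j + 1)).card := by rw [pow_succ]; ring

end PIGM

/-- PIG. -/
theorem specPIG (hNNB : SpecNNB) (hGRP : SpecGRP) : SpecPIG := by
  intro T v h2 hv hT
  obtain ⟨S, hS⟩ := PIGM.sets hNNB T v h2 hv
  choose! f hf using hT
  have hfS : ∀ j ≤ 10, ∀ w ∈ T, f w ∈ S j := by
    intro j hj w hw
    rw [hS j hj]
    refine ⟨(hf w hw).2.1, (hf w hw).2.2.2.trans ?_⟩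
    calc v = 1 * v := (one_mul v).symm
      _ ≤ 2 ^ j * v := Nat.mul_le_mul_right _ Nat.one_le_two_pow
  have hmul : ∀ j < 10, S j * S j ⊆ S (j + 1) := by
    intro j hj x hx
    obtain ⟨g, hg, h, hh, rfl⟩ := Finset.mem_mul.mp hx
    rw [hS j (by omega)] at hg hh
    rw [hS (j + 1) (by omega)]
    refine ⟨PIGM.aff_mul hg.1 hh.1, (PIGM.dfc_mul T g h).trans ?_⟩
    have h3 : 2 ^ (j + 1) * v = 2 ^ j * v + 2 ^ j * v := by rw [pow_succ]; ring
    rw [h3]
    exact Nat.add_le_add hg.2 hh.2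
  have h0 : T.card ≤ (S 0).card := by
    refine Finset.card_le_card_of_injOn f (fun w hw => ?_) ?_
    · exact Finset.mem_coe.mpr (hfS 0 (by norm_num) w (Finset.mem_coe.mp hw))
    · intro w hw w' hw' he
      have a1 := hf w (Finset.mem_coe.mp hw)
      have a2 := hf w' (Finset.mem_coe.mp hw')
      refine PIGM.fix_unique a1.2.1 a1.1 a1.2.2.1 ?_
      rw [he]
      exact a2.2.2.1
  by_cases hbig : ∀ j < 10, 3 * (S j).card ≤ 2 * (S j * S j).card
  · have h10 := PIGM.growth h0 hmul hbig 10 le_rfl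
    have h11 : (S 10).card ≤ 50 * T.card := by
      refine hNNB T (2 ^ 10 * v) (S 10) h2 ?_ (fun h hh => (hS 10 le_rfl h).mp hh)
      calc 102 * (2 ^ 10 * v) = 104448 * v := by ring
        _ ≤ T.card := hv
    norm_num at h10
    omega
  · push Not at hbig
    obtain ⟨j, hj, hlt⟩ := hbig
    have h1 : (1 : Equiv.Perm ℂ) ∈ S j := by
      rw [hS j (by omega)]
      exact ⟨PIGM.aff_one, by rw [PIGM.dfc_one]; exact Nat.zero_le _⟩
    obtain ⟨w0, hw0⟩ := hGRP (S j) h1 hlt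
    have hall : ∀ w ∈ T, w = w0 := by
      intro w hw
      have a1 := hf w hw
      exact PIGM.fix_unique a1.2.1 a1.1 a1.2.2.1 (hw0 (f w) (hfS j (by omega) w hw) a1.2.1)
    have hc : T.card ≤ 1 := by
      rw [Finset.card_le_one]
      intro a ha b hb
      rw [hall a ha, hall b hb]
    omega

end Pool.Agent.Lib.MP_70c3c6_co.GP
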