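import Pool.Agent.Lib.MP_70c3c6_co.FG.Spec

/-!
MP_70c3c6_co, GAP THEOREM.  A supersolvable complex arrangement of s lines, not a pencil, either is
projectively the arrangement of the sides and axes of a regular polygon (Std) or has
t_2 at least (1/2 + 1/4000000) s.

m lines through p, k lines off p, s = k + m.  Dually: k points P_i = (x_i, y_i), a set E of m slopes
containing all chord slopes, M_i = the nonempty set of the slopes of E not seen from P_i;
t_2 is at least the sum of card M_i = k + J.  Good: card M_i = 1, M_i = {tau_i}; b = number of the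
bad points, b at most J.
k < m or m = 2: trivial.  k = m: good points see every other slope exactly once; lemma of tangents,
conic, Freiman's 3/2 theorem: if J < k/3 all points are the vertices of a regular k-gon (HYB).
k > m: KEY RELATION at a slope e of a chord of good points: (e - tau_i)^-1 + (e - tau_j)^-1 = lam e,
and 2 (e - tau_i)^-1 = lam e if i is good and on a line of slope e with two other points.  So every e
acts as an involution on the set T of the tau_i of the good points, and but for b good points this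
respects the classes (W1).  The classes have nearly the same size a (W2, W3); a at least 3 (W5).  For N =
card T at least 3, t of the largest class, t = infinity: for every w in T two of the at least 3 slopes
of F t w give a similarity h_w with centre w, not the identity, which maps all but u points of T into T
(MOB).  There are at most 50 N similarities which almost preserve T (NNB, nearest neighbours), so for
some radius the doubling is < 3/2, and Mathlib's doubling theorem gives a finite group, whose
average of the images of 0 is fixed by all h_w: contradiction (GRP, PIG).  N = 2: TWO.  N = 1: out.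
-/

set_option autoImplicit false
open Classical Polynomial Pointwise

namespace Pool.Agent.Lib.MP_70c3c6_co.GP

open Pool.Agent.Lib.MP_70c3c6_co.EQ
open Pool.Agent.Lib.MP_70c3c6_co.FG

/-- points, slopes, and for every point the set of the slopes not seen from it -/
structure SysB {ι : Type} [Fintype ι] (x y τ : ι → ℂ) (M : ι → Finset ℂ) (E : Finset ℂ) : Prop where
  inj : Function.Injective x
  three : 3 ≤ E.card
  sub : ∀ i, M i ⊆ E
  tau : ∀ i, τ i ∈ M i
  chord : ∀ i j, i ≠ j → ms x y i j ∈ E
  tang : ∀ i j, i ≠ j → ms x y i j ∉ M i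
  cover : ∀ i, ∀ e ∈ E, e ∉ M i → ∃ j, j ≠ i ∧ ms x y i j = e

/-- the bad points -/
noncomputable def Bd {ι : Type} [Fintype ι] (M : ι → Finset ℂ) : Finset ι :=
  Finset.univ.filter fun i => (M i).card ≠ 1

/-- the good points of class s -/
noncomputable def cls {ι : Type} [Fintype ι] (τ : ι → ℂ) (M : ι → Finset ℂ) (s : ℂ) : Finset ι :=
  Finset.univ.filter fun i => (M i).card = 1 ∧ τ i = s

/-- the set of the classes -/
noncomputable def TT {ι : Type} [Fintype ι] (τ : ι → ℂ) (M : ι → Finset ℂ) : Finset ℂ :=
  (Finset.univ.filter fun i => (M i).card = 1).image τ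

/-- the excess -/
noncomputable def JJ {ι : Type} [Fintype ι] (M : ι → Finset ℂ) : ℕ := ∑ i, ((M i).card - 1)

/-- the involution of the slope e relates s and s' -/
def Rel (lam : ℂ → ℂ) (e s s' : ℂ) : Prop := (e - s)⁻¹ + (e - s')⁻¹ = lam e

/-- the classes without partner in direction e -/
noncomputable def UU (T : Finset ℂ) (lam : ℂ → ℂ) (e : ℂ) : Finset ℂ :=
  T.filter fun s => s ≠ e ∧ ∀ s' ∈ T, s' ≠ e → ¬ Rel lam e s s'

/-- the slopes which exchange t and s -/
noncomputable def FF (E : Finset ℂ) (lam : ℂ → ℂ) (t s : ℂ) : Finset ℂ :=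
  E.filter fun e => e ≠ t ∧ e ≠ s ∧ Rel lam e t s

/-- the key relations -/
structure Key {ι : Type} [Fintype ι] (x y τ : ι → ℂ) (M : ι → Finset ℂ) (E : Finset ℂ)
    (lam : ℂ → ℂ) : Prop where
  two : ∀ i j, i ≠ j → (M i).card = 1 → (M j).card = 1 → Rel lam (ms x y i j) (τ i) (τ j)
  rich : ∀ i j l, (M i).card = 1 → j ≠ i → l ≠ i → j ≠ l → ms x y i j = ms x y i l →
    Rel lam (ms x y i j) (τ i) (τ i)
  out : ∀ t ∈ E, ∃ e ∈ E, e ≠ t ∧ ¬ Rel lam e t t

/-- HPB.  Proof: copy of FG/HPO.lean (specHPO) with SysB in place of SysG. -/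
def SpecHPB : Prop := ∀ (ι : Type) [Fintype ι] (x y τ : ι → ℂ) (M : ι → Finset ℂ) (E : Finset ℂ),
  SysB x y τ M E → ∀ i0, x i0 = 0 → y i0 = 0 → ∃ H : ℂ[X][X], MPss.TD H E.card ∧
    ∀ i, H.eval (C (- x i) * X + C (y i)) = C (- x i) * WW E

/-- OUT.  Proof: as in FG/ONE.lean: if all e in E.erase t satisfied 2 (e - t)⁻¹ = W''(e)/((m-1) W'(e)),
that is (e - t) W''(e) = 2 (m-1) W'(e), then the polynomial (X - t) W'' - 2(m-1) W' + m(m-1) G,
G = the product over E.erase t, would be 0, and at t: (m-1)(m-2) G(t) = 0. -/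
def SpecOUT : Prop := ∀ (E : Finset ℂ) (t : ℂ), 3 ≤ E.card → t ∈ E →
  ∃ e ∈ E, e ≠ t ∧ (e - t) * (derivative (derivative (WW E))).eval e ≠
    2 * ((E.card : ℂ) - 1) * (derivative (WW E)).eval e

/-- KYB.  Proof: lam e = W''(e)/((m-1) W'(e)), W = WW E, m = card E.  Fix i0 and translate as in
FG/KEY.lean (x' l = x l - x i0), H from HPB, TOP (card E < card ι), c_l = H_Y(X, F_l).  For good l: c_l(e)
= W'(e) for e in E, e not tau_l (cover, CRX; M l = {tau_l} by `Finset.card_eq_one`), so CLF applies.
two: CRX for i, j and CLF for both, as in KEY.  rich: the three points are on one line of slope e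
(ms j l = ms i j, as in FG/RIC.lean), so by CRX the three sums c_i' + c_j', c_i' + c_l', c_j' + c_l' at e
are W''(e) (for ALL points, good or bad), 2 c_i'(e) = W''(e), and CLF for i gives
(e - tau_i) W''(e) = 2 (m-1) W'(e).  W'(e) is not 0 on E, m - 1 is not 0, e - tau is not 0 (tang).
out: OUT. -/
def SpecKYB : Prop := ∀ (ι : Type) [Fintype ι] (x y τ : ι → ℂ) (M : ι → Finset ℂ) (E : Finset ℂ),
  SysB x y τ M E → E.card < Fintype.card ι → ∃ lam : ℂ → ℂ, Key x y τ M E lam

/-- WA.  Proof: a good point i with tau_i = s in UU e: s is not e, so e is not in M i = {s}, cover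
gives j with ms i j = e.  j is bad: otherwise tau_j is in TT, not e (tang for j, i; ms is symmetric),
and Rel by `two`, against s in UU e.  i -> j is injective on the good points with class in UU e:
if i, i' have the same j, then ms i j = e = ms j i' , so ms i i' = e too (collinear) and `rich` for
i (with j, i') gives Rel e s s, s in T, s not e, a contradiction.  The classes cls s, s in UU e, are disjoint:
the sum is the cardinality of their union (`Finset.card_biUnion`). -/
def SpecWA : Prop := ∀ (ι : Type) [Fintype ι] (x y τ : ι → ℂ) (M : ι → Finset ℂ) (E : Finset ℂ)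
  (lam : ℂ → ℂ), SysB x y τ M E → Key x y τ M E lam → ∀ e ∈ E,
  ∑ s ∈ UU (TT τ M) lam e, (cls τ M s).card ≤ (Bd M).card

/-- WB.  Proof: i good, tau_i = t.  j -> ms i j maps cls s injectively into FF t s: Rel by `two`,
the slope is not t, s by tang; if j, j' have the same slope e then `rich` gives Rel e t t, with
Rel e t s: t = s (inv_injective).  (This needs one i in cls t: t in TT.)  By symmetry (Rel e t s iff
Rel e s t) also card (cls t) at most card (FF t s).  Last: for e in FF t s there is j with
ms i j = e (e not t); if j is good then by `two` tau_j = s; so FF t s injects into cls s and Bd. -/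
def SpecWB : Prop := ∀ (ι : Type) [Fintype ι] (x y τ : ι → ℂ) (M : ι → Finset ℂ) (E : Finset ℂ)
  (lam : ℂ → ℂ), SysB x y τ M E → Key x y τ M E lam → ∀ t ∈ TT τ M, ∀ s ∈ TT τ M, t ≠ s →
  (cls τ M s).card ≤ (FF E lam t s).card ∧ (cls τ M t).card ≤ (FF E lam t s).card ∧
  (FF E lam t s).card ≤ (cls τ M s).card + (Bd M).card

/-- RCH, every good point is on a line with three points.  Proof: as FG/RIC.lean (2): j -> ms i j maps
the card ι - 1 others into E.erase (tau_i), which has card E - 1 < card ι - 1 elements. -/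
def SpecRCH : Prop := ∀ (ι : Type) [Fintype ι] (x y τ : ι → ℂ) (M : ι → Finset ℂ) (E : Finset ℂ),
  SysB x y τ M E → E.card < Fintype.card ι → ∀ i, (M i).card = 1 →
  ∃ j l, j ≠ i ∧ l ≠ i ∧ j ≠ l ∧ ms x y i j = ms x y i l

/-- WC.  Proof: the sets FF t s, s in T.erase t, are disjoint subsets of E (Rel e t s determines s), they
do not contain t, and they do not contain the slope e0 of a line with three points through some i in
cls t (RCH; `rich` gives Rel e0 t t; e0 is in E, not t by tang).  t is in E. -/
def SpecWC : Prop := ∀ (ι : Type) [Fintype ι] (x y τ : ι → ℂ) (M : ι → Finset ℂ) (E : Finset ℂ)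
  (lam : ℂ → ℂ), SysB x y τ M E → Key x y τ M E lam → E.card < Fintype.card ι → ∀ t ∈ TT τ M,
  ∑ s ∈ (TT τ M).erase t, (FF E lam t s).card + 2 ≤ E.card

/-- DEG, degrees.  For a point i let n(i,e) = the number of j, j not i, ms i j = e, and r(i) the number of
the j not i which are on a line with three points through i (there is l, not i, not j, ms i l = ms i j).
Sum over e in E minus M i of (n(i,e) - 1) = card ι - 1 - (m - card M i) =: q_i (all n(i,e) at least 1 by
cover), and r(i) = the sum of the n(i,e) which are at least 2.  So q_i + 1 at most r(i) if q_i is positive and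
r(i) at most 2 q_i always (n at most 2 (n - 1) for n at least 2). -/
def SpecDEG : Prop := ∀ (ι : Type) [Fintype ι] (x y τ : ι → ℂ) (M : ι → Finset ℂ) (E : Finset ℂ),
  SysB x y τ M E → E.card < Fintype.card ι → ∀ i,
  (Finset.univ.filter fun j => j ≠ i ∧ ∃ l, l ≠ i ∧ l ≠ j ∧ ms x y i l = ms x y i j).card + 2 +
      2 * E.card ≤ 2 * (Fintype.card ι + (M i).card) ∧
  Fintype.card ι + (M i).card ≤ E.card + (Finset.univ.filter fun j =>
    j ≠ i ∧ ∃ l, l ≠ i ∧ l ≠ j ∧ ms x y i l = ms x y i j).card

/-- WE.  Proof: q = card ι - card E, at least 1.  R = the set of the pairs (i, j), i good, j bad, on a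
line with three points.  (The relation is symmetric: i, j, l collinear.)  For good i: r(i) at least q + 1
(DEG), the good ones among these j have tau_j = tau_i (`rich` and `two`), so there is at most one of
them (card cls at most 2), and at least q bad ones: card R at least q (card ι - b).  For bad j: at most
r(j) at most 2 (q - 1 + card M j).  So q (card ι - b) is at most the sum over bad j of
2 (q - 1 + card M j) = 2 q b + 2 J' with J' = the sum over bad j of (card M j - 1) = J (good points
contribute 0; card M j at least 1 by tau, so at least 2 for bad j, and b at most J).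
q (card ι) at most 3 q b + 2 J at most 3 q J + 2 J at most 5 q J. -/
def SpecWE : Prop := ∀ (ι : Type) [Fintype ι] (x y τ : ι → ℂ) (M : ι → Finset ℂ) (E : Finset ℂ)
  (lam : ℂ → ℂ), SysB x y τ M E → Key x y τ M E lam → E.card < Fintype.card ι →
  (∀ s ∈ TT τ M, (cls τ M s).card ≤ 2) → Fintype.card ι ≤ 5 * JJ M

/-- BJ.  Proof: good iff card M i = 1; bad points have card M i at least 2 (tau). -/
def SpecBJ : Prop := ∀ (ι : Type) [Fintype ι] (x y τ : ι → ℂ) (M : ι → Finset ℂ) (E : Finset ℂ),
  SysB x y τ M E → (Bd M).card ≤ JJ M ∧ ∑ i, (M i).card = Fintype.card ι + JJ M ∧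
  ∑ s ∈ TT τ M, (cls τ M s).card + (Bd M).card = Fintype.card ι

/-- WGT.  Proof: a = card (cls t), b = card Bd, N = card T, k = card ι.  WB, WC: (N - 1) a + 2 at most
card E at most k - 1.  BJ: the sum of card (cls s) is k - b.  So (second claim) trivially N a + b at
least k, and the sum over T of (a - card (cls s)) is at most a + b.  L = those s with 2 card (cls s) < a:
card L * a at most 2 (a + b).  UU e minus L: card * a at most 2 b by WA.  So card (UU e) * a at most 2a + 4b,
at most 8 b if a is at most 2b.  If a > 2 b: by WB a at most card (cls s) + b, so all classes have more than b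
points and by WA UU e is empty. -/
def SpecWGT : Prop := ∀ (ι : Type) [Fintype ι] (x y τ : ι → ℂ) (M : ι → Finset ℂ) (E : Finset ℂ)
  (lam : ℂ → ℂ), SysB x y τ M E → Key x y τ M E lam → E.card < Fintype.card ι → ∀ t ∈ TT τ M,
  (∀ s ∈ TT τ M, (cls τ M s).card ≤ (cls τ M t).card) →
  (∀ e ∈ E, UU (TT τ M) lam e = ∅ ∨ ((cls τ M t).card ≤ 2 * (Bd M).card ∧
    (UU (TT τ M) lam e).card * (cls τ M t).card ≤ 8 * (Bd M).card)) ∧
  Fintype.card ι ≤ (TT τ M).card * (cls τ M t).card + (Bd M).card

/-- TWO.  Proof: T = {t, w}, card (cls t) at least card (cls w); the two sum up to k - b (BJ); by WB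
card (cls t) at most card (cls w) + b, so both are more than b (5b < k) and UU e is empty for all e in E
(WA).  Let e be in E, not t, not w.  t is not in UU e: Rel e t t or Rel e t w.  If Rel e t t: w is not in
UU e, so Rel e w t or Rel e w w, and with Rel e t t both give w = t.  So Rel e t w.  Hence for i in
cls t every line with three points through i (slope e0, Rel e0 t t by `rich`, e0 not t) and every
chord from i into cls t has slope w (not Rel e t w, since that and Rel e t t give t = w).
DEG for i: card ι + 1 at most card E + r(i), r(i) = n(i,w); and n(i, w): count over the slopes: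
card ι - 1 = n(i,w) + the sum over e in E minus {t, w} of n(i,e) = n(i,w) + (m - 2) (each is 1 because
there is no line with three points of slope e).  So card (cls t) at most 1 + n(i,w) = k - m + 2, the same
for w: k - b at most 2(k - m) + 4. -/
def SpecTWO : Prop := ∀ (ι : Type) [Fintype ι] (x y τ : ι → ℂ) (M : ι → Finset ℂ) (E : Finset ℂ)
  (lam : ℂ → ℂ), SysB x y τ M E → Key x y τ M E lam → E.card < Fintype.card ι →
  (TT τ M).card = 2 → 5 * (Bd M).card < Fintype.card ι →
  2 * E.card ≤ Fintype.card ι + (Bd M).card + 4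

/-- similarities -/
def Aff (h : Equiv.Perm ℂ) : Prop := ∃ α β : ℂ, α ≠ 0 ∧ ∀ z, h z = α * z + β

/-- the number of the points of T which leave T -/
noncomputable def dfc (T : Finset ℂ) (h : Equiv.Perm ℂ) : ℕ := (T.filter fun s => h s ∉ T).card

/-- KIS.  Proof: for x1, x2 distinct in this set |x1 - p|, |x2 - p| are at most |x1 - x2|.  Unit vectors
z = (x - p)/|x - p|: if |z1 - z2| < 1 and r1 at most r2 then |x1 - x2|^2 = r1^2 + r2^2 -
r1 r2 (2 - |z1 - z2|^2) < r1^2 + r2^2 - r1 r2, at most r2^2, absurd.  So |z1 - z2| is at least 1, and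
x -> (floor(2 re z), floor(2 im z)) in {-2..2}^2 is injective (same cell: |z1 - z2|^2 < 1/2). -/
def SpecKIS : Prop := ∀ (T : Finset ℂ) (p : ℂ),
  (T.filter fun x => x ≠ p ∧ ∀ x' ∈ T, x' ≠ x → ‖x - p‖ ≤ ‖x - x'‖).card ≤ 25

/-- NNB.  Proof: Q p = the set of KIS.  nn x in T, not x, at minimal distance from x in T
(`Finset.exists_min_image`); x is in Q (nn x).  Let h be in S, h z = α z + β.  x in T is nice if h x,
h (nn x) are in T and h x is in Q (h (nn x)).  Not nice: (i) h x not in T: at most v points x; (ii)
h (nn x) not in T: x in Q p for one of the at most v points p of T with h p not in T: at most 25 v;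
(iii) some x' in T, not h x, |h x - x'| < |h x - h (nn x)|: p = h⁻¹ x' satisfies p not x and
|x - p| < |x - nn x| (h multiplies distances by |α|), so p is not in T and x is in Q p; the
number of the p not in T with h p in T is at most v (h: T -> T misses at most v points of T:
card T = number of s in T with h s in T + dfc; so card (T minus h T) = dfc): at most 25 v.
So at least card T - 51 v, at least card T / 2 points are nice.  The map (h, x) -> (x, h x, h (nn x))
on the pairs with x nice is injective (a similarity is determined by its values at x and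
nn x, not x), and (h x, h (nn x)) is one of the at most 25 card T pairs (y, y') with y' in T,
y in Q y'.  So card S * card T / 2 is at most card T * 25 card T. -/
def SpecNNB : Prop := ∀ (T : Finset ℂ) (v : ℕ) (S : Finset (Equiv.Perm ℂ)), 2 ≤ T.card →
  102 * v ≤ T.card → (∀ h ∈ S, Aff h ∧ dfc T h ≤ v) → S.card ≤ 50 * T.card

/-- GRP.  Proof: `Finset.doubling_lt_three_halves` (Mathlib.Combinatorics.Additive.VerySmallDoubling):
a finite subgroup H with S in 1 • H.  w0 = (card H)⁻¹ * the sum of g 0, g in H.  For h in S, h in H,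
h z = α z + β: h w0 = (card H)⁻¹ * the sum of h (g 0) = w0 (reindex g -> h g). -/
def SpecGRP : Prop := ∀ S : Finset (Equiv.Perm ℂ), 1 ∈ S → 2 * (S * S).card < 3 * S.card →
  ∃ w0 : ℂ, ∀ h ∈ S, Aff h → h w0 = w0

/-- PIG.  Proof: for j at most 10 the set of all h with Aff h and dfc T h at most 2^j v is finite (NNB:
otherwise it has a finite subset with 50 card T + 1 elements, `Set.Infinite.exists_subset_card_eq`),
S_j.  dfc (g h) is at most dfc g + dfc h (s in T with g (h s) not in T: h s not in T, or h s in T with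
g (h s) not in T), so S_j * S_j is in S_(j+1); 1 is in S_j.  card S_0 is at least card T (w -> h_w is
injective: a similarity other than 1 has at most one fixed point).  If 3 card S_j is at most
2 card (S_j * S_j) for all j < 10 then 2^10 card S_10 is at least 3^10 card T, but 3^10 = 59049 > 50 * 1024.
So GRP applies to some S_j: w0 = w for all w in T, but T has two elements. -/
def SpecPIG : Prop := ∀ (T : Finset ℂ) (v : ℕ), 2 ≤ T.card → 104448 * v ≤ T.card →
  (∀ w ∈ T, ∃ h : Equiv.Perm ℂ, h ≠ 1 ∧ Aff h ∧ h w = w ∧ dfc T h ≤ v) → False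

/-- MOB.  Proof (as in FG/TWR.lean): Y s = (s - t)⁻¹ (injective on T.erase t), om = Y w, rho = (Y e - om)^2,
rho' = (Y e' - om)^2, both not 0 (e, e' not w, t), rho not rho'.  h z = om + (rho/rho')(z - om).
Let s be in T, not t, w.  If s = e: (Y s - om)^2 = rho, put g s = s.  If s is not e and not in UU e:
s' in T, not e, Rel e s s'; s' is not t (otherwise (e-s)⁻¹ = (e-w)⁻¹), not w (otherwise s = t), and
(Y s - om)(Y s' - om) = rho (e - s = 1/x - 1/Y s etc., x = Y e, see TWR); put g s = s'.  The same with
e': g'.  If s is not in UU e' and s' = g' s is not in UU e then Y (g s') - om = rho/(Y s' - om) =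
(rho/rho')(Y s - om), so h (Y s) = Y (g s') is in the image.  g' is injective, so at most
card (UU e') + card (UU e) points fail; h om = om. -/
def SpecMOB : Prop := ∀ (T : Finset ℂ) (lam : ℂ → ℂ) (t w e e' : ℂ), t ∈ T → w ∈ T → t ≠ w →
  e ≠ t → e ≠ w → e' ≠ t → e' ≠ w → Rel lam e t w → Rel lam e' t w →
  ((e - t)⁻¹ - (w - t)⁻¹) ^ 2 ≠ ((e' - t)⁻¹ - (w - t)⁻¹) ^ 2 →
  ∃ h : Equiv.Perm ℂ, h ≠ 1 ∧ Aff h ∧ h ((w - t)⁻¹) = (w - t)⁻¹ ∧
    dfc ((T.erase t).image fun s => (s - t)⁻¹) h ≤ (UU T lam e).card + (UU T lam e').card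

/-- BIG.  Proof: T' = the image of T.erase t under Y, card T - 1 points; v = 2u.  For w in T.erase t
three different elements of FF t w have three different Y, so two of them have different
(Y - om)^2 (a^2 = b^2 = c^2 with a, b, c distinct is impossible); MOB, then PIG. -/
def SpecBIG : Prop := ∀ (T E : Finset ℂ) (lam : ℂ → ℂ) (t : ℂ) (u : ℕ), t ∈ T → 3 ≤ T.card →
  (∀ w ∈ T, w ≠ t → 3 ≤ (FF E lam t w).card) → (∀ e ∈ E, (UU T lam e).card ≤ u) →
  208896 * u + 1 ≤ T.card → False

/-- ASB, the case k > m.  Proof: suppose 2000000 J < k = card ι; b at most J (BJ).  KYB: lam.  T = TT is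
not empty; t in T of the largest class, a = card (cls t); a is at least 3 by WE.  card T = 1: out for t
(t in E): e with t in UU e, so WA gives k - b at most b, absurd.  card T = 2: TWO.  card T at least 3:
FF t w has at least a elements (WB); WGT: if UU e is empty for all e in E take u = 0 in BIG; otherwise a is
at most 2b, u = 8b/a (floor), (208896 u + 1) a is at most 208896 * 8 b + 2 b = 1671170 b < k - b at most
(card T) a: BIG gives False. -/
def SpecASB : Prop := ∀ (ι : Type) [Fintype ι] (x y τ : ι → ℂ) (M : ι → Finset ℂ) (E : Finset ℂ),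
  SysB x y τ M E → E.card < Fintype.card ι →
  Fintype.card ι ≤ 2000000 * JJ M ∨ 2 * E.card ≤ Fintype.card ι + JJ M + 4

/-- PRB, the case k = m.  Proof: as EQ/PRD.lean: cover gives that E.erase (tau_i) is in the image of the
card ι - 1 = card E - 1 others, so the map is injective. -/
def SpecPRB : Prop := ∀ (ι : Type) [Fintype ι] (x y τ : ι → ℂ) (M : ι → Finset ℂ) (E : Finset ℂ),
  SysB x y τ M E → E.card = Fintype.card ι → ∀ i, (M i).card = 1 →
    τ i ∉ (Finset.univ.erase i).image (ms x y i) ∧
    E = insert (τ i) ((Finset.univ.erase i).image (ms x y i)) ∧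
    Set.InjOn (ms x y i) ((Finset.univ.erase i : Finset ι) : Set ι)

/-- SLB, the lemma of tangents for good points.  Proof: as EQ/SLP.lean (products over all l). -/
def SpecSLB : Prop := ∀ (ι : Type) [Fintype ι] (x y τ : ι → ℂ) (M : ι → Finset ℂ) (E : Finset ℂ),
  SysB x y τ M E → E.card = Fintype.card ι → ∃ g : ι → ℂ, (∀ i, g i ≠ 0) ∧
    ∀ i j, (M i).card = 1 → (M j).card = 1 →
      (y j - y i) * (g i + g j) = (x j - x i) * (τ i * g i + τ j * g j)

/-- a hyperbola through the points -/
def Hyp {κ : Type} (x y τ : κ → ℂ) (a1 b1 c1 a2 b2 c2 N : ℂ) : Prop :=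
  a1 * b2 - a2 * b1 ≠ 0 ∧ N ≠ 0 ∧
  (∀ i, (a1 * x i + b1 * y i + c1) * (a2 * x i + b2 * y i + c2) = N) ∧
  (∀ i, (a1 * x i + b1 * y i + c1) * (a2 + b2 * τ i) +
    (a2 * x i + b2 * y i + c2) * (a1 + b1 * τ i) = 0)

/-- a parabola through the points -/
def Par {κ : Type} (x y τ : κ → ℂ) (a1 b1 c1 a2 b2 c2 : ℂ) : Prop :=
  a1 * b2 - a2 * b1 ≠ 0 ∧
  (∀ i, (a1 * x i + b1 * y i + c1) ^ 2 + (a2 * x i + b2 * y i + c2) = 0) ∧
  (∀ i, 2 * (a1 * x i + b1 * y i + c1) * (a1 + b1 * τ i) + (a2 + b2 * τ i) = 0)

/-- COB, the conic.  Proof: i0, i1 distinct, s = ms i0 i1, D = x i1 - x i0, x' = (x - x i0)/D,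
y' = (y - y i0) - s (x - x i0), τ' = D (τ - s), the same g: all hypotheses hold for x', y', τ'
(ms x' y' i j = D (ms x y i j - s)) and x' i0 = y' i0 = 0, x' i1 = 1, y' i1 = 0.  `SpecCON` of EQ and the
proof of EQ/ANA.lean (its cases; instead of calling HYP, PAR return the forms; PAR: u = a x + b y + d,
w = 2 k y + l, k not 0).  Substitute back: a form in x', y' is one in x, y. -/
def SpecCOB : Prop := ∀ (κ : Type) [Fintype κ] (x y τ g : κ → ℂ), 3 ≤ Fintype.card κ →
  Function.Injective x → (∀ i, g i ≠ 0) →
  (∀ i j, (y j - y i) * (g i + g j) = (x j - x i) * (τ i * g i + τ j * g j)) →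
  (∀ i j, i ≠ j → ms x y i j ≠ τ i) →
  (∀ i j l, j ≠ i → l ≠ i → j ≠ l → ms x y i j ≠ ms x y i l) →
  ∃ a1 b1 c1 a2 b2 c2 N : ℂ, Hyp x y τ a1 b1 c1 a2 b2 c2 N ∨ Par x y τ a1 b1 c1 a2 b2 c2

/-- PAB, no parabola.  Proof: u_i = a1 x_i + b1 y_i + c1, w_i = a2 x_i + b2 y_i + c2 = - u_i^2; the u_i,
i good, are distinct.  For a slope e put κ e = - (a2 + b2 e)/(a1 + b1 e).  Chord of good i, j: u_i not u_j,
a1 + b1 e = (u_j - u_i)/(x_j - x_i) is not 0 and κ e = u_i + u_j; tangent: κ (tau_i) = 2 u_i
(a1 + b1 tau_i is not 0, since otherwise a2 + b2 tau_i = 0 too, against the determinant).  κ is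
injective where a1 + b1 e is not 0.  U = {u_i}: card (U + U) at most card E = card ι < (3/2) card U (3b <
card ι).  Additive form of `Finset.doubling_lt_three_halves` (or: a finite set U of complex numbers has
card (U + U) at least 2 card U - 1, translate a one-dimensional order): a finite subgroup of ℂ is
trivial, so card U is at most 1, but card U = card ι - b > 2. -/
def SpecPAB : Prop := ∀ (ι : Type) [Fintype ι] (x y τ : ι → ℂ) (M : ι → Finset ℂ) (E : Finset ℂ),
  SysB x y τ M E → E.card = Fintype.card ι → 3 * (Bd M).card < Fintype.card ι →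
  ∀ a1 b1 c1 a2 b2 c2 : ℂ,
  ¬ Par (fun i : {i : ι // (M i).card = 1} => x i.1) (fun i => y i.1) (fun i => τ i.1)
    a1 b1 c1 a2 b2 c2

/-- GPH, the group of the hyperbola.  Proof: u_i = a1 x_i + b1 y_i + c1, v_i = N/u_i.
For a slope e put κ e = - N (a1 + b1 e)/(a2 + b2 e).  Chord of good i, j: κ e = u_i u_j, tangent:
κ (tau_i) = u_i^2 (denominators not 0 as in PAB).  κ is injective where a2 + b2 e is not 0.  U = {u_i :
i good}, in ℂˣ; card (U U) at most card E = card ι = k < (3/2) card U.
`Finset.doubling_lt_three_halves` in ℂˣ: a finite subgroup H, card H < (3/2) card U, U in u0 H; H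
is the group of the n-th roots of unity, n = card H.  As 2 card U > card H, every element of H is a
product: U U = u0^2 H, so n = card (U U) at most k. -/
def SpecGPH : Prop := ∀ (ι : Type) [Fintype ι] (x y τ : ι → ℂ) (M : ι → Finset ℂ) (E : Finset ℂ),
  SysB x y τ M E → E.card = Fintype.card ι → 3 * (Bd M).card < Fintype.card ι →
  ∀ a1 b1 c1 a2 b2 c2 N : ℂ,
  Hyp (fun i : {i : ι // (M i).card = 1} => x i.1) (fun i => y i.1) (fun i => τ i.1)
    a1 b1 c1 a2 b2 c2 N →
  ∃ (n : ℕ) (u0 : ℂ), u0 ≠ 0 ∧ 1 ≤ n ∧ n ≤ Fintype.card ι ∧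
    (∀ i, (M i).card = 1 → (a1 * x i + b1 * y i + c1) ^ n = u0 ^ n) ∧
    ∀ z : ℂ, z ^ n = 1 → ∃ e ∈ E, u0 ^ 2 * z * (a2 + b2 * e) = - N * (a1 + b1 * e)

/-- HYB, all points are vertices.  Proof: n, u0 from GPH; V = the n numbers v with v^n = u0^n (vertices:
the points with u = v, v-coordinate N/v).  P = the set of the at most... exactly n slopes of E given by
the z of GPH (distinct z give distinct e: the determinant); card E - card P = k - n.  Let j be bad and
not a vertex (vertex: (u_j, v_j) = (v, N/v) with v in V).  For good i the slopes m_ij are distinct (PRB), so at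
least g - (k - n) of them are in P, g = k - b.  Let i be such, w = u0^2 z for e = m_ij, v_i' = w/u_i,
in V.  The line through P_i of slope e contains the vertex v_i' (if v_i' is not u_i: the chord
slope of the two points on the hyperbola is e); v_i' = u_i would give e = tau_i, against tang.
v_i' is not u_l for a good l (otherwise m_il = e = m_ij, against PRB), so v_i' is in V minus U, and
different i give different v_i' (otherwise P_i, P_i' are both on the line through P_j and
the vertex, which are different points; m_ij = m_i'j and m_ji = m_ji' ... so m_ii' = m_ij, PRB).  So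
g - (k - n) is at most n - g, 2g at most k, against 3b < k.  So all points are vertices: k distinct points, n at
most k: n = k, and all vertices occur.  For σ in E: P has n = k = card E elements, so σ is in P.
Concl (card ι = n): divide the form a1.. by u0 and multiply the form a2.. by u0/N: ζ_i = u_i/u0, and
σ in P with z: ω = z⁻¹ ... (u0^2 z (a2 + b2 σ) = - N (a1 + b1 σ)). -/
def SpecHYB : Prop := ∀ (ι : Type) [Fintype ι] (x y τ : ι → ℂ) (M : ι → Finset ℂ) (E : Finset ℂ),
  SysB x y τ M E → E.card = Fintype.card ι → 3 * (Bd M).card < Fintype.card ι →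
  ∀ a1 b1 c1 a2 b2 c2 N : ℂ,
  Hyp (fun i : {i : ι // (M i).card = 1} => x i.1) (fun i => y i.1) (fun i => τ i.1)
    a1 b1 c1 a2 b2 c2 N → Concl x y E

/-- the double points on a, as the lines through p -/
noncomputable def gd (A : Finset V3) (p a : V3) : Finset V3 := (Ap A p).filter fun c =>
  ∀ b ∈ A, dotProduct b p ≠ 0 → b ≠ a → LinearIndependent ℂ ![a, c, b]

/-- CNB.  Proof: EQ/CNT.lean (`two_sum_le`, `exists_double`, `count_line`): good = gd; 1 at most card (gd a),
m + 1 at most card (gd a) + k.  (3): if m = 2 take T = {(c1,c2), (c2,c1)} in `two_sum_le`: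
2k + 2 = 2 (k + m) - 2 at most card Fn; if k < m: 2 k (m + 1 - k) at least 2 (k + m) - 2, because
(k - 1)(m - k - 1) is at least 0. -/
def SpecCNB : Prop := ∀ (A : Finset V3) (p : V3), Arr A → Mod A p →
  2 * ∑ a ∈ Aq A p, (gd A p a).card ≤ (Fn A).card ∧ (∀ a ∈ Aq A p, 1 ≤ (gd A p a).card) ∧
  2 ≤ (Ap A p).card ∧ A.card = (Ap A p).card + (Aq A p).card ∧
  ((Ap A p).card = 2 ∨ (Aq A p).card < (Ap A p).card → 2 * A.card ≤ (Fn A).card + 2)

/-- CRB.  Proof: as FG/CRG.lean: M a = the image of gd A p a under f1/f0 (injective on Ap), τ a an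
element of M a (nonempty by CNB), E = the image of Ap.  tang: a chord from a to b has the slope
of c only if LI(a,c,b) fails.  cover: c in Ap not in gd a: some b off p, not a, with not LI(a,c,b). -/
def SpecCRB : Prop := ∀ (A : Finset V3) (p : V3), Arr A → Mod A p → 3 ≤ (Ap A p).card →
  ∃ (f0 f1 : V3 →ₗ[ℂ] ℂ) (τ : {a // a ∈ Aq A p} → ℂ) (M : {a // a ∈ Aq A p} → Finset ℂ)
    (E : Finset ℂ),
    (∀ w : V3, f0 w = 0 → f1 w = 0 → dotProduct w p = 0 → w = 0) ∧
    SysB (fun a : {a // a ∈ Aq A p} => f0 a.1 / dotProduct a.1 p)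
      (fun a : {a // a ∈ Aq A p} => f1 a.1 / dotProduct a.1 p) τ M E ∧
    (∀ a, (M a).card = (gd A p a.1).card) ∧ E.card = (Ap A p).card ∧
    ∀ c ∈ Ap A p, f0 c ≠ 0 ∧ f1 c / f0 c ∈ E

/-- FWB, the case k = m.  Proof: CRB (m = k at least 3), BJ, CNB: sum of card M = k + J < (4/3) k, b at most
J < k/3; SLB for g, COB for the good points (at least 3 of them; sep by PRB), PAB excludes the parabola,
HYB: Concl; then as EQ/FWD.lean. -/
def SpecFWB : Prop := ∀ (A : Finset V3) (p : V3), Arr A → Mod A p → 3 ≤ (Ap A p).card →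
  (Ap A p).card = (Aq A p).card → 3 * (Fn A).card < 8 * (Aq A p).card → Std A

/-- FIN.  Proof: m = card Ap, k = card Aq, s = k + m at least 3.  m = 2 or k < m: CNB (3), 2s - 2 at least
(4/3) s.  k = m: FWB, otherwise card Fn at least (8/3) k = (4/3) s.  k > m at least 3: CRB, BJ, CNB: card Fn is
at least 2 (k + J); ASB: k at most 2000000 J gives 2 (k + J) at least 2k (1 + 1/2000000), 2k > s; or
2m at most k + J + 4: then 3 card Fn at least 4 (k + J) + 2 (2m - 4) at least 4s - 8; for s at least 9 this is enough,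
for s at most 8 card Fn is at least 2k, at least s + 1. -/
def SpecFIN : Prop := ∀ (A : Finset V3) (p : V3), Arr A → Mod A p →
  Std A ∨ 2000001 * A.card ≤ 2000000 * (Fn A).card

end Pool.Agent.Lib.MP_70c3c6_co.GP
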