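import Pool.Agent.Lib.MP_70c3c6_co.GP.Spec

/-!
MP_70c3c6_co, GP, second part: the gap theorem with the constant 1/14150 (instead of 1/4000000).
Changes: 6 instead of 25 in the plane kissing bound; instead of the doubling theorem the linear growth of
the powers of a symmetric generating set of an infinite group: for A = A⁻¹ containing 1, x in
A^(3n) but not in A^(3n-1): x A is in A^(3n+1) and disjoint from A^(3n-2), so card A^(3n+1) is at least
card A^(3n-2) + card A; and a better count in WGT.
-/

set_option autoImplicit false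
open Classical Polynomial Pointwise

namespace Pool.Agent.Lib.MP_70c3c6_co.GP

open Pool.Agent.Lib.MP_70c3c6_co.EQ
open Pool.Agent.Lib.MP_70c3c6_co.FG

/-- KI6.  Proof: z = x - p = α + β ω, ω = 1/2 + i √3/2 (β = 2 im z/√3, α = re z - im z/√3),
|z|^2 = α^2 + αβ + β^2.  Six half open sectors: (α > 0, β ≥ 0), (α ≤ 0, α+β > 0),
(β > 0, α+β ≤ 0), (α < 0, β ≤ 0), (α ≥ 0, α+β < 0), (β < 0, α+β ≥ 0); every z not 0 is in one
of them.  Two points of the set in the same sector are equal: for the first sector let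
d = α1 - α2, d' = β1 - β2, |z1 - z2|^2 = d^2 + d d' + d'^2.  If d, d' ≥ 0: d < α1, d' ≤ β1, so this is
< |z1|^2 (similarly both ≤ 0); if d ≥ 0 ≥ d': it is at most max(d^2, d'^2), d < α1 and
|d'| ≤ β2 < ... , α2 > 0, so it is < max(|z1|^2, |z2|^2) (similarly d ≤ 0 ≤ d').  But |z1| and |z2|
are at most |x1 - x2| = |z1 - z2|.  The other sectors are the first one after the substitution
(α, β) -> (α + β, - α), which preserves the form and permutes the sectors cyclically. -/
def SpecKI6 : Prop := ∀ (T : Finset ℂ) (p : ℂ),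
  (T.filter fun x => x ≠ p ∧ ∀ x' ∈ T, x' ≠ x → ‖x - p‖ ≤ ‖x - x'‖).card ≤ 6

/-- NN6.  Proof: as GP/NNB.lean with 6 in place of 25: at most v + 6v + 6v = 13 v points are not nice
for h, so card S * (card T - 13 v) is at most card T * 6 card T (stated without subtraction). -/
def SpecNN6 : Prop := ∀ (T : Finset ℂ) (v : ℕ) (S : Finset (Equiv.Perm ℂ)), 2 ≤ T.card →
  (∀ h ∈ S, Aff h ∧ dfc T h ≤ v) → S.card * T.card ≤ 6 * T.card ^ 2 + 13 * v * S.card

/-- PIF.  Proof: A = 1, h_w, h_w⁻¹ (w in T), a finite subset of Perm ℂ, A = A⁻¹, card A at least card T + 1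
(w -> h_w is injective: a similarity other than 1 has at most one fixed point).  Aff is closed under
products and inverses, dfc (g h) is at most dfc g + dfc h, dfc h⁻¹ = dfc h (see GP/PIG.lean, NNB.lean), so
A^j consists of Aff elements with dfc at most j v.  A^(j+1) is never A^j: otherwise A^j is a finite
set closed under left multiplication by A, so h_w permutes the finite set {g 0 : g in A^j}
... more simply: w0 = the mean of g 0 over g in A^j; for h in A the map g -> h g permutes A^j (injective,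
into), h is affine, so h w0 = w0 for all h = h_w, and w = w0 for all w in T, but T has two elements.
As 1 is in A the A^j increase: take x in A^(3n) not in A^(3n-1): x A is in A^(3n+1), disjoint from
A^(3n-2) (x a in A^(3n-2) gives x in A^(3n-1) as a⁻¹ is in A).  So card A^(3n+1) is at least
card A^(3n-2) + card A, and card A^34 is at least 12 card A, at least 12 (card T + 1).  NN6 for S = A^34, 34 v:
card S * card T at most 6 card T^2 + 442 v card S at most 6 card T^2 + card S * card T / 2, so
card S is at most 12 card T. -/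
def SpecPIF : Prop := ∀ (T : Finset ℂ) (v : ℕ), 2 ≤ T.card → 884 * v ≤ T.card →
  (∀ w ∈ T, ∃ h : Equiv.Perm ℂ, h ≠ 1 ∧ Aff h ∧ h w = w ∧ dfc T h ≤ v) → False

/-- BI2.  Proof: as GP/BIG.lean with PIF in place of PIG (v = 2u, 884 * 2 = 1768). -/
def SpecBI2 : Prop := ∀ (T E : Finset ℂ) (lam : ℂ → ℂ) (t : ℂ) (u : ℕ), t ∈ T → 3 ≤ T.card →
  (∀ w ∈ T, w ≠ t → 3 ≤ (FF E lam t w).card) → (∀ e ∈ E, (UU T lam e).card ≤ u) →
  1768 * u + 1 ≤ T.card → False

/-- WG2.  Proof: as GP/WGT.lean: the sum over T of (a - card (cls s)) is N a - (k - b), at most a + b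
(WB, WC, BJ); so card (UU e) * a = the sum over UU e of (a - card (cls s)) + the sum over UU e of
card (cls s), at most (a + b) + b = a + 2b (WA), at most 4b if a is at most 2b.  If a > 2b: UU e is empty as
in WGT. -/
def SpecWG2 : Prop := ∀ (ι : Type) [Fintype ι] (x y τ : ι → ℂ) (M : ι → Finset ℂ) (E : Finset ℂ)
  (lam : ℂ → ℂ), SysB x y τ M E → Key x y τ M E lam → E.card < Fintype.card ι → ∀ t ∈ TT τ M,
  (∀ s ∈ TT τ M, (cls τ M s).card ≤ (cls τ M t).card) →
  (∀ e ∈ E, UU (TT τ M) lam e = ∅ ∨ ((cls τ M t).card ≤ 2 * (Bd M).card ∧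
    (UU (TT τ M) lam e).card * (cls τ M t).card ≤ 4 * (Bd M).card)) ∧
  Fintype.card ι ≤ (TT τ M).card * (cls τ M t).card + (Bd M).card

/-- AS2.  Proof: as GP/ASB.lean with WG2, BI2: suppose 7075 J < k; b at most J.  card T at least 3: u = 0 if all
UU e are empty, otherwise a at most 2b and u = 4b/a (floor): (1768 u + 1) a is at most 1768 * 4b + 2b =
7074 b < k - b, at most (card T) a. -/
def SpecAS2 : Prop := ∀ (ι : Type) [Fintype ι] (x y τ : ι → ℂ) (M : ι → Finset ℂ) (E : Finset ℂ),
  SysB x y τ M E → E.card < Fintype.card ι →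
  Fintype.card ι ≤ 7075 * JJ M ∨ 2 * E.card ≤ Fintype.card ι + JJ M + 4

end Pool.Agent.Lib.MP_70c3c6_co.GP
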