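import Pool.Agent.Lib.MP_70c3c6_co.GP.Spec2

/-!
MP_70c3c6_co, GP, third part: the structure of the near extremal arrangements (m < s/2,
t_2 < (1 + 1/7075)(s - m)): all but at most t_2 - (s - m) of the lines off p pass through one of two
points.
-/

set_option autoImplicit false
open Classical Polynomial Pointwise

namespace Pool.Agent.Lib.MP_70c3c6_co.GP

open Pool.Agent.Lib.MP_70c3c6_co.EQ
open Pool.Agent.Lib.MP_70c3c6_co.FG

/-- two classes t, w; the class of t is on a line of slope w and the class of w on a line of slope t -/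
def TwoP {ι : Type} [Fintype ι] (x y τ : ι → ℂ) (M : ι → Finset ℂ) (t w : ℂ) : Prop :=
  t ≠ w ∧ (∀ i, (M i).card = 1 → τ i = t ∨ τ i = w) ∧
  (∀ i j, i ≠ j → (M i).card = 1 → (M j).card = 1 → τ i = t → τ j = t → ms x y i j = w) ∧
  (∀ i j, i ≠ j → (M i).card = 1 → (M j).card = 1 → τ i = w → τ j = w → ms x y i j = t)

/-- TW2.  Proof: part of the proof of TWO (GP/TWO.lean): T = {t, w}; every e in E other than t, w satisfies
Rel e t w; for i, j in cls t the slope e = ms i j satisfies Rel e t t by `two` and is not t (tang), so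
it is not Rel e t w (otherwise t = w), so e = w.  The same for cls w. -/
def SpecTW2 : Prop := ∀ (ι : Type) [Fintype ι] (x y τ : ι → ℂ) (M : ι → Finset ℂ) (E : Finset ℂ)
  (lam : ℂ → ℂ), SysB x y τ M E → Key x y τ M E lam → E.card < Fintype.card ι →
  (TT τ M).card = 2 → 5 * (Bd M).card < Fintype.card ι → ∃ t w, TwoP x y τ M t w

/-- AS3.  Proof: as GP/AS2.lean; in the case card T = 2 both TWO and TW2. -/
def SpecAS3 : Prop := ∀ (ι : Type) [Fintype ι] (x y τ : ι → ℂ) (M : ι → Finset ℂ) (E : Finset ℂ),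
  SysB x y τ M E → E.card < Fintype.card ι →
  Fintype.card ι ≤ 7075 * JJ M ∨
    (2 * E.card ≤ Fintype.card ι + JJ M + 4 ∧ ∃ t w, TwoP x y τ M t w)

end Pool.Agent.Lib.MP_70c3c6_co.GP
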