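import Pool.Agent.Lib.MP_70c3c6_co.GP.Spec

/-!
MP_70c3c6_co, module WB: the classes and the slopes which exchange two of them.
-/

set_option autoImplicit false
open Classical Polynomial Pointwise

namespace Pool.Agent.Lib.MP_70c3c6_co.GP

open Pool.Agent.Lib.MP_70c3c6_co.EQ
open Pool.Agent.Lib.MP_70c3c6_co.FG

namespace WBM

theorem ms_symm {ι : Type} (x y : ι → ℂ) (i j : ι) : ms x y j i = ms x y i j := by
  unfold ms
  rw [← neg_sub (y j) (y i), ← neg_sub (x j) (x i), neg_div_neg_eq]

theorem rel_symm {lam : ℂ → ℂ} {e s s' : ℂ} (h : Rel lam e s s') : Rel lam e s' s := by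
  unfold Rel at *
  rw [add_comm]
  exact h

theorem rel_unique {lam : ℂ → ℂ} {e t s s' : ℂ} (h : Rel lam e t s) (h' : Rel lam e t s') :
    s = s' := by
  unfold Rel at *
  have h1 : (e - s)⁻¹ = (e - s')⁻¹ := by
    have h2 := h.trans h'.symm
    exact add_left_cancel h2
  have h2 := inv_injective h1
  exact sub_right_injective h2

theorem FF_symm (E : Finset ℂ) (lam : ℂ → ℂ) (t s : ℂ) : FF E lam t s = FF E lam s t := by
  unfold FF
  apply Finset.filter_congr
  intro e _
  constructor
  · rintro ⟨h1, h2, h3⟩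
    exact ⟨h2, h1, rel_symm h3⟩
  · rintro ⟨h1, h2, h3⟩
    exact ⟨h2, h1, rel_symm h3⟩

section
variable {ι : Type} [Fintype ι] {x y τ : ι → ℂ} {M : ι → Finset ℂ} {E : Finset ℂ}
  {lam : ℂ → ℂ}

theorem mem_cls {s : ℂ} {i : ι} : i ∈ cls τ M s ↔ (M i).card = 1 ∧ τ i = s := by
  simp [cls]

theorem mem_TT {s : ℂ} : s ∈ TT τ M ↔ ∃ i, (M i).card = 1 ∧ τ i = s := by
  simp [TT]

/-- the map into the slopes -/
theorem le_FF (hS : SysB x y τ M E) (hK : Key x y τ M E lam) {t s : ℂ} (ht : t ∈ TT τ M)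
    (hts : t ≠ s) : (cls τ M s).card ≤ (FF E lam t s).card := by
  obtain ⟨i, hi, hit⟩ := mem_TT.mp ht
  have hne : ∀ j ∈ cls τ M s, j ≠ i := by
    rintro j hj rfl
    exact hts (hit.symm.trans (mem_cls.mp hj).2)
  refine Finset.card_le_card_of_injOn (fun j => ms x y i j) ?_ ?_
  · intro j hj
    have hj' : j ∈ cls τ M s := hj
    obtain ⟨hj1, hj2⟩ := mem_cls.mp hj'
    have hji := hne j hj'
    show ms x y i j ∈ FF E lam t s
    unfold FF
    rw [Finset.mem_filter]
    refine ⟨hS.chord i j hji.symm, ?_, ?_, ?_⟩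
    · intro h
      apply hS.tang i j hji.symm
      rw [h, ← hit]
      exact hS.tau i
    · intro h
      apply hS.tang j i hji
      rw [ms_symm, h, ← hj2]
      exact hS.tau j
    · have h := hK.two i j hji.symm hi hj1
      rw [hit, hj2] at h
      exact h
  · intro j hj j' hj' hjj
    have hj1 : j ∈ cls τ M s := hj
    have hj2 : j' ∈ cls τ M s := hj'
    by_contra hne'
    have h1 := hK.rich i j j' hi (hne j hj1) (hne j' hj2) hne' hjj
    have h2 := hK.two i j (hne j hj1).symm hi (mem_cls.mp hj1).1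
    rw [(mem_cls.mp hj1).2] at h2
    have h3 := rel_unique h1 h2
    exact hts (hit.symm.trans h3)

/-- the points on the lines through a good point -/
theorem FF_le (hS : SysB x y τ M E) (hK : Key x y τ M E lam) {t s : ℂ} (ht : t ∈ TT τ M) :
    (FF E lam t s).card ≤ (cls τ M s).card + (Bd M).card := by
  obtain ⟨i, hi, hit⟩ := mem_TT.mp ht
  have hMi : M i = {t} := by
    obtain ⟨a, ha⟩ := Finset.card_eq_one.mp hi
    have h1 := hS.tau i
    rw [ha, Finset.mem_singleton, hit] at h1
    rw [ha, h1]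
  have hex : ∀ e : ℂ, ∃ j : ι, e ∈ FF E lam t s → j ≠ i ∧ ms x y i j = e := by
    intro e
    by_cases he : e ∈ FF E lam t s
    · have he' := he
      unfold FF at he'
      rw [Finset.mem_filter] at he'
      obtain ⟨j, hj, hje⟩ := hS.cover i e he'.1 (by
        rw [hMi, Finset.mem_singleton]
        exact he'.2.1)
      exact ⟨j, fun _ => ⟨hj, hje⟩⟩
    · exact ⟨i, fun h => absurd h he⟩
  choose J hJ using hex
  refine (Finset.card_le_card_of_injOn (t := cls τ M s ∪ Bd M) J ?_ ?_).trans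
    (Finset.card_union_le _ _)
  · intro e he
    have he' : e ∈ FF E lam t s := he
    obtain ⟨h1, h2⟩ := hJ e he'
    show J e ∈ cls τ M s ∪ Bd M
    rw [Finset.mem_union]
    by_cases hg : (M (J e)).card = 1
    · left
      rw [mem_cls]
      refine ⟨hg, ?_⟩
      have h3 := hK.two i (J e) h1.symm hi hg
      rw [h2, hit] at h3
      unfold FF at he'
      rw [Finset.mem_filter] at he'
      exact rel_unique h3 he'.2.2.2
    · right
      unfold Bd
      rw [Finset.mem_filter]
      exact ⟨Finset.mem_univ _, hg⟩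
  · intro e he e' he' hee
    rw [← (hJ e he).2, ← (hJ e' he').2, hee]

end

end WBM

open WBM

theorem specWB : SpecWB := by
  intro ι _ x y τ M E lam hS hK t ht s hs hts
  refine ⟨le_FF hS hK ht hts, ?_, FF_le hS hK ht⟩
  rw [FF_symm]
  exact le_FF hS hK hs hts.symm

end Pool.Agent.Lib.MP_70c3c6_co.GP
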